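import Pool.Agent.H19.P4.PolA

/-!
# Number of facets

If a smooth polytope is the intersection of `m` closed half-spaces then it has at most `m` facet normals.
-/

set_option autoImplicit false
set_option linter.all false

namespace Pool.Agent.H19.P4.Pol

open H66OD H19OZ H98OD Matrix
open scoped Classical

variable {d : ℕ} {P : Set (Fin d → ℝ)}

/-- an active half-space at a point which is left in the direction `-e` -/
theorem active {m : ℕ} (n : Fin m → Fin d → ℝ) (b : Fin m → ℝ) (y e : Fin d → ℝ)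
    (hy : ∀ j, n j ⬝ᵥ y ≤ b j) (hout : ∀ t : ℝ, 0 < t → ∃ j, b j < n j ⬝ᵥ (y - t • e)) :
    ∃ j, n j ⬝ᵥ y = b j ∧ n j ⬝ᵥ e < 0 := by
  by_contra hcon
  push Not at hcon
  have h1 : ∀ j, ∀ᶠ t : ℝ in nhdsWithin 0 (Set.Ioi 0), n j ⬝ᵥ (y - t • e) ≤ b j := by
    intro j
    by_cases hj : n j ⬝ᵥ y = b j
    · have h2 := hcon j hj
      filter_upwards [self_mem_nhdsWithin] with t ht
      have ht' : (0 : ℝ) < t := ht
      rw [dotProduct_sub, dotProduct_smul, smul_eq_mul]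
      have := mul_nonneg ht'.le h2
      linarith
    · have h2 : n j ⬝ᵥ y < b j := lt_of_le_of_ne (hy j) hj
      have h3 : Filter.Tendsto (fun t : ℝ => n j ⬝ᵥ y - t * (n j ⬝ᵥ e)) (nhds 0)
          (nhds (n j ⬝ᵥ y - 0 * (n j ⬝ᵥ e))) := by
        apply Continuous.tendsto
        fun_prop
      rw [zero_mul, sub_zero] at h3
      have h4 : ∀ᶠ t : ℝ in nhds 0, n j ⬝ᵥ y - t * (n j ⬝ᵥ e) < b j := h3.eventually_lt_const h2
      filter_upwards [h4.filter_mono nhdsWithin_le_nhds] with t ht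
      rw [dotProduct_sub, dotProduct_smul, smul_eq_mul]
      exact ht.le
  have h2 : ∀ᶠ t : ℝ in nhdsWithin 0 (Set.Ioi 0), ∀ j, n j ⬝ᵥ (y - t • e) ≤ b j :=
    Filter.eventually_all.2 h1
  obtain ⟨t, ht, ht0⟩ := (h2.and self_mem_nhdsWithin).exists
  obtain ⟨j, hj⟩ := hout t ht0
  exact absurd (ht j) (not_le.2 hj)

/-- every facet normal is up to a negative factor the normal of one of the half-spaces -/
theorem normal {m : ℕ} (D : SD P) (n : Fin m → Fin d → ℝ) (b : Fin m → ℝ)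
    (hP : P = {x | ∀ i, n i ⬝ᵥ x ≤ b i}) {f : Fin d → ℤ} (hf : f ∈ FF D) :
    ∃ j, ∃ c : ℝ, 0 < c ∧ n j = -c • toR f := by
  obtain ⟨v, hv, i, rfl⟩ := mem_FF.1 hf
  have hmem : ∀ x, x ∈ P ↔ ∀ j, n j ⬝ᵥ x ≤ b j := by
    intro x
    rw [hP, Set.mem_setOf_eq]
  have hdpos : (0 : ℝ) < (d : ℝ) := by
    have := i.pos
    exact_mod_cast this
  have hv0 : ∀ j, n j ⬝ᵥ toR v ≤ b j := (hmem _).1 (D.vmem hv)
  have hvl : ∀ l j, n j ⬝ᵥ toR v + n j ⬝ᵥ toR (D.e v l) ≤ b j := by
    intro l j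
    have h1 := (hmem _).1 (D.mem v hv l) j
    rw [toR_add, dotProduct_add] at h1
    exact h1
  have hcard : ((Finset.univ.erase i).card : ℝ) = (d : ℝ) - 1 := by
    rw [Finset.card_erase_of_mem (Finset.mem_univ _), Finset.card_univ, Fintype.card_fin,
      Nat.cast_sub i.pos]
    norm_num
  obtain ⟨y, hy⟩ : ∃ y : Fin d → ℝ,
      y = toR v + (d : ℝ)⁻¹ • ∑ l ∈ Finset.univ.erase i, toR (D.e v l) := ⟨_, rfl⟩
  have hny : ∀ j, (d : ℝ) * (n j ⬝ᵥ y) = n j ⬝ᵥ toR v +
      ∑ l ∈ Finset.univ.erase i, (n j ⬝ᵥ toR v + n j ⬝ᵥ toR (D.e v l)) := by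
    intro j
    rw [hy, dotProduct_add, dotProduct_smul, dotProduct_sum, smul_eq_mul, Finset.sum_add_distrib,
      Finset.sum_const, nsmul_eq_mul, hcard, mul_add, ← mul_assoc, mul_inv_cancel₀ hdpos.ne']
    ring
  have hyP : ∀ j, n j ⬝ᵥ y ≤ b j := by
    intro j
    have h1 : (d : ℝ) * (n j ⬝ᵥ y) ≤ (d : ℝ) * b j := by
      rw [hny]
      have h2 : ∑ l ∈ Finset.univ.erase i, (n j ⬝ᵥ toR v + n j ⬝ᵥ toR (D.e v l)) ≤
          ∑ l ∈ Finset.univ.erase i, b j := Finset.sum_le_sum fun l _ => hvl l j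
      rw [Finset.sum_const, nsmul_eq_mul, hcard] at h2
      have h3 := hv0 j
      linarith
    exact le_of_mul_le_mul_left h1 hdpos
  obtain ⟨j, hj, hje⟩ := active n b y (toR (D.e v i)) hyP (by
    intro t ht
    by_contra hcon
    push Not at hcon
    have h1 : y - t • toR (D.e v i) ∈ P := (hmem _).2 hcon
    have h2 := D.cone v hv i _ h1
    have h3 : toR (D.u v i) ⬝ᵥ (y - t • toR (D.e v i) - toR v) = -t := by
      rw [hy]
      have h4 : toR v + (d : ℝ)⁻¹ • ∑ l ∈ Finset.univ.erase i, toR (D.e v l) -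
          t • toR (D.e v i) - toR v = (d : ℝ)⁻¹ • ∑ l ∈ Finset.univ.erase i, toR (D.e v l) -
          t • toR (D.e v i) := by abel
      rw [h4, dotProduct_sub, dotProduct_smul, dotProduct_smul, dotProduct_sum, ue D hv,
        if_pos rfl, Finset.sum_eq_zero, smul_zero, smul_eq_mul]
      · ring
      · intro l hl
        rw [ue D hv, if_neg (Finset.ne_of_mem_erase hl).symm]
    rw [h3] at h2
    linarith)
  -- the other edges lie in the half-space boundary
  have hsum := hny j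
  rw [hj] at hsum
  have hz : ∑ l ∈ Finset.univ.erase i, (b j - (n j ⬝ᵥ toR v + n j ⬝ᵥ toR (D.e v l))) +
      (b j - n j ⬝ᵥ toR v) = 0 := by
    rw [Finset.sum_sub_distrib, Finset.sum_const, nsmul_eq_mul, hcard]
    linarith
  have hnn : 0 ≤ ∑ l ∈ Finset.univ.erase i, (b j - (n j ⬝ᵥ toR v + n j ⬝ᵥ toR (D.e v l))) :=
    Finset.sum_nonneg fun l _ => by linarith [hvl l j]
  have hv1 : n j ⬝ᵥ toR v = b j := le_antisymm (hv0 j) (by linarith)
  have hz2 : ∑ l ∈ Finset.univ.erase i, (b j - (n j ⬝ᵥ toR v + n j ⬝ᵥ toR (D.e v l))) = 0 := by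
    linarith
  have hel : ∀ l, l ≠ i → n j ⬝ᵥ toR (D.e v l) = 0 := by
    intro l hl
    have h1 := (Finset.sum_eq_zero_iff_of_nonneg (fun l _ => by linarith [hvl l j])).1 hz2 l
      (Finset.mem_erase.2 ⟨hl, Finset.mem_univ _⟩)
    linarith
  refine ⟨j, -(n j ⬝ᵥ toR (D.e v i)), by linarith, ?_⟩
  rw [neg_neg]
  have hx : ∀ x : Fin d → ℝ, n j ⬝ᵥ x = ((n j ⬝ᵥ toR (D.e v i)) • toR (D.u v i)) ⬝ᵥ x := by
    intro x
    have h1 : n j ⬝ᵥ x = n j ⬝ᵥ ∑ l, (toR (D.u v l) ⬝ᵥ x) • toR (D.e v l) :=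
      congrArg (fun w => n j ⬝ᵥ w) (D.span v hv x)
    rw [h1, dotProduct_sum, Finset.sum_eq_single i]
    · rw [dotProduct_smul, smul_dotProduct, smul_eq_mul, smul_eq_mul]
      ring
    · intro l _ hl
      rw [dotProduct_smul, hel l hl, smul_zero]
    · intro h'
      exact absurd (Finset.mem_univ _) h'
  funext k
  have h1 := hx (Pi.single k 1)
  rw [dotProduct_single, dotProduct_single, mul_one, mul_one] at h1
  exact h1

theorem card_le {m : ℕ} (D : SD P) (n : Fin m → Fin d → ℝ) (b : Fin m → ℝ)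
    (hP : P = {x | ∀ i, n i ⬝ᵥ x ≤ b i}) : (FF D).card ≤ m := by
  have h : ∀ f : Fin d → ℤ, ∃ j : Option (Fin m), f ∈ FF D →
      ∃ i, j = some i ∧ ∃ c : ℝ, 0 < c ∧ n i = -c • toR f := by
    intro f
    by_cases hf : f ∈ FF D
    · obtain ⟨j, c, hc, hj⟩ := normal D n b hP hf
      exact ⟨some j, fun _ => ⟨j, rfl, c, hc, hj⟩⟩
    · exact ⟨none, fun h => absurd h hf⟩
  choose g hg using h
  have h1 : (FF D).card ≤ ((Finset.univ : Finset (Fin m)).image some).card := by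
    refine Finset.card_le_card_of_injOn g ?_ ?_
    · intro f hf
      obtain ⟨i, hi, -⟩ := hg f hf
      rw [hi]
      exact Finset.mem_coe.2 (Finset.mem_image.2 ⟨i, Finset.mem_univ _, rfl⟩)
    · intro f hf f' hf' hff
      obtain ⟨i, hi, c, hc, hn⟩ := hg f hf
      obtain ⟨i', hi', c', hc', hn'⟩ := hg f' hf'
      rw [hi, hi'] at hff
      have hii := Option.some_injective _ hff
      rw [← hii] at hn'
      have he : c • toR f = c' • toR f' := by
        have h2 := hn.symm.trans hn'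
        rw [neg_smul, neg_smul] at h2
        exact neg_injective h2
      obtain ⟨v, hv, k, hk⟩ := mem_FF.1 hf
      obtain ⟨v', hv', k', hk'⟩ := mem_FF.1 hf'
      -- both factors are integers
      have e1 : c = c' * ((f' ⬝ᵥ D.e v k : ℤ) : ℝ) := by
        have h2 := congrArg (fun w => w ⬝ᵥ toR (D.e v k)) he
        simp only [smul_dotProduct, smul_eq_mul] at h2
        rw [toR_dot, toR_dot, ← hk, D.dual v hv, if_pos rfl, Int.cast_one, mul_one] at h2
        exact h2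
      have e2 : c' = c * ((f ⬝ᵥ D.e v' k' : ℤ) : ℝ) := by
        have h2 := congrArg (fun w => w ⬝ᵥ toR (D.e v' k')) he
        simp only [smul_dotProduct, smul_eq_mul] at h2
        rw [toR_dot, toR_dot, ← hk', D.dual v' hv', if_pos rfl, Int.cast_one, mul_one] at h2
        exact h2.symm
      have e3 : (0 : ℤ) < f' ⬝ᵥ D.e v k := by
        by_contra hcon
        have h2 : ((f' ⬝ᵥ D.e v k : ℤ) : ℝ) ≤ 0 := by exact_mod_cast not_lt.1 hcon
        have h3 := mul_nonpos_of_nonneg_of_nonpos hc'.le h2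
        linarith
      have e4 : (0 : ℤ) < f ⬝ᵥ D.e v' k' := by
        by_contra hcon
        have h2 : ((f ⬝ᵥ D.e v' k' : ℤ) : ℝ) ≤ 0 := by exact_mod_cast not_lt.1 hcon
        have h3 := mul_nonpos_of_nonneg_of_nonpos hc.le h2
        linarith
      have e5 : ((f' ⬝ᵥ D.e v k) * (f ⬝ᵥ D.e v' k') : ℤ) = 1 := by
        have h2 : c * 1 = c * (((f ⬝ᵥ D.e v' k' : ℤ) : ℝ) * ((f' ⬝ᵥ D.e v k : ℤ) : ℝ)) := by
          rw [mul_one, ← mul_assoc, ← e2]
          exact e1
        have h3 := mul_left_cancel₀ hc.ne' h2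
        have h4 : (1 : ℤ) = (f ⬝ᵥ D.e v' k') * (f' ⬝ᵥ D.e v k) := by exact_mod_cast h3
        rw [mul_comm]
        exact h4.symm
      have e6 : f' ⬝ᵥ D.e v k = 1 := by
        rcases Int.eq_one_or_neg_one_of_mul_eq_one e5 with h2 | h2
        · exact h2
        · rw [h2] at e3
          exact absurd e3 (by norm_num)
      rw [e6, Int.cast_one, mul_one] at e1
      rw [e1] at he
      exact toR_injective (smul_right_injective _ hc'.ne' he)
  refine h1.trans ?_
  rw [Finset.card_image_of_injective _ (Option.some_injective _), Finset.card_univ,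
    Fintype.card_fin]

end Pool.Agent.H19.P4.Pol
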