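import Pool.Agent.H19.P4.L1

/-!
Module A3 (row P4A3).  Rank at most three: no nef class is stuck.  Use Bas, `Fct.le_one`, `Fct.nn`, `Fct.wit`.
`a3`.  `B` contains some `J0`; `ρ ≥ 1`, otherwise `J0 = ∅` and `a = 0` by `C.exp`.  So `J0` is not empty and `F` is not empty; `hst` gives `h ∈ IS H a`.  `h = c J k` (`hH.sub`), `K := J.erase k`, `|K| ≤ 2`;
  `c J k a = h a = 0`, so `a = ∑_{l ∈ K} c J l a • v l`, with `c J l a ≥ 0`, not all `0`.  For `l ∈ K`: `h (v l) = 0` (`C.other`), so by `hst` some `g ∈ IS H a`, `g (v l) > 0`, `g ≠ h`; `0 = g a = ∑_{l ∈ K} c J l a * g (v l)`.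
  Take `l ∈ K` with `c J l a > 0` and `g` with `g (v l) > 0`: the sum over `K` is `0`, so there is `m ∈ K` with `m ≠ l`, `K = {l, m}`, `c J m a > 0`, `g (v m) < 0`, `c_l g (v l) + c_m g (v m) = 0`.
  `hst m`: `g' ∈ IS H a` with `g' (v m) > 0`; `g' ≠ h`; `c_l g' (v l) + c_m g' (v m) = 0`, `g' (v l) < 0`.  The witness `y` of `h`: `h y = 0`, `g y > 0`, `g' y > 0` (`g, g' ∈ H` are of the form `c J' k'` and `≠ h`).
  `y = u • v l + u' • v m` (`C.exp`, `u = c J l y`, `u' = c J m y`).  With `g (v l) = c_m G`, ... : from `c_l g (v l) = - c_m g (v m)`, multiply: `c_m * g y = c_m u g (v l) + c_m u' g (v m) = g (v l) * (c_m u - c_l u')`, so `c_m u - c_l u' > 0`, and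
  `c_l * g' y = c_l u g' (v l) + c_l u' g' (v m) = g' (v m) * (c_l u' - c_m u) < 0` (using `c_l g' (v l) = - c_m g' (v m)`): contradiction.
-/

set_option autoImplicit false
set_option linter.all false

namespace Pool.Agent.H19.P4

variable {ρ : ℕ} {ι Λ : Type} [DecidableEq ι] [AddCommGroup Λ]

private theorem A3_app (C : Cf ρ ι Λ) {J : Finset ι} (hJ : J ∈ C.B) (g : Λ →+ ℤ) (x : Λ) :
    g x = ∑ k ∈ J, C.c J k x * g (C.v k) := by
  conv_lhs => rw [← C.exp J hJ x]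
  rw [map_sum]
  exact Finset.sum_congr rfl fun k _ => by rw [map_zsmul, smul_eq_mul]

private theorem A3_split {J : Finset ι} {k l m : ι} (hk : k ∈ J) (hl : l ∈ J.erase k) (hm : m ∈ (J.erase k).erase l)
    (hc : J.card ≤ 3) (f : ι → ℤ) : ∑ i ∈ J, f i = f k + (f l + f m) := by
  rw [← Finset.add_sum_erase J f hk, ← Finset.add_sum_erase (J.erase k) f hl]
  have h1 : ((J.erase k).erase l).card ≤ 1 := by
    rw [Finset.card_erase_of_mem hl, Finset.card_erase_of_mem hk]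
    omega
  have h2 : (J.erase k).erase l = {m} := by
    refine (Finset.eq_of_subset_of_card_le (Finset.singleton_subset_iff.2 hm) ?_).symm
    rw [Finset.card_singleton]
    exact h1
  rw [h2, Finset.sum_singleton]

theorem a3 (C : Cf ρ ι Λ) (hρ : ρ ≤ 3) {H : Finset (Λ →+ ℤ)} (hH : Fct C H) {a : Λ} (ha : C.Nef a)
    (hne : a ≠ 0) (hst : ∀ f ∈ C.F, ∃ h ∈ IS H a, 0 < h (C.v f)) : False := by
  obtain ⟨J0, hJ0⟩ := C.ne
  have hJ0ne : J0.Nonempty := by
    rw [Finset.nonempty_iff_ne_empty]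
    rintro rfl
    apply hne
    rw [← C.exp ∅ hJ0 a, Finset.sum_empty]
  obtain ⟨f0, hf0⟩ := hJ0ne
  obtain ⟨h, hh, _⟩ := hst f0 (C.sub J0 hJ0 hf0)
  rw [mem_IS] at hh
  obtain ⟨hhH, hha⟩ := hh
  obtain ⟨J, hJ, k, hk, hJk⟩ := hH.sub h hhH
  have hka : C.c J k a = 0 := by rw [← hJk]; exact hha
  -- some coordinate of `a` is positive
  have hex : ∃ l ∈ J.erase k, 0 < C.c J l a := by
    by_contra hcon
    push Not at hcon
    apply hne
    refine C.ext hJ fun l hl => ?_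
    rw [map_zero]
    by_cases hlk : l = k
    · rw [hlk]; exact hka
    · exact le_antisymm (hcon l (Finset.mem_erase.2 ⟨hlk, hl⟩)) (ha J hJ l hl)
  obtain ⟨l, hl, hla⟩ := hex
  have hlJ := Finset.mem_of_mem_erase hl
  have hlk := Finset.ne_of_mem_erase hl
  obtain ⟨g, hg, hgl⟩ := hst l (C.sub J hJ hlJ)
  rw [mem_IS] at hg
  obtain ⟨hgH, hga⟩ := hg
  have hsum := A3_app C hJ g a
  rw [hga, ← Finset.add_sum_erase J _ hk, hka, zero_mul, zero_add, ← Finset.add_sum_erase (J.erase k) _ hl] at hsum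
  have hneg : ∑ i ∈ (J.erase k).erase l, C.c J i a * g (C.v i) < 0 := by
    have := mul_pos hla hgl
    omega
  have hex2 : ∃ m ∈ (J.erase k).erase l, C.c J m a * g (C.v m) < 0 := by
    by_contra hcon
    push Not at hcon
    have := Finset.sum_nonneg hcon
    omega
  obtain ⟨m, hm, hmn⟩ := hex2
  have hmK := Finset.mem_of_mem_erase hm
  have hmJ := Finset.mem_of_mem_erase hmK
  have hmk := Finset.ne_of_mem_erase hmK
  have hma : 0 < C.c J m a := by
    rcases (ha J hJ m hmJ).lt_or_eq with h1 | h1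
    · exact h1
    · rw [← h1, zero_mul] at hmn
      exact absurd hmn (lt_irrefl 0)
  obtain ⟨g', hg', hgm'⟩ := hst m (C.sub J hJ hmJ)
  rw [mem_IS] at hg'
  obtain ⟨hgH', hga'⟩ := hg'
  have hcard : J.card ≤ 3 := by rw [C.card J hJ]; exact hρ
  have hsp : ∀ (q : Λ →+ ℤ) (x : Λ), q x = C.c J k x * q (C.v k) + (C.c J l x * q (C.v l) + C.c J m x * q (C.v m)) := by
    intro q x
    rw [A3_app C hJ q x]
    exact A3_split hk hl hm hcard _
  have ea := hsp g a
  have ea' := hsp g' a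
  rw [hga, hka] at ea
  rw [hga', hka] at ea'
  have hhl : h (C.v l) = 0 := by rw [hJk]; exact C.other hJ hk hlJ hlk.symm
  have hhm : h (C.v m) = 0 := by rw [hJk]; exact C.other hJ hk hmJ hmk.symm
  obtain ⟨y, hy0, hy⟩ := hH.wit h hhH
  have hky : C.c J k y = 0 := by rw [← hJk]; exact hy0
  have hgy : 0 < g y := by
    obtain ⟨J', hJ', k', hk', e⟩ := hH.sub g hgH
    rw [e]
    refine hy J' hJ' k' hk' ?_
    rw [← e]
    intro e2
    rw [e2, hhl] at hgl
    exact lt_irrefl _ hgl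
  have hgy' : 0 < g' y := by
    obtain ⟨J', hJ', k', hk', e⟩ := hH.sub g' hgH'
    rw [e]
    refine hy J' hJ' k' hk' ?_
    rw [← e]
    intro e2
    rw [e2, hhm] at hgm'
    exact lt_irrefl _ hgm'
  have ey := hsp g y
  have ey' := hsp g' y
  rw [hky] at ey ey'
  obtain ⟨cl, hcl⟩ : ∃ cl, cl = C.c J l a := ⟨_, rfl⟩
  obtain ⟨cm, hcm⟩ : ∃ cm, cm = C.c J m a := ⟨_, rfl⟩
  obtain ⟨u, hu⟩ : ∃ u, u = C.c J l y := ⟨_, rfl⟩
  obtain ⟨u', hu'⟩ : ∃ u', u' = C.c J m y := ⟨_, rfl⟩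
  rw [← hcl] at ea ea' hla
  rw [← hcm] at ea ea' hma
  rw [← hu, ← hu'] at ey ey'
  have h1 : cm * g y = g (C.v l) * (cm * u - cl * u') := by
    rw [ey]
    linear_combination (-u') * ea
  have h2 : cl * g' y = g' (C.v m) * (cl * u' - cm * u) := by
    rw [ey']
    linear_combination (-u) * ea'
  have h3 : 0 < cm * u - cl * u' := by
    have := mul_pos hma hgy
    rw [h1] at this
    exact (pos_iff_pos_of_mul_pos this).1 hgl
  have h4 : 0 < cl * u' - cm * u := by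
    have := mul_pos hla hgy'
    rw [h2] at this
    exact (pos_iff_pos_of_mul_pos this).1 hgm'
  omega

end Pool.Agent.H19.P4
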