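import Pool.Agent.H19.P4.Defs

/-!
Module Ar (row P4AR).  Arithmetic of an edge.  Only Mathlib (integers).
`ar00`.  `th1 = I1 = 1`, `th2 = I2 = 1` (positive with product `1`).  `e3`: `X1 - 1 = sig (X1 Y1 - 1)`, so `sig ≥ 0`; `e4`: `1 - X2 = sig (X2 Y2 - 1)`, so `sig ≤ 0`.  So `sig = 0`, `X1 = X2 = 1`.
`ar01`.  `th1 = I1 = 1`.  `e3`: `th2 X1 - 1 = sig (X1 Y1 - 1)`, `sig ≥ 0`.  `e4` with `th2 I2 = 1 + X2`: `1 + X2 - X2 I2 = sig (X2 Y2 - 1)`.  If `sig = 0`: `th2 X1 = 1`: `th2 = X1 = 1`; `(1 - X2) I2 = 0`: `X2 = 1`; `I2 = 2`.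
  If `sig ≥ 1`: `1 - X2 (I2 - 1) ≥ sig (X2 Y2 - 1) ≥ 1`: `I2 = 1`, `sig (X2 Y2 - 1) = 1`: `sig = 1`, `X2 Y2 = 2`, `th2 = 1 + X2`; `e3`: `(1 + X2) X1 - 1 = X1 Y1 - 1`: `Y1 = 1 + X2`.
`ar11`.  `sig = 0`: `th2 X1 = th1`, `th2 = th1 X2`: `th1 = th1 X1 X2`: `X1 = X2 = 1`, `th1 = th2`, `th1 I1 = 2 = th2 I2`: `I1 = I2 ≤ 2`.
  `sig ≥ 1`: `e4`: `th2 - th1 X2 > 0` (the right side is positive), so `th2 ≥ th1 X2 + 1`, and `th2 ≤ th2 I2 = 1 + X2`: `th1 X2 ≤ X2`, `th1 = 1`, `th2 = 1 + X2`, `I2 = 1`, `I1 = 1 + X1`; `e4`: `1 = sig (X2 Y2 - 1)`: `sig = 1`, `X2 Y2 = 2`; `e3`: `((1 + X2) X1 - 1) (1 + X1) = X1 Y1 - 1`, so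
  `X1 Y1 = X1 ((1 + X1) (1 + X2) - 1)`, `Y1 + 1 = (1 + X1) (1 + X2)`.
  `sig ≤ -1`: the mirror case (exchange the indices `1, 2` and the sign of `sig`).
-/

set_option autoImplicit false
set_option linter.all false

namespace Pool.Agent.H19.P4

variable {ρ : ℕ} {ι Λ : Type} [DecidableEq ι] [AddCommGroup Λ]

section
omit [DecidableEq ι] [AddCommGroup Λ]

theorem Ar_one {a b : ℤ} (ha : 0 < a) (hb : 0 < b) (h : a * b = 1) : a = 1 ∧ b = 1 := by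
  have h1 : a ≤ 1 := by nlinarith
  have h2 : b ≤ 1 := by nlinarith
  exact ⟨by omega, by omega⟩

theorem Ar_pos {s P : ℤ} (hs : 1 ≤ s) (hP : 2 ≤ P) : 1 ≤ s * (P - 1) := by nlinarith

theorem Ar_neg {s P : ℤ} (hs : s ≤ -1) (hP : 2 ≤ P) : s * (P - 1) ≤ -1 := by nlinarith

theorem Ar_11 {X1 Y1 X2 Y2 I1 I2 th1 th2 sig : ℤ} (hX1 : 0 < X1) (hX2 : 0 < X2)
    (h2 : 2 ≤ X2 * Y2) (hI2 : 0 < I2)
    (ht1 : 0 < th1) (ht2 : 0 < th2) (e1 : th1 * I1 = 1 + X1) (e2 : th2 * I2 = 1 + X2)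
    (e3 : (th2 * X1 - th1) * I1 = sig * (X1 * Y1 - 1))
    (e4 : (th2 - th1 * X2) * I2 = sig * (X2 * Y2 - 1)) (hs : 1 ≤ sig) :
    sig = 1 ∧ I1 = 1 + X1 ∧ I2 = 1 ∧ X2 * Y2 = 2 ∧ Y1 + 1 = (1 + X1) * (1 + X2) := by
  have hp := Ar_pos hs h2
  rw [← e4] at hp
  have k1 : 1 ≤ th2 - th1 * X2 := by
    by_contra hc
    have hc' : th2 - th1 * X2 ≤ 0 := by omega
    nlinarith
  have k2 : th2 ≤ 1 + X2 := by nlinarith
  have k3 : th1 * X2 ≤ X2 := by linarith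
  have k4 : th1 ≤ 1 := by
    by_contra hc
    have hc' : 2 ≤ th1 := by omega
    nlinarith
  have k5 : th1 = 1 := by omega
  subst k5
  have k6 : th2 = 1 + X2 := by linarith
  subst k6
  have k7 : I2 = 1 := by
    have : (1 + X2) * I2 = (1 + X2) * 1 := by linarith
    exact mul_left_cancel₀ (by omega) this
  subst k7
  have k8 : sig * (X2 * Y2 - 1) = 1 := by linarith
  obtain ⟨k9, k10⟩ := Ar_one (by omega) (by omega) k8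
  subst k9
  have k11 : I1 = 1 + X1 := by linarith
  subst k11
  refine ⟨rfl, rfl, rfl, by linarith, ?_⟩
  have k12 : X1 * (Y1 + 1) = X1 * ((1 + X1) * (1 + X2)) := by linarith
  exact mul_left_cancel₀ (by omega) k12

theorem ar00 {X1 Y1 X2 Y2 I1 I2 th1 th2 sig : ℤ} (hX1 : 0 < X1) (hY1 : 0 < Y1) (hX2 : 0 < X2)
    (hY2 : 0 < Y2) (h1 : 2 ≤ X1 * Y1) (h2 : 2 ≤ X2 * Y2) (hI1 : 0 < I1) (hI2 : 0 < I2)
    (ht1 : 0 < th1) (ht2 : 0 < th2) (e1 : th1 * I1 = 1) (e2 : th2 * I2 = 1)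
    (e3 : (th2 * X1 - th1) * I1 = sig * (X1 * Y1 - 1))
    (e4 : (th2 - th1 * X2) * I2 = sig * (X2 * Y2 - 1)) :
    th1 = 1 ∧ th2 = 1 ∧ I1 = 1 ∧ I2 = 1 ∧ sig = 0 ∧ X1 = 1 ∧ X2 = 1 := by
  obtain ⟨rfl, rfl⟩ := Ar_one ht1 hI1 e1
  obtain ⟨rfl, rfl⟩ := Ar_one ht2 hI2 e2
  have hs : sig = 0 := by
    rcases lt_trichotomy sig 0 with h | h | h
    · have := Ar_neg (s := sig) (P := X1 * Y1) (by omega) h1
      exfalso
      linarith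
    · exact h
    · have := Ar_pos (s := sig) (P := X2 * Y2) (by omega) h2
      exfalso
      linarith
  subst hs
  exact ⟨rfl, rfl, rfl, rfl, rfl, by linarith, by linarith⟩

theorem ar01 {X1 Y1 X2 Y2 I1 I2 th1 th2 sig : ℤ} (hX1 : 0 < X1) (hY1 : 0 < Y1) (hX2 : 0 < X2)
    (hY2 : 0 < Y2) (h1 : 2 ≤ X1 * Y1) (h2 : 2 ≤ X2 * Y2) (hI1 : 0 < I1) (hI2 : 0 < I2)
    (ht1 : 0 < th1) (ht2 : 0 < th2) (e1 : th1 * I1 = 1) (e2 : th2 * I2 = 1 + X2)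
    (e3 : (th2 * X1 - th1) * I1 = sig * (X1 * Y1 - 1))
    (e4 : (th2 - th1 * X2) * I2 = sig * (X2 * Y2 - 1)) :
    th1 = 1 ∧ I1 = 1 ∧
      ((sig = 1 ∧ I2 = 1 ∧ X2 * Y2 = 2 ∧ Y1 = 1 + X2 ∧ th2 = 1 + X2) ∨
        (sig = 0 ∧ I2 = 2 ∧ X1 = 1 ∧ X2 = 1 ∧ th2 = 1)) := by
  obtain ⟨rfl, rfl⟩ := Ar_one ht1 hI1 e1
  refine ⟨rfl, rfl, ?_⟩
  have hq : 1 ≤ th2 * X1 := by nlinarith
  have hs0 : 0 ≤ sig := by
    by_contra hc
    have := Ar_neg (s := sig) (P := X1 * Y1) (by omega) h1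
    linarith
  have e4' : 1 + X2 - X2 * I2 = sig * (X2 * Y2 - 1) := by linarith
  rcases eq_or_lt_of_le hs0 with hs | hs
  · subst hs
    right
    have k1 : th2 * X1 = 1 := by linarith
    obtain ⟨rfl, rfl⟩ := Ar_one ht2 hX1 k1
    have k2 : I2 = 1 + X2 := by linarith
    subst k2
    have k3 : X2 * X2 = 1 := by linarith
    obtain ⟨rfl, -⟩ := Ar_one hX2 hX2 k3
    exact ⟨rfl, by norm_num, rfl, rfl, rfl⟩
  · left
    have k1 := Ar_pos (s := sig) (P := X2 * Y2) (by omega) h2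
    rw [← e4'] at k1
    have k2 : I2 ≤ 1 := by
      by_contra hc
      have hc' : 2 ≤ I2 := by omega
      nlinarith
    have k3 : I2 = 1 := by omega
    subst k3
    have k4 : sig * (X2 * Y2 - 1) = 1 := by linarith
    obtain ⟨k5, k6⟩ := Ar_one (by omega) (by omega) k4
    subst k5
    have k7 : th2 = 1 + X2 := by linarith
    subst k7
    have k8 : X1 * Y1 = X1 * (1 + X2) := by linarith
    exact ⟨rfl, rfl, by linarith, mul_left_cancel₀ (by omega) k8, rfl⟩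

theorem ar11 {X1 Y1 X2 Y2 I1 I2 th1 th2 sig : ℤ} (hX1 : 0 < X1) (hY1 : 0 < Y1) (hX2 : 0 < X2)
    (hY2 : 0 < Y2) (h1 : 2 ≤ X1 * Y1) (h2 : 2 ≤ X2 * Y2) (hI1 : 0 < I1) (hI2 : 0 < I2)
    (ht1 : 0 < th1) (ht2 : 0 < th2) (e1 : th1 * I1 = 1 + X1) (e2 : th2 * I2 = 1 + X2)
    (e3 : (th2 * X1 - th1) * I1 = sig * (X1 * Y1 - 1))
    (e4 : (th2 - th1 * X2) * I2 = sig * (X2 * Y2 - 1)) :
    (sig = 0 ∧ X1 = 1 ∧ X2 = 1 ∧ I1 = I2 ∧ I1 ≤ 2) ∨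
      (sig = 1 ∧ I1 = 1 + X1 ∧ I2 = 1 ∧ X2 * Y2 = 2 ∧ Y1 + 1 = (1 + X1) * (1 + X2)) ∨
      (sig = -1 ∧ I2 = 1 + X2 ∧ I1 = 1 ∧ X1 * Y1 = 2 ∧ Y2 + 1 = (1 + X1) * (1 + X2)) := by
  rcases lt_trichotomy sig 0 with hs | hs | hs
  · right; right
    have f3 : (th1 * X2 - th2) * I2 = (-sig) * (X2 * Y2 - 1) := by linarith
    have f4 : (th1 - th2 * X1) * I1 = (-sig) * (X1 * Y1 - 1) := by linarith
    obtain ⟨g1, g2, g3, g4, g5⟩ := Ar_11 hX2 hX1 h1 hI1 ht2 ht1 e2 e1 f3 f4 (by omega)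
    exact ⟨by omega, g2, g3, g4, by linarith⟩
  · subst hs
    left
    have k1 : (th2 * X1 - th1) * I1 = 0 := by linarith
    have k2 : (th2 - th1 * X2) * I2 = 0 := by linarith
    have k3 : th2 * X1 - th1 = 0 := by
      rcases mul_eq_zero.1 k1 with h | h
      · exact h
      · omega
    have k4 : th2 - th1 * X2 = 0 := by
      rcases mul_eq_zero.1 k2 with h | h
      · exact h
      · omega
    have k5 : th2 = th1 * X2 := by linarith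
    subst k5
    have k6 : th1 * (X2 * X1) = th1 * 1 := by linarith
    have k7 := mul_left_cancel₀ (by omega) k6
    obtain ⟨rfl, rfl⟩ := Ar_one hX2 hX1 k7
    have k8 : th1 * I1 = th1 * I2 := by linarith
    refine ⟨rfl, rfl, rfl, mul_left_cancel₀ (by omega) k8, ?_⟩
    nlinarith
  · right; left
    exact Ar_11 hX1 hX2 h2 hI2 ht1 ht2 e1 e2 e3 e4 (by omega)

end

end Pool.Agent.H19.P4
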