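import Pool.Agent.H19.P4.Defs

/-!
Basic facts on configurations (project MP_a35d42_P4), all proved.
-/

set_option autoImplicit false
set_option linter.all false

namespace Pool.Agent.H19.P4

variable {ρ : ℕ} {ι Λ : Type} [DecidableEq ι] [AddCommGroup Λ]

namespace Cf

variable (C : Cf ρ ι Λ)

theorem self {J : Finset ι} (hJ : J ∈ C.B) {k : ι} (hk : k ∈ J) : C.c J k (C.v k) = 1 := by
  rw [C.dual J hJ k hk k hk, if_pos rfl]

theorem other {J : Finset ι} (hJ : J ∈ C.B) {k l : ι} (hk : k ∈ J) (hl : l ∈ J) (h : k ≠ l) :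
    C.c J k (C.v l) = 0 := by
  rw [C.dual J hJ k hk l hl, if_neg h]

theorem coord {J : Finset ι} (hJ : J ∈ C.B) {r : ι → ℤ} {k : ι} (hk : k ∈ J) :
    C.c J k (∑ l ∈ J, r l • C.v l) = r k := by
  rw [map_sum, Finset.sum_eq_single k]
  · rw [map_zsmul, C.self hJ hk]
    simp
  · intro l hl hlk
    rw [map_zsmul, C.other hJ hk hl hlk.symm, smul_zero]
  · intro h
    exact absurd hk h

theorem ext {J : Finset ι} (hJ : J ∈ C.B) {x y : Λ} (h : ∀ k ∈ J, C.c J k x = C.c J k y) :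
    x = y := by
  rw [← C.exp J hJ x, ← C.exp J hJ y]
  exact Finset.sum_congr rfl fun k hk => by rw [h k hk]

theorem uniq {J : Finset ι} (hJ : J ∈ C.B) {r s : ι → ℤ}
    (h : ∑ l ∈ J, r l • C.v l = ∑ l ∈ J, s l • C.v l) {k : ι} (hk : k ∈ J) : r k = s k := by
  rw [← C.coord hJ (r := r) hk, h, C.coord hJ hk]

include C in
theorem tf {n : ℤ} {x : Λ} (hn : n ≠ 0) (h : n • x = 0) : x = 0 := by
  obtain ⟨J, hJ⟩ := C.ne
  apply C.ext hJ
  intro k hk
  have h1 : C.c J k (n • x) = 0 := by rw [h, map_zero]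
  rw [map_zsmul, smul_eq_mul] at h1
  rw [map_zero]
  exact (mul_eq_zero.1 h1).resolve_left hn

include C in
theorem tf' {n : ℤ} {x y : Λ} (hn : n ≠ 0) (h : n • x = n • y) : x = y := by
  have h1 : n • (x - y) = 0 := by rw [smul_sub, h, sub_self]
  exact sub_eq_zero.1 (C.tf hn h1)

include C in
theorem smul_eq {m n : ℤ} {x : Λ} (hx : x ≠ 0) (h : m • x = n • x) : m = n := by
  by_contra hne
  have h1 : (m - n) • x = 0 := by rw [sub_smul, h, sub_self]
  exact hx (C.tf (sub_ne_zero.2 hne) h1)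

theorem amp_w : C.Amp C.w := C.pos

variable {C} in
theorem Amp.nef {x : Λ} (h : C.Amp x) : C.Nef x := fun J hJ k hk => (h J hJ k hk).le

variable {C} in
theorem Nef.add {x y : Λ} (hx : C.Nef x) (hy : C.Nef y) : C.Nef (x + y) := fun J hJ k hk => by
  rw [map_add]
  exact add_nonneg (hx J hJ k hk) (hy J hJ k hk)

variable {C} in
theorem Nef.smul {x : Λ} (hx : C.Nef x) {n : ℤ} (hn : 0 ≤ n) : C.Nef (n • x) :=
  fun J hJ k hk => by
    rw [map_zsmul, smul_eq_mul]
    exact mul_nonneg hn (hx J hJ k hk)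

variable {C} in
theorem Nef.add_amp {x y : Λ} (hx : C.Nef x) (hy : C.Amp y) : C.Amp (x + y) := fun J hJ k hk => by
  rw [map_add]
  exact add_pos_of_nonneg_of_pos (hx J hJ k hk) (hy J hJ k hk)

variable {C} in
theorem Amp.smul {x : Λ} (hx : C.Amp x) {n : ℤ} (hn : 0 < n) : C.Amp (n • x) :=
  fun J hJ k hk => by
    rw [map_zsmul, smul_eq_mul]
    exact mul_pos hn (hx J hJ k hk)

theorem nef_of_smul {x : Λ} {n : ℤ} (hn : 0 < n) (h : C.Nef (n • x)) : C.Nef x :=
  fun J hJ k hk => by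
    have := h J hJ k hk
    rw [map_zsmul, smul_eq_mul] at this
    exact nonneg_of_mul_nonneg_right this hn

theorem nef_zero : C.Nef 0 := fun J hJ k hk => by rw [map_zero]

section piv

variable {J : Finset ι} {f k : ι}

theorem piv_coord (hJ : J ∈ C.B) (hf : f ∉ J) (hk : k ∈ J)
    (hJ' : insert f (J.erase k) ∈ C.B) (l : ι) (hl : l ∈ J) (x : Λ) :
    C.c J l x = C.c (insert f (J.erase k)) f x * C.c J l (C.v f) +
      if l = k then 0 else C.c (insert f (J.erase k)) l x := by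
  have hfe : f ∉ J.erase k := fun h => hf (Finset.mem_of_mem_erase h)
  have h1 := C.exp _ hJ' x
  rw [Finset.sum_insert hfe] at h1
  conv_lhs => rw [← h1]
  rw [map_add, map_zsmul, smul_eq_mul, map_sum]
  congr 1
  by_cases hlk : l = k
  · rw [if_pos hlk]
    refine Finset.sum_eq_zero fun m hm => ?_
    rw [map_zsmul, C.other hJ hl (Finset.mem_of_mem_erase hm), smul_zero]
    rw [hlk]
    exact (Finset.ne_of_mem_erase hm).symm
  · rw [if_neg hlk, Finset.sum_eq_single l]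
    · rw [map_zsmul, C.self hJ hl, smul_eq_mul, mul_one]
    · intro m hm hml
      rw [map_zsmul, C.other hJ hl (Finset.mem_of_mem_erase hm) hml.symm, smul_zero]
    · intro h
      exact absurd (Finset.mem_erase.2 ⟨hlk, hl⟩) h

theorem piv_one (hJ : J ∈ C.B) (hf : f ∉ J) (hk : k ∈ J) (hJ' : insert f (J.erase k) ∈ C.B) :
    C.c J k (C.v f) = 1 := by
  have h1 := C.piv_coord hJ hf hk hJ' k hk (C.v k)
  have h2 := C.piv_coord hJ hf hk hJ' k hk C.w
  rw [if_pos rfl, add_zero] at h1 h2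
  rw [C.self hJ hk] at h1
  have h3 := C.pos J hJ k hk
  have h4 := C.pos _ hJ' f (Finset.mem_insert_self _ _)
  have h5 : 0 < C.c J k (C.v f) := by
    by_contra hcon
    push Not at hcon
    have := mul_nonpos_of_nonneg_of_nonpos h4.le hcon
    omega
  have h6 : C.c J k (C.v f) ∣ 1 := ⟨_, by rw [mul_comm]; exact h1⟩
  rcases Int.isUnit_iff.1 (isUnit_of_dvd_one h6) with h | h
  · exact h
  · omega

theorem piv_new (hJ : J ∈ C.B) (hf : f ∉ J) (hk : k ∈ J) (hJ' : insert f (J.erase k) ∈ C.B)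
    (x : Λ) : C.c (insert f (J.erase k)) f x = C.c J k x := by
  have h1 := C.piv_coord hJ hf hk hJ' k hk x
  rw [if_pos rfl, add_zero, C.piv_one hJ hf hk hJ', mul_one] at h1
  exact h1.symm

theorem piv_old (hJ : J ∈ C.B) (hf : f ∉ J) (hk : k ∈ J) (hJ' : insert f (J.erase k) ∈ C.B)
    {l : ι} (hl : l ∈ J) (hlk : l ≠ k) (x : Λ) :
    C.c (insert f (J.erase k)) l x = C.c J l x - C.c J l (C.v f) * C.c J k x := by
  have h1 := C.piv_coord hJ hf hk hJ' l hl x
  rw [if_neg hlk, C.piv_new hJ hf hk hJ'] at h1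
  rw [h1]
  ring

end piv

end Cf

end Pool.Agent.H19.P4
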