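import Pool.Agent.H19.P4.Ty1

/-!
Module Ty (row P4TY).  Types of vectors on a facet.  Use Bas, `Fct.le_one`, `pos4`, `dep_ker4`, `cp4b`.  (`b : Bd C H a`, `k : Nb H a h n o`; `k.hn : Aj H a h n`, membership `k.hn.1 : h ∈ IS H a`, `k.hn.2.1 : n ∈ IS H a`, `k.ho.2.1 : o ∈ IS H a`; `mem_IS`.)
`ker3`.  `h = c J k0` (`b.fct.sub`).  `x1` from `k.hn`: `h x1 = n x1 = 0`, `o x1 > 0` (`o ≠ h, n`); `x2` from `k.ho`: `h x2 = o x2 = 0`, `n x2 > 0`.  `dep_ker4` for `a, x, x1, x2`: `r1 a + r2 x + r3 x1 + r4 x2 = 0`, not all zero.  Apply `n`: `r4 = 0`; apply `o`: `r3 = 0`.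
  `r2 ≠ 0` (else `r1 a = 0`, `r1 = 0` by `C.tf`).  Write `r1 = g u`, `r2 = g u'` with `g = gcd > 0`, `u, u'` coprime; `C.tf`: `u a + u' x = 0`.  Bezout `s u + t u' = 1`: `a = s u a + t u' a = - s u' x + t u' a = u' (t a - s x)`: `u' = 1` or `-1` by `b.prim`.  So `x = ∓ u a`.
`ty_N`.  `n (v f), o (v f) ≤ 1` by `Fct.le_one`.  If both are `≤ 0`: every `g ∈ IS H a` has `g (v f) ≤ 0` (`g = h`: `0`; `g = n, o`; other `g`: `k.comb`), contradiction to `b.stuck f`.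
`ty_xy`.  Otherwise `x y ≤ 1`, so `x = y = 1`: `v α + v β` is killed by `h, n, o`; `ker3`: `= s a`; `α ≠ β` (`n` differs); `b.nop` with `l = m = 1`.
`ty_ex`.  `h = c J k0`, `K = J.erase k0 = {l1, l2, l3}` (card 3: `Finset.card_eq_three`), `a = c1 v l1 + c2 v l2 + c3 v l3`, `ci ≥ 0`.  All `ci > 0`: if `c3 = 0` (say): `a = c1 v l1 + c2 v l2`; both positive: `b.nop`; if also `c2 = 0`: `a = c1 v l1`, `c1 ≠ 0`, `b.stuck l1` gives `g a ≠ 0`, contradiction
  (both zero: `a = 0`).  By `ty_N` each `v li` has type `(p, q)` with `p, q ≤ 1` and `p = 1` or `q = 1`.  `c1 p1 + c2 p2 + c3 p3 = 0`: some `p < 0`, unless all `pi = 0`; but then `n` vanishes on `K`, so on `ker h` (`C.exp`), contradiction to `x2` above (`h x2 = 0`, `n x2 > 0`).  That element is `β`: type `(-x, 1)`.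
  In the same way some `q < 0`: `α`: type `(1, -y)`.  The third element `δ` has type `(p, q)`: if `p < 0` then `q = 1`, `δ` is of type `(-x', 1)` and `c_α = c_β x + c_δ x'`, `c_α y = c_β + c_δ`, so `c_α y ≤ c_α`..., precisely `c_β + c_δ = y c_α = y (x c_β + x' c_δ) ≥ 2 c_β + 2 c_δ` (`ty_xy` for both), contradiction.
  In the same way `q < 0` is impossible.  So `p, q ≥ 0`.
`ty_rel`.  The left side is killed by `h, n, o`, so `= s a` by `ker3`; `s > 0` by `pos4` (`x q + p > 0` because `p = 1` or `q = 1` by `ty_N` at `δ`, `x ≥ 1`; similarly `y p + q > 0`; `x y - 1 > 0`).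
`ty_ind`.  `Ind4 C α β δ f`: apply `h`: `c4 = 0` (`h (v f) > 0`); apply `n, o`: `c1 - x c2 + p c3 = 0`, `- y c1 + c2 + q c3 = 0`, so `(c1, c2, c3)` times `(x y - 1)` is `c3` times `(x q + p, y p + q, x y - 1)` : `(x y - 1) • relation = c3 • (s a)`, so `c3 s a = 0`, `c3 = 0`; then `c1 = x c2`, `c2 = y c1`, `(x y - 1) c1 = 0`.
`ty_B`.  `cp4b` with `h`, `ty_rel`, `ty_ind`.
-/

set_option autoImplicit false
set_option linter.all false

namespace Pool.Agent.H19.P4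

variable {ι Λ : Type} [DecidableEq ι] [AddCommGroup Λ] {C : Cf 4 ι Λ} {H : Finset (Λ →+ ℤ)} {a : Λ}

variable {h n o : Λ →+ ℤ}

theorem ty_rel (b : Bd C H a) (k : Nb H a h n o) {α β δ : ι} {x y p q : ℤ}
    (hα : Tp C h n o α 1 (-y)) (hβ : Tp C h n o β (-x) 1) (hδ : Tp C h n o δ p q) (hx : 0 < x)
    (hy : 0 < y) (hp : 0 ≤ p) (hq : 0 ≤ q) :
    ∃ s : ℤ, 0 < s ∧ 0 < x * q + p ∧ 0 < y * p + q ∧ 0 < x * y - 1 ∧
      s • a = (x * q + p) • C.v α + (y * p + q) • C.v β + (x * y - 1) • C.v δ := by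
  have hN := ty_N b k hδ.mem hδ.h0
  rw [hδ.hn, hδ.ho] at hN
  have hxy := ty_xy b k hα hβ hx hy
  have h1 : 0 < x * q + p := by
    rcases hN.2.2 with h | h
    · have := mul_nonneg hx.le hq
      omega
    · rw [h]
      omega
  have h2 : 0 < y * p + q := by
    rcases hN.2.2 with h | h
    · rw [h]
      omega
    · have := mul_nonneg hy.le hp
      omega
  have h3 : 0 < x * y - 1 := by omega
  obtain ⟨z, hz⟩ : ∃ z, z = (x * q + p) • C.v α + (y * p + q) • C.v β + (x * y - 1) • C.v δ := ⟨_, rfl⟩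
  have e1 : h z = 0 := by
    rw [hz]
    simp only [map_add, map_zsmul, smul_eq_mul, hα.h0, hβ.h0, hδ.h0, mul_zero, add_zero]
  have e2 : n z = 0 := by
    rw [hz]
    simp only [map_add, map_zsmul, smul_eq_mul, hα.hn, hβ.hn, hδ.hn]
    ring
  have e3 : o z = 0 := by
    rw [hz]
    simp only [map_add, map_zsmul, smul_eq_mul, hα.ho, hβ.ho, hδ.ho]
    ring
  obtain ⟨s, hs⟩ := ker3 b k e1 e2 e3
  have hs' : s • a = (x * q + p) • C.v α + (y * p + q) • C.v β + (x * y - 1) • C.v δ := by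
    rw [← hz, ← hs]
  refine ⟨s, ?_, h1, h2, h3, hs'⟩
  apply pos4 C b.nef hα.mem hβ.mem hδ.mem hδ.mem (r1 := x * q + p) (r2 := y * p + q) (r3 := x * y - 1)
    (r4 := 0) h1 h2.le h3.le le_rfl
  rw [hs', zero_smul, add_zero]

theorem ty_ind (b : Bd C H a) (k : Nb H a h n o) {α β δ f : ι} {x y p q : ℤ}
    (hα : Tp C h n o α 1 (-y)) (hβ : Tp C h n o β (-x) 1) (hδ : Tp C h n o δ p q) (hx : 0 < x)
    (hy : 0 < y) (hp : 0 ≤ p) (hq : 0 ≤ q) (hfh : 0 < h (C.v f)) : Ind4 C α β δ f := by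
  intro c1 c2 c3 c4 hc
  obtain ⟨s, hs, h1, h2, h3, hrel⟩ := ty_rel b k hα hβ hδ hx hy hp hq
  have h4 : c4 = 0 := by
    have e := congrArg h hc
    simp only [map_add, map_zsmul, smul_eq_mul, hα.h0, hβ.h0, hδ.h0, mul_zero, zero_add, map_zero] at e
    exact (mul_eq_zero.1 e).resolve_right hfh.ne'
  subst h4
  rw [zero_smul, add_zero] at hc
  have e1 : c1 - x * c2 + p * c3 = 0 := by
    have e := congrArg n hc
    simp only [map_add, map_zsmul, smul_eq_mul, hα.hn, hβ.hn, hδ.hn, map_zero] at e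
    linear_combination e
  have e2 : -(y * c1) + c2 + q * c3 = 0 := by
    have e := congrArg o hc
    simp only [map_add, map_zsmul, smul_eq_mul, hα.ho, hβ.ho, hδ.ho, map_zero] at e
    linear_combination e
  have f1 : (x * y - 1) * c1 = c3 * (x * q + p) := by linear_combination (-1 : ℤ) * e1 - x * e2
  have f2 : (x * y - 1) * c2 = c3 * (y * p + q) := by linear_combination (-y) * e1 - e2
  have f3 : c3 = 0 := by
    have e3 : (x * y - 1) • (c1 • C.v α + c2 • C.v β + c3 • C.v δ) = (c3 * s) • a := by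
      rw [mul_smul, hrel]
      simp only [smul_add, smul_smul]
      rw [f1, f2, mul_comm (x * y - 1) c3]
    rw [hc, smul_zero] at e3
    by_contra hne
    exact b.ne (C.tf (mul_ne_zero hne hs.ne') e3.symm)
  subst f3
  rw [zero_mul] at f1 f2
  refine ⟨(mul_eq_zero.1 f1).resolve_left h3.ne', (mul_eq_zero.1 f2).resolve_left h3.ne', rfl, rfl⟩

theorem ty_B (b : Bd C H a) (k : Nb H a h n o) {α β δ f : ι} {x y p q : ℤ}
    (hα : Tp C h n o α 1 (-y)) (hβ : Tp C h n o β (-x) 1) (hδ : Tp C h n o δ p q) (hx : 0 < x)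
    (hy : 0 < y) (hp : 0 ≤ p) (hq : 0 ≤ q) (hf : f ∈ C.F) (hfh : 0 < h (C.v f)) :
    ({α, β, δ, f} : Finset ι) ∈ C.B := by
  obtain ⟨s, hs, h1, h2, h3, hrel⟩ := ty_rel b k hα hβ hδ hx hy hp hq
  obtain ⟨J, hJ, k0, hk0, hJk⟩ := b.fct.sub h (mem_IS.1 k.hn.1).1
  exact cp4b C b.nef hα.mem hβ.mem hδ.mem hf (ty_ind b k hα hβ hδ hx hy hp hq hfh)
    (h := h) (by rw [hJk]; exact C.pos J hJ k0 hk0) hα.h0 hβ.h0 hδ.h0 hfh hs h1 h2 h3 hrel

end Pool.Agent.H19.P4
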