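import Pool.Agent.H19.P4.Frm2
import Pool.Agent.H19.P4.Ty3

/-!
Module Dt (row P4DT).  The determinants.  Use Bas, `ker3`, `ty_rel`, `ty_ind`, `ty_B`, `bs4`, `cp4a`, `fr_uniq`, `ty_N`, `ty_xy`, `Fr.gen`, `pos4`.
Notation: `P := {x : h x = n x = 0}`, `[s1 a + t1 z, s2 a + t2 z] := s1 t2 - s2 t1`.
`dt_ex`.  There is `f ∈ F` with `h (v f) = 1`: `h = c J k0`, `f := k0`.
`dt1`.  `W := v δ - v α` has `h W = 0`, `n W = 0`: `W = s3 a + t3 z` (`F.gen`).  Let `f ∈ F` with `h (v f) > 0` (`dt_ex`).  By `ty_B` and `bs4` every `x'` is `c1 v α + c2 v β + c3 v δ + c4 v f`.  For `x' ∈ P`: `c4 = 0` (apply `h`), `c1 - x c2 + c3 = 0` (apply `n`), so `x' = c2 U + c3 W`, `U := x v α + v β = s1 a + t1 z`.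
  Apply this to `x' = a` and `x' = z`: `a = u1 U + u2 W`, `z = u1' U + u2' W`; with `fr_uniq`: the integer matrices `((s1, t1), (s3, t3))` and `((u1, u2), (u1', u2'))` are inverse to each other, so `(s1 t3 - s3 t1) * (u1 u2' - u2 u1') = 1` and `s1 t3 - s3 t1 = 1` or `-1`.
  Sign: `ty_rel` (`p = 1`): `s a = (x q + 1) v α + (y + q) v β + (x y - 1) v δ` (killed by `n`, so `(x q + 1) - x (y + q) + (x y - 1) = 0`) `= (y + q) U + (x y - 1) W`, `s > 0`.  `fr_uniq`: `0 = (y + q) t1 + (x y - 1) t3`, `s = (y + q) s1 + (x y - 1) s3`.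
  So `s t3 = (y + q) s1 t3 + (x y - 1) s3 t3 = (y + q) (s1 t3 - s3 t1)`.  `t3 > 0`: `o W = q + y > 0` and `o W = t3 * o z`, `o z > 0` (`F.pos`).  Hence `s1 t3 - s3 t1 > 0`, `= 1`.  Finally `x v δ + v β = U + x W`: `s2 = s1 + x s3`, `t2 = t1 + x t3` (`fr_uniq`), `s1 t2 - s2 t1 = x (s1 t3 - s3 t1) = x`.
`dt1e`.  The same with `δ := e` of type `(0, 1)`: elements of `P` are `c1 v α + c2 v β + c3 v e` with `c1 = x c2`: `c2 U + c3 v e`; sign: `ty_rel` (`p = 0, q = 1`): `s a = x v α + v β + (x y - 1) v e = U + (x y - 1) v e`: `0 = t1 + (x y - 1) t2`, `s = s1 + (x y - 1) s2`, `s t2 = s1 t2 - s2 t1`; `t2 > 0` as `o (v e) = 1 = t2 * o z`.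
`dt2`.  `U := x1 v α1 + v β1 = s1 a + t1 z`, `V := x2 v δ2 + v β2 = s2 a + t2 z`.  `g1 U = 1 - x1 y1 < 0` (`ty_xy`) `= t1 * g1 z`: `t1 < 0`; `g2 V = x2 q2 + 1 > 0`: `t2 > 0`.  `D := s1 t2 - s2 t1`: `t2 U - t1 V = D a`, i.e. `(t2 x1) v α1 + t2 v β1 + (-t1 x2) v δ2 + (-t1) v β2 = D a`, all coefficients positive, so `D > 0` (`pos4`).
  `Ind4 C α1 β1 δ2 β2`: relation `c1, .., c4`; apply `h2` (`= 1, -x1, 0, 0`): `c1 = x1 c2`; apply `h1` (`= 0, 0, 1, -x2`): `c3 = x2 c4`; so `c2 U + c4 V = 0`, `fr_uniq`: `c2 s1 + c4 s2 = 0`, `c2 t1 + c4 t2 = 0`, determinant `D ≠ 0`: `c2 = c4 = 0`.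
  `cp4a` (`M := D`): `{α1, β1, δ2, β2} ∈ B`; `bs4` for `a` and `z`: elements killed by `h1, h2` are `c2 U + c4 V`: as in `dt1` `D = 1` or `-1`, so `D = 1`.
-/

set_option autoImplicit false
set_option linter.all false

namespace Pool.Agent.H19.P4

variable {ι Λ : Type} [DecidableEq ι] [AddCommGroup Λ] {C : Cf 4 ι Λ} {H : Finset (Λ →+ ℤ)} {a : Λ}

variable {h n o h1 h2 g1 g2 : Λ →+ ℤ} {z : Λ}

theorem dt2 (b : Bd C H a) (k1 : Nb H a h1 h2 g1) (k2 : Nb H a h2 h1 g2) (F : Fr H a h1 h2 z)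
    {α1 β1 δ2 β2 : ι} {x1 y1 x2 q2 : ℤ} (hα1 : Tp C h1 h2 g1 α1 1 (-y1))
    (hβ1 : Tp C h1 h2 g1 β1 (-x1) 1) (hδ2 : Tp C h2 h1 g2 δ2 1 q2)
    (hβ2 : Tp C h2 h1 g2 β2 (-x2) 1) (hx1 : 0 < x1) (hy1 : 0 < y1) (hx2 : 0 < x2) (hq2 : 0 ≤ q2)
    {s1 t1 s2 t2 : ℤ} (e1 : x1 • C.v α1 + C.v β1 = s1 • a + t1 • z)
    (e2 : x2 • C.v δ2 + C.v β2 = s2 • a + t2 • z) : s1 * t2 - s2 * t1 = 1 := by
  have ha1 : h1 a = 0 := (mem_IS.1 k1.hn.1).2
  have ha2 : h2 a = 0 := (mem_IS.1 k1.hn.2.1).2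
  have hag1 : g1 a = 0 := (mem_IS.1 k1.ho.2.1).2
  have hag2 : g2 a = 0 := (mem_IS.1 k2.ho.2.1).2
  have hg1 : 0 < g1 z := F.pos g1 k1.ho.2.1 k1.ho.2.2.1.symm k1.ne.symm
  have hg2 : 0 < g2 z := F.pos g2 k2.ho.2.1 k2.ne.symm k2.ho.2.2.1.symm
  have hxy := ty_xy b k1 hα1 hβ1 hx1 hy1
  have ht1 : t1 < 0 := by
    have h := congrArg g1 e1
    simp only [map_add, map_zsmul, smul_eq_mul, hα1.ho, hβ1.ho, hag1, mul_zero, zero_add] at h
    by_contra hc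
    push Not at hc
    have h' := mul_nonneg hc hg1.le
    nlinarith
  have ht2 : 0 < t2 := by
    have h := congrArg g2 e2
    simp only [map_add, map_zsmul, smul_eq_mul, hδ2.ho, hβ2.ho, hag2, mul_zero, zero_add] at h
    by_contra hc
    push Not at hc
    have h' := mul_nonneg (neg_nonneg.2 hc) hg2.le
    have h'' := mul_nonneg hx2.le hq2
    nlinarith
  have hD : s1 * t2 - s2 * t1 = s1 * t2 - s2 * t1 := rfl
  generalize hDD : s1 * t2 - s2 * t1 = D at hD ⊢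
  clear hD
  have hrel : (t2 * x1) • C.v α1 + t2 • C.v β1 + (-t1 * x2) • C.v δ2 + (-t1) • C.v β2 = D • a := by
    have h : t2 • (x1 • C.v α1 + C.v β1) + (-t1) • (x2 • C.v δ2 + C.v β2) =
        t2 • (s1 • a + t1 • z) + (-t1) • (s2 • a + t2 • z) := by rw [e1, e2]
    rw [← hDD]
    calc _ = t2 • (x1 • C.v α1 + C.v β1) + (-t1) • (x2 • C.v δ2 + C.v β2) := by module
      _ = _ := h
      _ = _ := by module
  have hDpos : 0 < D := pos4 C b.nef hα1.mem hβ1.mem hδ2.mem hβ2.mem (mul_pos ht2 hx1) ht2.le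
    (mul_nonneg (neg_nonneg.2 ht1.le) hx2.le) (neg_nonneg.2 ht1.le) hrel
  -- elements killed by `h1` and `h2`
  have key : ∀ c1 c2 c3 c4 : ℤ, ∀ u w : ℤ,
      u • a + w • z = c1 • C.v α1 + c2 • C.v β1 + c3 • C.v δ2 + c4 • C.v β2 →
      c1 = x1 * c2 ∧ c3 = x2 * c4 ∧ u = c2 * s1 + c4 * s2 ∧ w = c2 * t1 + c4 * t2 := by
    intro c1 c2 c3 c4 u w h
    have i1 := congrArg h1 h
    have i2 := congrArg h2 h
    simp only [map_add, map_zsmul, smul_eq_mul, hα1.h0, hβ1.h0, hδ2.hn, hβ2.hn, ha1, F.z1,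
      mul_zero, zero_add, add_zero] at i1
    simp only [map_add, map_zsmul, smul_eq_mul, hα1.hn, hβ1.hn, hδ2.h0, hβ2.h0, ha2, F.z2,
      mul_zero, zero_add, add_zero] at i2
    have j1 : c1 = x1 * c2 := by linarith
    have j3 : c3 = x2 * c4 := by linarith
    have h5 : u • a + w • z = (c2 * s1 + c4 * s2) • a + (c2 * t1 + c4 * t2) • z := by
      rw [h, j1, j3]
      calc _ = c2 • (x1 • C.v α1 + C.v β1) + c4 • (x2 • C.v δ2 + C.v β2) := by module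
        _ = c2 • (s1 • a + t1 • z) + c4 • (s2 • a + t2 • z) := by rw [e1, e2]
        _ = _ := by module
    obtain ⟨h6, h7⟩ := fr_uniq b F h5
    exact ⟨j1, j3, h6, h7⟩
  have hind : Ind4 C α1 β1 δ2 β2 := by
    intro c1 c2 c3 c4 h
    obtain ⟨j1, j3, j5, j6⟩ := key c1 c2 c3 c4 0 0 (by rw [h]; simp)
    have k5 : D * c2 = 0 := by
      rw [← hDD]
      linear_combination (-t2) * j5 + s2 * j6
    have k6 : D * c4 = 0 := by
      rw [← hDD]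
      linear_combination t1 * j5 - s1 * j6
    have k7 : c2 = 0 := (mul_eq_zero.1 k5).resolve_left hDpos.ne'
    have k8 : c4 = 0 := (mul_eq_zero.1 k6).resolve_left hDpos.ne'
    refine ⟨?_, k7, ?_, k8⟩
    · rw [j1, k7, mul_zero]
    · rw [j3, k8, mul_zero]
  have hB := cp4a C b.nef hα1.mem hβ1.mem hδ2.mem hβ2.mem hind hDpos (mul_pos ht2 hx1) ht2
    (mul_pos (neg_pos.2 ht1) hx2) (neg_pos.2 ht1) hrel.symm
  obtain ⟨c1, c2, c3, c4, hc⟩ := bs4 C hind hB a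
  obtain ⟨d1, d2, d3, d4, hd⟩ := bs4 C hind hB z
  obtain ⟨-, -, m1, m2⟩ := key c1 c2 c3 c4 1 0 (by rw [← hc]; simp)
  obtain ⟨-, -, m3, m4⟩ := key d1 d2 d3 d4 0 1 (by rw [← hd]; simp)
  have hdet : D * (c2 * d4 - c4 * d2) = 1 := by
    rw [← hDD]
    have e : (c2 * s1 + c4 * s2) * (d2 * t1 + d4 * t2) - (d2 * s1 + d4 * s2) * (c2 * t1 + c4 * t2) = 1 := by
      rw [← m1, ← m2, ← m3, ← m4]
      norm_num
    linear_combination e
  rcases Int.isUnit_iff.1 (IsUnit.of_mul_eq_one _ hdet) with h | h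
  · exact h
  · omega

end Pool.Agent.H19.P4
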