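import Pool.Agent.H19.P4.Dt1
import Pool.Agent.H19.P4.Dt2

/-!
Module P1 (row P4P1).  Not both edges of a facet contain vectors of `F`.  Use `dt1`, `dt1e`, `dt2`, `ee_fr`, `exists_fr`, `exists_nb`, `ty_ex`, `ty_xy`, `fr_uniq`, `Fr.gen`, `Fr.pos`, `Fr.swap`.
`p1_half`.  Here `e` has `h = n = 0` and `e'` has `h = o = 0`; claim `x = 1` for every `β` of type `(-x, 1)`.  Frame `z` of the edge `h, n` (`exists_fr b k.hn`).  `ee_fr`: `v e = se a + z`, `o z = 1`, `o (v e) = 1` (`o ∈ IS H a`, `o ≠ h, n`).  `ee_fr` for a frame of the edge `h, o`: `n (v e') = 1`.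
  So `e : Tp h n o e 0 1`, `e' : Tp h n o e' 1 0`.  Take `α` of type `(1, -y)` (`ty_ex`).  `U1 = x v α + v β = s1 a + t1 z`, `V1 = x v e' + v β = σ a + th z` (killed by `h`, `n`); `o V1 = 1 = th * o z`: `th = 1`.  `dt1` (`δ = e'`, `q = 0`): `s1 - σ t1 = x`; `dt1e`: `s1 - se t1 = 1`.
  At the facet `n`: `exists_nb b k.hn.symm`: `k2 : Nb n h g2`; `ty_ex b k2`: `α2, β2` with `X2, Y2 > 0`; `U2 = X2 v α2 + v β2 = s2 a + t2 z`; `g2 U2 = 1 - X2 Y2 = t2 * g2 z`, so `t2 ≠ 0` (`ty_xy`).  `dt2` with `h1 := n`, `h2 := h`, `α1 := α2, β1 := β2`, `δ2 := e', β2 := β` (frame `F.swap`): `s2 * 1 - σ t2 = 1`.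
  `dt1e` at `n` (`e : Tp n h g2 e 0 1`: `g2 (v e) = 1` by `ee_fr`, `g2 ≠ n, h`): `s2 - se t2 = 1`.  So `(se - σ) t2 = 0`, `se = σ`, `x = 1`.
`p1`.  `ty_ex b k`: `α, β, x, y`; `p1_half` gives `x = 1`; `p1_half` for `k.swap` (with `e, e'` exchanged and `hα.swap`): `y = 1`; contradiction to `ty_xy`.
-/

set_option autoImplicit false
set_option linter.all false

namespace Pool.Agent.H19.P4

variable {ι Λ : Type} [DecidableEq ι] [AddCommGroup Λ] {C : Cf 4 ι Λ} {H : Finset (Λ →+ ℤ)} {a : Λ}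

variable {h n o : Λ →+ ℤ}

theorem p1_half (b : Bd C H a) (k : Nb H a h n o) {e e' : ι} (he : e ∈ C.F)
    (e1 : h (C.v e) = 0) (e2 : n (C.v e) = 0) (he' : e' ∈ C.F) (e1' : h (C.v e') = 0)
    (e2' : o (C.v e') = 0) {β : ι} {x : ℤ} (hβ : Tp C h n o β (-x) 1) (hx : 0 < x) : x = 1 := by
  obtain ⟨z, F⟩ := exists_fr b k.hn
  obtain ⟨⟨se, hse⟩, hz, hve⟩ := ee_fr b F he e1 e2
  have ho1 : o z = 1 := hz o k.ho.2.1 k.ho.2.2.1.symm k.ne.symm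
  have hoe : o (C.v e) = 1 := hve o k.ho.2.1 k.ho.2.2.1.symm k.ne.symm
  obtain ⟨z', F'⟩ := exists_fr b k.ho
  have hne' : n (C.v e') = 1 :=
    (ee_fr b F' he' e1' e2').2.2 n k.hn.2.1 k.hn.2.2.1.symm k.ne
  have hTe : Tp C h n o e 0 1 := ⟨he, e1, e2, hoe⟩
  have hTe' : Tp C h n o e' 1 0 := ⟨he', e1', hne', e2'⟩
  obtain ⟨α, β0, δ0, x0, y, p0, q0, hα, _, _, _, hy, _, _⟩ := ty_ex b k
  have ho0 : o a = 0 := (mem_IS.1 k.ho.2.1).2
  obtain ⟨s1, t1, hU1⟩ := F.gen (x • C.v α + C.v β)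
    (by rw [map_add, map_zsmul, hα.h0, hβ.h0, smul_zero, add_zero])
    (by rw [map_add, map_zsmul, hα.hn, hβ.hn, smul_eq_mul]; ring)
  obtain ⟨σ, th, hV1⟩ := F.gen (x • C.v e' + C.v β)
    (by rw [map_add, map_zsmul, hTe'.h0, hβ.h0, smul_zero, add_zero])
    (by rw [map_add, map_zsmul, hTe'.hn, hβ.hn, smul_eq_mul]; ring)
  have hth : th = 1 := by
    have h1 := congrArg o hV1
    rw [map_add, map_zsmul, hTe'.ho, hβ.ho, map_add, map_zsmul, map_zsmul, ho0, ho1,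
      smul_zero, smul_zero, smul_eq_mul] at h1
    omega
  have hse' : C.v e = se • a + (1 : ℤ) • z := by rw [one_smul]; exact hse
  have D1 := dt1 b k F hα hβ hTe' hx hy le_rfl hU1 hV1
  have D2 := dt1e b k F hα hβ hTe hx hy hU1 hse'
  obtain ⟨g2, k2⟩ := exists_nb b k.hn.symm
  obtain ⟨α2, β2, δ2, X2, Y2, p2, q2, hα2, hβ2, _, hX2, hY2, _, _⟩ := ty_ex b k2
  obtain ⟨s2, t2, hU2⟩ := F.gen (X2 • C.v α2 + C.v β2)
    (by rw [map_add, map_zsmul, hα2.hn, hβ2.hn, smul_eq_mul]; ring)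
    (by rw [map_add, map_zsmul, hα2.h0, hβ2.h0, smul_zero, add_zero])
  have hg0 : g2 a = 0 := (mem_IS.1 k2.ho.2.1).2
  have ht2 : t2 ≠ 0 := by
    intro h0
    have h1 := congrArg g2 hU2
    rw [map_add, map_zsmul, hα2.ho, hβ2.ho, map_add, map_zsmul, map_zsmul, hg0, h0,
      zero_smul, smul_zero, smul_eq_mul, add_zero] at h1
    have h2 := ty_xy b k2 hα2 hβ2 hX2 hY2
    rw [mul_neg] at h1
    omega
  have hge : g2 (C.v e) = 1 := hve g2 k2.ho.2.1 k2.ne.symm k2.ho.2.2.1.symm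
  have hTe2 : Tp C n h g2 e 0 1 := ⟨he, e2, e1, hge⟩
  have D3 := dt2 b k2 k F.swap hα2 hβ2 hTe' hβ hX2 hY2 hx le_rfl hU2 hV1
  have D4 := dt1e b k2 F.swap hα2 hβ2 hTe2 hX2 hY2 hU2 hse'
  rw [hth] at D1 D3
  have h3 : (se - σ) * t2 = 0 := by linear_combination D3 - D4
  have h4 : se - σ = 0 := (mul_eq_zero.1 h3).resolve_right ht2
  have h5 : se = σ := by omega
  rw [h5] at D2
  linear_combination D2 - D1

theorem p1 (b : Bd C H a) (k : Nb H a h n o) {e e' : ι} (he : e ∈ C.F)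
    (e1 : h (C.v e) = 0) (e2 : n (C.v e) = 0) (he' : e' ∈ C.F) (e1' : h (C.v e') = 0)
    (e2' : o (C.v e') = 0) : False := by
  obtain ⟨α, β, δ, x, y, p, q, hα, hβ, _, hx, hy, _, _⟩ := ty_ex b k
  have h1 := p1_half b k he e1 e2 he' e1' e2' hβ hx
  have h2 := p1_half b k.swap he' e1' e2' he e1 e2 hα.swap hy
  have h3 := ty_xy b k hα hβ hx hy
  rw [h1, h2] at h3
  omega

end Pool.Agent.H19.P4
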