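import Pool.Agent.H19.P4.Gm2
import Pool.Agent.H19.P4.P1

/-!
Module C1 (row P4C1).  Case I.  Use `edge_eq`, `ar00`, `cov_gam`, `p1`, `ee_fr`, `ty_ex`, `ty_N`, `ty_xy`, `exists_nb`, `exists_fr`, `Nb.uniq`.
`h1, h2` adjacent, `h3` the other neighbour of `h2`, `m` the other neighbour of `h1`; `e ∈ F` on the edge `h1, h2`; `h3` covered.
(A) (edge lemma for two covered facets, `edge00`): if `k1 : Nb h1 h2 g1`, `k2 : Nb h2 h1 g2`, `e1` on `h1, g1` and `e2` on `h2, g2` (in `F`) then for all `β1 : Tp h1 h2 g1 (-X1) 1`, `β2 : Tp h2 h1 g2 (-X2) 1`: `X1 = X2 = 1` and `v e1 + v β1 = v e2 + v β2`.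
   Proof: `ee_fr` on the edge `h1, g1` (`k1.ho`): `h2 (v e1) = 1`, so `e1 : Tp h1 h2 g1 e1 1 0`; the same for `e2`; `α1, α2` from `ty_ex`; `edge_eq` with `q1 = q2 = 0`, `ar00` (`ty_xy`).
`case1`.  `Cov h3`: a neighbour `g` of `h3` and `e' ∈ F` on `h3, g`.  `g ≠ h2` by `p1` at `h2` (`e` on `h2, h1` and `e'` on `h2, h3`; `k2 : Nb h2 h1 h3`).  `exists_nb`: `k3 : Nb h3 h2 h4` (from `Aj h2 h3` symmetric); `g = h4` (`Nb.uniq`).  `h4 ≠ h1`: otherwise `Aj h1 h3`, so `h3 = m` (`k1.uniq`, `h3 ≠ h2`) and `p1` at `h1` for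
  `e` (on `h1, h2`) and `e'` (on `h1, m`).  `ee_fr` on the edge `h3, h4`: `h1 (v e') = 1` (`h1 ≠ h3, h4`) and `h2 (v e') = 1`.
  (A) for the edge `h2, h3` (`k2.swap : Nb h2 h3 h1`, `k3 : Nb h3 h2 h4`, `e1 := e`, `e2 := e'`; `β2 : Tp h2 h3 h1 (-x2) 1` from `ty_ex b k2.swap`, `β3 : Tp h3 h2 h4 (-X) 1` from `ty_ex b k3`): `X = 1`, `x2 = 1`, `v e + v β2 = v e' + v β3`.
  Apply `h1`: `0 + 1 = 1 + h1 (v β3)`: `h1 (v β3) = 0`; `h2 (v β3) = -1`; so `β3` is of type `(-1, 1)` at `h1` w.r.t. `k1 : Nb h1 h2 m` (`ty_N`: `m (v β3) = 1`).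
  Now the edge `h1, m`: `k1.swap : Nb h1 m h2`, `km : Nb m h1 g'` (`exists_nb b k1.ho.symm`).  No element of `F` is on `h1, m` (`p1` at `h1` with `e`).
  If `Cov m`: the covering element is on `m, g'` (not on `m, h1`); (A) for the edge `h1, m` (`e1 := e` on `h1, h2`): `β1 := α`, where `α : Tp h1 h2 m α 1 (-y)` (`ty_ex b k1`), i.e. `α : Tp h1 m h2 α (-y) 1`: `y = 1`; but `ty_xy b k1` for `α` and `β3` (`x = 1`): `y ≥ 2`.  Contradiction.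
  If `¬ Cov m`: `cov_gam b k1.swap km` with `α1 := β3 : Tp h1 m h2 β3 1 (-1)` (`Y1 = 1`), `β1 := α : Tp h1 m h2 α (-y) 1`, and `α2, β2, δ2` at `m` from `ty_ex b km` (`δ2` of type `(1, 1)` because `¬ Cov m`): `Y1 = 1 + X2 ≥ 2`.  Contradiction.
-/

set_option autoImplicit false
set_option linter.all false

namespace Pool.Agent.H19.P4

variable {ι Λ : Type} [DecidableEq ι] [AddCommGroup Λ] {C : Cf 4 ι Λ} {H : Finset (Λ →+ ℤ)} {a : Λ}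

variable {h1 h2 h3 m g1 g2 : Λ →+ ℤ}

theorem edge00 (b : Bd C H a) (k1 : Nb H a h1 h2 g1) (k2 : Nb H a h2 h1 g2)
    {e1 e2 : ι} (he1 : e1 ∈ C.F) (a1 : h1 (C.v e1) = 0) (a2 : g1 (C.v e1) = 0)
    (he2 : e2 ∈ C.F) (b1 : h2 (C.v e2) = 0) (b2 : g2 (C.v e2) = 0)
    {β1 β2 : ι} {X1 X2 : ℤ} (hβ1 : Tp C h1 h2 g1 β1 (-X1) 1) (hβ2 : Tp C h2 h1 g2 β2 (-X2) 1)
    (hX1 : 0 < X1) (hX2 : 0 < X2) :
    X1 = 1 ∧ X2 = 1 ∧ C.v e1 + C.v β1 = C.v e2 + C.v β2 := by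
  obtain ⟨z1, F1⟩ := exists_fr b k1.ho
  obtain ⟨z2, F2⟩ := exists_fr b k2.ho
  obtain ⟨z, F⟩ := exists_fr b k1.hn
  have c1 := (ee_fr b F1 he1 a1 a2).2.2 h2 k1.hn.2.1 k1.hn.2.2.1.symm k1.ne
  have c2 := (ee_fr b F2 he2 b1 b2).2.2 h1 k2.hn.2.1 k2.hn.2.2.1.symm k2.ne
  have t1 : Tp C h1 h2 g1 e1 1 0 := ⟨he1, a1, c1, a2⟩
  have t2 : Tp C h2 h1 g2 e2 1 0 := ⟨he2, b1, c2, b2⟩
  obtain ⟨α1, β1', δ1', x1', Y1, p1', q1', hα1, -, -, -, hY1, -, -⟩ := ty_ex b k1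
  obtain ⟨α2, β2', δ2', x2', Y2, p2', q2', hα2, -, -, -, hY2, -, -⟩ := ty_ex b k2
  obtain ⟨sig, th1, th2, p1, p2, q1, q2, r1, r2, r3⟩ := edge_eq b k1 k2 F hα1 hβ1 t1 hα2 hβ2 t2
    hX1 hY1 hX2 hY2 le_rfl le_rfl
  rw [mul_zero, add_zero] at q1 q2
  obtain ⟨s1, s2, s3, s4, s5, s6, s7⟩ := ar00 hX1 hY1 hX2 hY2 (ty_xy b k1 hα1 hβ1 hX1 hY1)
    (ty_xy b k2 hα2 hβ2 hX2 hY2) (F.pos g1 k1.ho.2.1 k1.ho.2.2.1.symm k1.ne.symm)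
    (F.pos g2 k2.ho.2.1 k2.ne.symm k2.ho.2.2.1.symm) p1 p2 q1 q2 r2 r3
  refine ⟨s6, s7, ?_⟩
  rw [s1, s2, s5, s6, s7, one_smul, one_smul, one_smul, one_smul, zero_smul, add_zero] at r1
  exact r1

theorem case1 (b : Bd C H a) (k1 : Nb H a h1 h2 m) (k2 : Nb H a h2 h1 h3) {e : ι} (he : e ∈ C.F)
    (e1 : h1 (C.v e) = 0) (e2 : h2 (C.v e) = 0) (hc : Cov C H a h3) : False := by
  obtain ⟨g, hg, e', he', e1', e2'⟩ := hc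
  obtain ⟨h4, k3⟩ := exists_nb b k2.ho.symm
  rcases k3.uniq hg with rfl | rfl
  · exact p1 b k2 he e2 e1 he' e2' e1'
  have hne : h1 ≠ g := by
    rintro rfl
    rcases k1.uniq k3.ho.symm with h | h
    · exact k2.ho.2.2.1 h.symm
    · subst h
      exact p1 b k1 he e1 e2 he' e2' e1'
  obtain ⟨z, F⟩ := exists_fr b k3.ho
  have c1 := (ee_fr b F he' e1' e2').2.2 h1 k1.hn.1 k2.ne hne
  obtain ⟨α2, β2, δ2, x2, y2, p2, q2, -, hβ2, -, hx2, -, -, -⟩ := ty_ex b k2.swap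
  obtain ⟨α3, β3, δ3, X, y3, p3, q3, -, hβ3, -, hX, -, -, -⟩ := ty_ex b k3
  obtain ⟨r1, r2, r3⟩ := edge00 b k2.swap k3 he e2 e1 he' e1' e2' hβ2 hβ3 hx2 hX
  have c2 := congrArg h1 r3
  rw [map_add, map_add, e1, hβ2.ho, c1] at c2
  have c3 : h1 (C.v β3) = 0 := by omega
  have c4 := hβ3.hn
  rw [r2] at c4
  obtain ⟨n1, n2, n3⟩ := ty_N b k1 hβ3.mem c3
  have c5 : m (C.v β3) = 1 := by
    rcases n3 with n3 | n3
    · omega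
    · exact n3
  have T3 : Tp C h1 h2 m β3 (-1) 1 := ⟨hβ3.mem, c3, c4, c5⟩
  obtain ⟨g', km⟩ := exists_nb b k1.ho.symm
  obtain ⟨α, β, δ, x, y, p, q, hα, -, -, -, hy, -, -⟩ := ty_ex b k1
  obtain ⟨α4, β4, δ4, X4, Y4, p4, q4, hα4, hβ4, hδ4, hX4, hY4, hp4, hq4⟩ := ty_ex b km
  by_cases hm : Cov C H a m
  · obtain ⟨g2, hg2, e'', he'', f1, f2⟩ := hm
    rcases km.uniq hg2 with rfl | rfl
    · exact p1 b k1 he e1 e2 he'' f2 f1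
    · obtain ⟨u1, u2, u3⟩ := edge00 b k1.swap km he e1 e2 he'' f1 f2 hα.swap hβ4 hy hX4
      have u4 := ty_xy b k1 hα T3 one_pos hy
      omega
  · obtain ⟨n4, n5, n6⟩ := ty_N b km hδ4.mem hδ4.h0
    have hp : p4 ≠ 0 := by
      intro h
      apply hm
      exact ⟨h1, km.hn, δ4, hδ4.mem, hδ4.h0, by rw [hδ4.hn, h]⟩
    have hq : q4 ≠ 0 := by
      intro h
      apply hm
      exact ⟨g', km.ho, δ4, hδ4.mem, hδ4.h0, by rw [hδ4.ho, h]⟩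
    rw [hδ4.hn] at n4
    rw [hδ4.ho] at n5
    have hp1 : p4 = 1 := by omega
    have hq1 : q4 = 1 := by omega
    rw [hp1, hq1] at hδ4
    have T3' : Tp C h1 m h2 β3 1 (-1) := T3.swap
    obtain ⟨u1, -, -⟩ := cov_gam b k1.swap km hm he e1 e2 T3' hα.swap hα4 hβ4 hδ4 hy one_pos hX4 hY4
    omega

end Pool.Agent.H19.P4
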