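import Pool.Agent.H19.P4.Gm2
import Pool.Agent.H19.P4.P1

/-!
Module C2 (row P4C2).  Case II, first part.
-/

set_option autoImplicit false
set_option linter.all false

namespace Pool.Agent.H19.P4

variable {ι Λ : Type} [DecidableEq ι] [AddCommGroup Λ] {C : Cf 4 ι Λ} {H : Finset (Λ →+ ℤ)} {a : Λ}

variable {h1 h2 h3 h4 : Λ →+ ℤ}

theorem c2_vals (b : Bd C H a) (k2 : Nb H a h2 h1 h3) (k3 : Nb H a h3 h2 h4) {e : ι}
    (he : e ∈ C.F) (e1 : h1 (C.v e) = 0) (e2 : h2 (C.v e) = 0) (hc : ¬ Cov C H a h3)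
    {β3 δ3 : ι} {X : ℤ} (hβ3 : Tp C h3 h2 h4 β3 (-X) 1) (hδ3 : Tp C h3 h2 h4 δ3 1 1)
    (hX : 0 < X) : h1 (C.v β3) = 1 ∧ h1 (C.v δ3) = 1 := by
  obtain ⟨α, β, δ, x, y, p, q, hα, hβ, _, hx, hy, _, _⟩ := ty_ex b k2.swap
  obtain ⟨α', _, _, _, y', _, _, hα', _, _, _, hy', _, _⟩ := ty_ex b k3
  obtain ⟨_, _, h⟩ := cov_gam b k2.swap k3 hc he e2 e1 hα hβ hα' hβ3 hδ3 hx hy hX hy'
  have h1S := k2.hn.2.1
  have ha : h1 a = 0 := (mem_IS.1 h1S).2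
  have key := congrArg h1 h
  rw [map_zsmul, map_add, map_zsmul, map_add, map_add, map_zsmul, e1, hβ.ho, ha] at key
  simp only [smul_eq_mul, mul_zero, zero_add, add_zero, mul_one] at key
  have l1 := Fct.le_one b.fct (mem_IS.1 h1S).1 hδ3.mem
  have l2 := Fct.le_one b.fct (mem_IS.1 h1S).1 hβ3.mem
  have l3 : 0 ≤ X * (1 - h1 (C.v δ3)) := mul_nonneg hX.le (by omega)
  have l4 : X * (1 - h1 (C.v δ3)) = X - X * h1 (C.v δ3) := by ring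
  have l5 : h1 (C.v β3) = 1 := by omega
  have l6 : X * (1 - h1 (C.v δ3)) = 0 := by omega
  rcases mul_eq_zero.1 l6 with l7 | l7
  · omega
  · exact ⟨l5, by omega⟩

theorem case2a (b : Bd C H a) (k2 : Nb H a h2 h1 h3) (k3 : Nb H a h3 h2 h4) (h41 : h4 ≠ h1)
    {e : ι} (he : e ∈ C.F) (e1 : h1 (C.v e) = 0) (e2 : h2 (C.v e) = 0)
    (hc : ¬ Cov C H a h3) : False := by
  obtain ⟨α, β, δ, x, y, p, q, hα, hβ, hδ, hx, hy, hp, hq⟩ := ty_ex b k3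
  have hpq : p = 1 ∧ q = 1 := by
    have h5 := ty_N b k3 hδ.mem hδ.h0
    rw [hδ.hn, hδ.ho] at h5
    have hp0 : p ≠ 0 := by
      intro h0
      exact hc ⟨h2, k3.hn, δ, hδ.mem, hδ.h0, by rw [hδ.hn, h0]⟩
    have hq0 : q ≠ 0 := by
      intro h0
      exact hc ⟨h4, k3.ho, δ, hδ.mem, hδ.h0, by rw [hδ.ho, h0]⟩
    omega
  obtain ⟨rfl, rfl⟩ := hpq
  obtain ⟨v1, v2⟩ := c2_vals b k2 k3 he e1 e2 hc hβ hδ hx
  obtain ⟨m, m1, m2, q1, q2, q3, q4⟩ := k3.comb h1 k2.hn.2.1 k2.ne k2.hn.2.2.1.symm h41.symm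
  have r1 := q4 _ hδ.h0
  have r2 := q4 _ hβ.h0
  rw [v2, hδ.hn, hδ.ho] at r1
  rw [v1, hβ.hn, hβ.ho] at r2
  have r3 := mul_pos q2 hx
  have r4 : m1 * -x = -(m1 * x) := by ring
  rw [r4] at r2
  omega

end Pool.Agent.H19.P4
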