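import Pool.Agent.H19.P4.Ty3

/-!
Module Tri (row P4TR).  Case II, the triangle.  Use `gam`, `cov_gam`, `ty_ex`, `ty_N`, `ty_xy`, `ker3`, `pos4`, `cp4a`, `bs4`, `ee_fr`, `exists_fr`, `C.tf'`.
Three pairwise adjacent facets `h1, h2, h3`; `e ∈ F` on the edge `h1, h2`; `h3` not covered.  All values are written `(h1, h2, h3)`.
`cp1`.  Let `f1, .., f4 ∈ F`, `r1, .., r4 > 0`, one of them `= 1` (say `r1 = 1`), `x := r1 v f1 + .. + r4 v f4` killed by `h1, h2, h3`, and (hypothesis `hk`) every integer relation of the values: if `c1 v f1 + .. + c4 v f4` is killed by `h1, h2, h3` then `ci = c1 * ri` for all `i`.  Then `x = a`.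
  Proof: `ker3 b k1`: `x = s a`, `s > 0` (`pos4`).  `Ind4`: a relation has `ci = c1 ri`, so `c1 x = 0`, `c1 s a = 0`, `c1 = 0` (`C.tf`), all `ci = 0`.  `cp4a` (`M = s`): `{f1, .., f4} ∈ B`; `bs4` for `a`: `a = ∑ ui v fi`; `s a = ∑ s ui v fi = ∑ ri v fi`, `Ind4`: `s u1 = r1 = 1`: `s = 1`.
`tri_half`.  `e = (0, 0, 1)` (`ee_fr`: `h3 (v e) = 1`).  `ty_ex b k1` (`Nb h1 h2 h3`): `α1 = (0, 1, -y1)`, `β1 = (0, -x1, 1)`.  `ty_ex b k2` (`Nb h2 h3 h1`): `α2 : h3 = 1, h1 = -y2`: `(-y2, 0, 1)`; `β2 : h3 = -x2, h1 = 1`: `(1, 0, -x2)`.  Given (`Nb h3 h1 h2`): `α3 = (1, -y3, 0)`, `β3 = (-x3, 1, 0)`; `δ3 = (1, 1, 0)` (`ty_ex`, `¬ Cov h3`).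
  `gam b k3`: `x3 y3 = 2`.  `cov_gam` on the edge `h2, h3`: `k2 : Nb h2 h3 h1`, `k3.swap : Nb h3 h2 h1`, `e` on `h2, h1`; `α1 := α2, β1 := β2` (`Y1 = y2`), at `h3` w.r.t. `Nb h3 h2 h1`: `α := β3 (h2 = 1, h1 = -x3)`, `β := α3 (h2 = -y3, h1 = 1)`, so `X2 = y3`: `y2 = 1 + y3`.
  (i) `a = v β2 + v α3 + y3 v β3 + x2 v e`;  (ii) `a = v α1 + x3 v α3 + v β3 + y1 v e`;  (iii) `a = v α2 + y2 v β2 + (x2 y2 - 1) v e`;  (iv) `a = v α2 + (y2 y3) v α1 + y2 v α3 + (y1 y2 y3 - 1) v e`.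
  (i), (ii), (iv) by `cp1` (the equations of the relation: (i) `c1 + c2 - x3 c3 = 0`, `- y3 c2 + c3 = 0`, `- x2 c1 + c4 = 0`, so `c3 = y3 c2`, `c1 = (x3 y3 - 1) c2 = c2`, `c4 = x2 c1`; (ii) `x3`: `c2 = x3 c3`, `c1 = y3 c2 - c3 = c3`, `c4 = y1 c1`; (iv) order `α2, α1, α3, e`: `- y2 c1 + c3 = 0`, `c2 - y3 c3 = 0`,
  `c1 - y1 c2 + c4 = 0`).  (iii): `ty_rel b k2` with `δ := e` (`p = h3 = 1`, `q = h1 = 0`): `s a = v α2 + y2 v β2 + (x2 y2 - 1) v e`; and `s = 1` by `ty_B`, `bs4` for `a` with any `f ∈ F`, `h2 (v f) > 0` (for instance `α1`), or directly by `cp1`-like argument: coefficients of `a` in the basis `{α2, β2, e, f}` times `s`, the coefficient of `α2` is `1`.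
  (iii) - (iv): `y2 (v β2 + x2 v e) = y2 (y3 v α1 + v α3 + y1 y3 v e)`, `C.tf'`: `v β2 + x2 v e = v α3 + y3 v α1 + (y1 y3) v e`.  Into (i): `a = 2 v α3 + y3 (v β3 + v α1 + y1 v e) = 2 v α3 + y3 (a - x3 v α3) = y3 a` by (ii) and `x3 y3 = 2`.  `C.smul_eq`: `y3 = 1`.
`tri`.  `ty_ex b k3`: `α3, β3, x3, y3`.  `tri_half` gives `y3 = 1`; `tri_half` for `h1, h2` exchanged (`k2.swap : Nb h2 h1 h3`, `k1.swap : Nb h1 h3 h2`, `k3.swap : Nb h3 h2 h1`, `hβ3.swap`, `hα3.swap`) gives `x3 = 1`; contradiction to `ty_xy b k3`.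
-/

set_option autoImplicit false
set_option linter.all false

namespace Pool.Agent.H19.P4

variable {ι Λ : Type} [DecidableEq ι] [AddCommGroup Λ] {C : Cf 4 ι Λ} {H : Finset (Λ →+ ℤ)} {a : Λ}

variable {h1 h2 h3 : Λ →+ ℤ}

theorem cp1 (b : Bd C H a) (k1 : Nb H a h1 h2 h3) {f1 f2 f3 f4 : ι} (m1 : f1 ∈ C.F)
    (m2 : f2 ∈ C.F) (m3 : f3 ∈ C.F) (m4 : f4 ∈ C.F) {r2 r3 r4 : ℤ} (p2 : 0 < r2)
    (p3 : 0 < r3) (p4 : 0 < r4)
    (z1 : h1 (C.v f1 + r2 • C.v f2 + r3 • C.v f3 + r4 • C.v f4) = 0)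
    (z2 : h2 (C.v f1 + r2 • C.v f2 + r3 • C.v f3 + r4 • C.v f4) = 0)
    (z3 : h3 (C.v f1 + r2 • C.v f2 + r3 • C.v f3 + r4 • C.v f4) = 0)
    (hk : ∀ c1 c2 c3 c4 : ℤ,
      h1 (c1 • C.v f1 + c2 • C.v f2 + c3 • C.v f3 + c4 • C.v f4) = 0 →
      h2 (c1 • C.v f1 + c2 • C.v f2 + c3 • C.v f3 + c4 • C.v f4) = 0 →
      h3 (c1 • C.v f1 + c2 • C.v f2 + c3 • C.v f3 + c4 • C.v f4) = 0 →
      c2 = c1 * r2 ∧ c3 = c1 * r3 ∧ c4 = c1 * r4) :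
    C.v f1 + r2 • C.v f2 + r3 • C.v f3 + r4 • C.v f4 = a := by
  obtain ⟨s, hs⟩ := ker3 b k1 z1 z2 z3
  have hs0 : 0 < s := pos4 C b.nef m1 m2 m3 m4 (r1 := 1) one_pos p2.le p3.le p4.le
    (by rw [one_smul]; exact hs)
  have hi : Ind4 C f1 f2 f3 f4 := by
    intro c1 c2 c3 c4 h0
    obtain ⟨e2, e3, e4⟩ := hk c1 c2 c3 c4 (by rw [h0, map_zero]) (by rw [h0, map_zero])
      (by rw [h0, map_zero])
    have h5 : c1 • (C.v f1 + r2 • C.v f2 + r3 • C.v f3 + r4 • C.v f4) = 0 := by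
      rw [← h0, e2, e3, e4]
      simp only [smul_add, smul_smul]
    rw [hs, smul_smul] at h5
    have h6 : c1 * s = 0 := C.smul_eq b.ne (by rw [h5, zero_smul])
    have h7 : c1 = 0 := (mul_eq_zero.1 h6).resolve_right hs0.ne'
    rw [e2, e3, e4, h7]
    simp
  have hB := cp4a C b.nef m1 m2 m3 m4 hi hs0 one_pos p2 p3 p4
    (by rw [one_smul]; exact hs.symm)
  obtain ⟨u1, u2, u3, u4, hu⟩ := bs4 C hi hB a
  have h8 : (s * u1 - 1) • C.v f1 + (s * u2 - r2) • C.v f2 + (s * u3 - r3) • C.v f3 +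
      (s * u4 - r4) • C.v f4 = 0 := by
    have h9 : s • (u1 • C.v f1 + u2 • C.v f2 + u3 • C.v f3 + u4 • C.v f4) =
        C.v f1 + r2 • C.v f2 + r3 • C.v f3 + r4 • C.v f4 := by rw [← hu, ← hs]
    rw [← sub_eq_zero] at h9
    rw [← h9]
    module
  have h10 := (hi _ _ _ _ h8).1
  have h11 : s * u1 = 1 := by omega
  have h12 : s = 1 := by
    rcases Int.isUnit_iff.1 (isUnit_of_dvd_one ⟨u1, h11.symm⟩) with h | h
    · exact h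
    · omega
  rw [hs, h12, one_smul]

end Pool.Agent.H19.P4
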