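import Mathlib

/-!
MP_a35d42_co, smooth polytopes with at most `d + 4` facets (project MP_a35d42_P4).  Definitions.
Text of the proof: /team-store/H19_a35d42_picard4.md.

`Cf ρ ι Λ`: a configuration of rank `ρ`: vectors `v f` (`f ∈ F`) in an abelian group `Λ`, a family `B` of
subsets of `F` which are `ℤ`-bases of `Λ`, with coordinate functionals `c J k`, all positive at `w`.
-/

set_option autoImplicit false
set_option linter.all false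

namespace Pool.Agent.H19.P4

/-- a configuration of rank `ρ` -/
structure Cf (ρ : ℕ) (ι Λ : Type) [DecidableEq ι] [AddCommGroup Λ] where
  F : Finset ι
  v : ι → Λ
  w : Λ
  B : Finset (Finset ι)
  c : Finset ι → ι → (Λ →+ ℤ)
  ne : B.Nonempty
  sub : ∀ J ∈ B, J ⊆ F
  card : ∀ J ∈ B, J.card = ρ
  exp : ∀ J ∈ B, ∀ x, ∑ k ∈ J, c J k x • v k = x
  dual : ∀ J ∈ B, ∀ k ∈ J, ∀ l ∈ J, c J k (v l) = if k = l then 1 else 0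
  pos : ∀ J ∈ B, ∀ k ∈ J, 0 < c J k w
  piv : ∀ J ∈ B, ∀ f ∈ F, f ∉ J → ∃ k ∈ J, insert f (J.erase k) ∈ B
  pt : ∀ r : ι → ℤ, (∀ f ∈ F, 0 ≤ r f) → ∑ f ∈ F, r f • v f = 0 → ∀ f ∈ F, r f = 0

variable {ρ : ℕ} {ι Λ : Type} [DecidableEq ι] [AddCommGroup Λ]

/-- nef classes -/
def Cf.Nef (C : Cf ρ ι Λ) (x : Λ) : Prop := ∀ J ∈ C.B, ∀ k ∈ J, 0 ≤ C.c J k x

/-- ample classes -/
def Cf.Amp (C : Cf ρ ι Λ) (x : Λ) : Prop := ∀ J ∈ C.B, ∀ k ∈ J, 0 < C.c J k x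

/-- `H` is the set of facets of the nef cone -/
structure Fct (C : Cf ρ ι Λ) (H : Finset (Λ →+ ℤ)) : Prop where
  sub : ∀ h ∈ H, ∃ J ∈ C.B, ∃ k ∈ J, h = C.c J k
  nef : ∀ x, (∀ h ∈ H, 0 ≤ h x) → C.Nef x
  wit : ∀ h ∈ H, ∃ x, h x = 0 ∧ ∀ J ∈ C.B, ∀ k ∈ J, C.c J k ≠ h → 0 < C.c J k x

/-- the facets through `a` -/
def IS (H : Finset (Λ →+ ℤ)) (a : Λ) : Finset (Λ →+ ℤ) := H.filter (fun h => h a = 0)

/-- a bad configuration: nothing can be subtracted from the primitive nef class `a` -/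
structure Bd (C : Cf 4 ι Λ) (H : Finset (Λ →+ ℤ)) (a : Λ) : Prop where
  fct : Fct C H
  nef : C.Nef a
  ne : a ≠ 0
  prim : ∀ (n : ℤ) (x : Λ), a = n • x → n = 1 ∨ n = -1
  stuck : ∀ f ∈ C.F, ∃ h ∈ IS H a, 0 < h (C.v f)
  nop : ∀ f ∈ C.F, ∀ g ∈ C.F, f ≠ g → ∀ l m s : ℤ, 0 < l → 0 < m →
    l • C.v f + m • C.v g ≠ s • a

/-- adjacent facets -/
def Aj (H : Finset (Λ →+ ℤ)) (a : Λ) (h g : Λ →+ ℤ) : Prop :=
  h ∈ IS H a ∧ g ∈ IS H a ∧ h ≠ g ∧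
    ∃ x, h x = 0 ∧ g x = 0 ∧ ∀ k ∈ IS H a, k ≠ h → k ≠ g → 0 < k x

/-- `n` and `o` are the two neighbours of the facet `h` -/
structure Nb (H : Finset (Λ →+ ℤ)) (a : Λ) (h n o : Λ →+ ℤ) : Prop where
  hn : Aj H a h n
  ho : Aj H a h o
  ne : n ≠ o
  comb : ∀ k ∈ IS H a, k ≠ h → k ≠ n → k ≠ o → ∃ m m1 m2 : ℤ, 0 < m ∧ 0 < m1 ∧ 0 < m2 ∧
    ∀ x, h x = 0 → m * k x = m1 * n x + m2 * o x

/-- the vector `f` lies on `h = 0` and has the values `p` and `q` on the neighbours `n` and `o` -/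
structure Tp (C : Cf ρ ι Λ) (h n o : Λ →+ ℤ) (f : ι) (p q : ℤ) : Prop where
  mem : f ∈ C.F
  h0 : h (C.v f) = 0
  hn : n (C.v f) = p
  ho : o (C.v f) = q

/-- a frame at the edge `h1, h2`: `a, z` is a basis of `ker h1 ∩ ker h2` -/
structure Fr (H : Finset (Λ →+ ℤ)) (a : Λ) (h1 h2 : Λ →+ ℤ) (z : Λ) : Prop where
  aj : Aj H a h1 h2
  z1 : h1 z = 0
  z2 : h2 z = 0
  pos : ∀ k ∈ IS H a, k ≠ h1 → k ≠ h2 → 0 < k z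
  gen : ∀ x, h1 x = 0 → h2 x = 0 → ∃ s t : ℤ, x = s • a + t • z

/-- the facet `h` is covered: there is a vector of `F` on the edge between `h` and a neighbour -/
def Cov (C : Cf ρ ι Λ) (H : Finset (Λ →+ ℤ)) (a : Λ) (h : Λ →+ ℤ) : Prop :=
  ∃ n, Aj H a h n ∧ ∃ e ∈ C.F, h (C.v e) = 0 ∧ n (C.v e) = 0

/-- four independent vectors -/
def Ind4 (C : Cf 4 ι Λ) (f1 f2 f3 f4 : ι) : Prop :=
  ∀ c1 c2 c3 c4 : ℤ, c1 • C.v f1 + c2 • C.v f2 + c3 • C.v f3 + c4 • C.v f4 = 0 →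
    c1 = 0 ∧ c2 = 0 ∧ c3 = 0 ∧ c4 = 0

theorem mem_IS {H : Finset (Λ →+ ℤ)} {a : Λ} {h : Λ →+ ℤ} : h ∈ IS H a ↔ h ∈ H ∧ h a = 0 := by
  simp [IS]

theorem Aj.symm {H : Finset (Λ →+ ℤ)} {a : Λ} {h g : Λ →+ ℤ} (k : Aj H a h g) : Aj H a g h := by
  obtain ⟨h1, h2, h3, x, h4, h5, h6⟩ := k
  exact ⟨h2, h1, h3.symm, x, h5, h4, fun k hk hkg hkh => h6 k hk hkh hkg⟩

theorem Nb.swap {H : Finset (Λ →+ ℤ)} {a : Λ} {h n o : Λ →+ ℤ} (k : Nb H a h n o) :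
    Nb H a h o n := by
  refine ⟨k.ho, k.hn, k.ne.symm, fun g hg hgh hgo hgn => ?_⟩
  obtain ⟨m, m1, m2, h1, h2, h3, h4⟩ := k.comb g hg hgh hgn hgo
  exact ⟨m, m2, m1, h1, h3, h2, fun x hx => by rw [h4 x hx]; ring⟩

theorem Nb.uniq {H : Finset (Λ →+ ℤ)} {a : Λ} {h n o g : Λ →+ ℤ} (k : Nb H a h n o)
    (hg : Aj H a h g) : g = n ∨ g = o := by
  by_contra hcon
  push Not at hcon
  obtain ⟨h1, h2, h3, x, h4, h5, h6⟩ := hg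
  obtain ⟨m, m1, m2, e1, e2, e3, e4⟩ := k.comb g h2 h3.symm hcon.1 hcon.2
  have e5 := e4 x h4
  rw [h5, mul_zero] at e5
  have e6 := h6 n k.hn.2.1 k.hn.2.2.1.symm hcon.1.symm
  have e7 := h6 o k.ho.2.1 k.ho.2.2.1.symm hcon.2.symm
  have e8 := mul_pos e2 e6
  have e9 := mul_pos e3 e7
  omega

theorem Tp.swap {C : Cf ρ ι Λ} {h n o : Λ →+ ℤ} {f : ι} {p q : ℤ} (k : Tp C h n o f p q) :
    Tp C h o n f q p := ⟨k.mem, k.h0, k.ho, k.hn⟩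

theorem Fr.swap {H : Finset (Λ →+ ℤ)} {a : Λ} {h1 h2 : Λ →+ ℤ} {z : Λ} (k : Fr H a h1 h2 z) :
    Fr H a h2 h1 z :=
  ⟨k.aj.symm, k.z2, k.z1, fun g hg h h' => k.pos g hg h' h, fun x h h' => k.gen x h' h⟩

end Pool.Agent.H19.P4
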