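import Pool.Agent.H19.P4.Pv

/-!
Deletion of a vector `f` which is not in all bases.
-/

set_option autoImplicit false
set_option linter.all false

namespace Pool.Agent.H19.P4

variable {ρ : ℕ} {ι Λ : Type} [DecidableEq ι] [AddCommGroup Λ]

/-- deletion -/
noncomputable def Cf.del (C : Cf ρ ι Λ) (f : ι) (hf : ∃ J ∈ C.B, f ∉ J) : Cf ρ ι Λ where
  F := C.F.erase f
  v := C.v
  w := C.w
  B := C.B.filter (fun J => f ∉ J)
  c := C.c
  ne := by
    obtain ⟨J, hJ, hfJ⟩ := hf
    exact ⟨J, Finset.mem_filter.2 ⟨hJ, hfJ⟩⟩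
  sub := by
    intro J hJ
    obtain ⟨hJ1, hJ2⟩ := Finset.mem_filter.1 hJ
    exact fun x hx => Finset.mem_erase.2 ⟨fun h => hJ2 (h ▸ hx), C.sub J hJ1 hx⟩
  card := fun J hJ => C.card J (Finset.mem_filter.1 hJ).1
  exp := fun J hJ => C.exp J (Finset.mem_filter.1 hJ).1
  dual := fun J hJ => C.dual J (Finset.mem_filter.1 hJ).1
  pos := fun J hJ => C.pos J (Finset.mem_filter.1 hJ).1
  piv := by
    intro J hJ g hg hgJ
    obtain ⟨hJ1, hJ2⟩ := Finset.mem_filter.1 hJ
    obtain ⟨hg1, hg2⟩ := Finset.mem_erase.1 hg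
    obtain ⟨k, hk, hkB⟩ := C.piv J hJ1 g hg2 hgJ
    refine ⟨k, hk, Finset.mem_filter.2 ⟨hkB, fun h => ?_⟩⟩
    rcases Finset.mem_insert.1 h with h | h
    · exact hg1 h.symm
    · exact hJ2 (Finset.mem_erase.1 h).2
  pt := by
    intro r hr h0 g hg
    obtain ⟨hg1, hg2⟩ := Finset.mem_erase.1 hg
    by_cases hfF : f ∈ C.F
    · have h := C.pt (fun x => if x = f then 0 else r x) (by
        intro x hx
        by_cases hxf : x = f
        · simp [hxf]
        · simpa [hxf] using hr x (Finset.mem_erase.2 ⟨hxf, hx⟩)) (by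
        rw [← Finset.add_sum_erase _ _ hfF]
        simp only [if_true, zero_smul, zero_add]
        rw [← h0]
        exact Finset.sum_congr rfl fun x hx => by rw [if_neg (Finset.mem_erase.1 hx).1]) g hg2
      simpa [hg1] using h
    · rw [Finset.erase_eq_of_notMem hfF] at hr h0
      exact C.pt r hr h0 g hg2

theorem Cf.del_nef (C : Cf ρ ι Λ) {f : ι} {hf : ∃ J ∈ C.B, f ∉ J} {a : Λ} (ha : C.Nef a) :
    (C.del f hf).Nef a := fun J hJ k hk => ha J (Finset.mem_filter.1 hJ).1 k hk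

end Pool.Agent.H19.P4
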