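import Pool.Agent.H19.P4.Bas

/-!
Module Dep (row P4DP).  Linear dependence.  Use Bas.
`dep`.  For `J ∈ B` the map `Λ →ₗ[ℤ] (J → ℤ)`, `x ↦ (c J k x)_k` is injective (`C.ext`), so: if `y` were linearly independent over `ℤ` then so would be its image in `↥J → ℤ` (`LinearIndependent.map'` / `.map_of_injective`), which has finrank `|J| = ρ < m`
  (`LinearIndependent.fintype_card_le_finrank`, `Module.finrank_fintype_fun_eq_card`).  Then `Fintype.not_linearIndependent_iff`.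
`dep_ker`.  `dep` for the `m + 1 > ρ` vectors `y, v k` (`Fin.snoc` or `Fin.cons`); apply `c J k`: the coefficient of `v k` is `0`.
`dep5`, `dep_ker4`: `dep` with `m = 5`, `dep_ker` with `m = 4` and `![x1, ..]`, `Fin.sum_univ_succ`.
-/

set_option autoImplicit false
set_option linter.all false

namespace Pool.Agent.H19.P4

variable {ρ : ℕ} {ι Λ : Type} [DecidableEq ι] [AddCommGroup Λ]

theorem dep (C : Cf ρ ι Λ) {m : ℕ} (hm : ρ < m) (y : Fin m → Λ) :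
    ∃ r : Fin m → ℤ, ∑ i, r i • y i = 0 ∧ ∃ i, r i ≠ 0 := by
  by_contra hcon
  have hcon' : ∀ r : Fin m → ℤ, ∑ i, r i • y i = 0 → ∀ i, r i = 0 := by
    intro r hr i
    by_contra hi
    exact hcon ⟨r, hr, i, hi⟩
  obtain ⟨J, hJ⟩ := C.ne
  have hli : LinearIndependent ℤ y := Fintype.linearIndependent_iff.2 hcon'
  let φ : Λ →ₗ[ℤ] (J → ℤ) := LinearMap.pi (fun k => (C.c J k).toIntLinearMap)
  have hφ : ∀ x (k : J), φ x k = C.c J k x := fun x k => rfl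
  have hker : LinearMap.ker φ = ⊥ := by
    rw [LinearMap.ker_eq_bot]
    intro x x' hxx
    apply C.ext hJ
    intro k hk
    have := congrFun hxx ⟨k, hk⟩
    rw [hφ, hφ] at this
    exact this
  have h2 := hli.map' φ hker
  have h3 := h2.fintype_card_le_finrank
  rw [Fintype.card_fin, Module.finrank_fintype_fun_eq_card, Fintype.card_coe, C.card J hJ] at h3
  omega

theorem dep_ker (C : Cf ρ ι Λ) {J : Finset ι} (hJ : J ∈ C.B) {k : ι} (hk : k ∈ J) {m : ℕ}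
    (hm : ρ ≤ m) (y : Fin m → Λ) (hy : ∀ i, C.c J k (y i) = 0) :
    ∃ r : Fin m → ℤ, ∑ i, r i • y i = 0 ∧ ∃ i, r i ≠ 0 := by
  obtain ⟨r, hr, i, hi⟩ := dep C (Nat.lt_succ_of_le hm) (Fin.cons (C.v k) y : Fin (m + 1) → Λ)
  rw [Fin.sum_univ_succ] at hr
  simp only [Fin.cons_zero, Fin.cons_succ] at hr
  have h0 : r 0 = 0 := by
    have h1 := congrArg (C.c J k) hr
    rw [map_add, map_zsmul, map_sum, map_zero, C.self hJ hk] at h1
    have h2 : ∑ x : Fin m, (C.c J k) (r x.succ • y x) = 0 := by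
      apply Finset.sum_eq_zero
      intro x _
      rw [map_zsmul, hy x, smul_zero]
    rw [h2, add_zero, smul_eq_mul, mul_one] at h1
    exact h1
  rw [h0, zero_smul, zero_add] at hr
  refine ⟨fun j => r j.succ, hr, ?_⟩
  rcases Fin.eq_zero_or_eq_succ i with h | ⟨j, h⟩
  · rw [h] at hi
    exact absurd h0 hi
  · rw [h] at hi
    exact ⟨j, hi⟩

theorem dep5 (C : Cf 4 ι Λ) (x1 x2 x3 x4 x5 : Λ) :
    ∃ r1 r2 r3 r4 r5 : ℤ, r1 • x1 + r2 • x2 + r3 • x3 + r4 • x4 + r5 • x5 = 0 ∧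
      (r1 ≠ 0 ∨ r2 ≠ 0 ∨ r3 ≠ 0 ∨ r4 ≠ 0 ∨ r5 ≠ 0) := by
  obtain ⟨r, hr, i, hi⟩ := dep C (by norm_num : 4 < 5) ![x1, x2, x3, x4, x5]
  refine ⟨r 0, r 1, r 2, r 3, r 4, ?_, ?_⟩
  · rw [← hr, Fin.sum_univ_five]
    rfl
  · fin_cases i
    · exact Or.inl hi
    · exact Or.inr (Or.inl hi)
    · exact Or.inr (Or.inr (Or.inl hi))
    · exact Or.inr (Or.inr (Or.inr (Or.inl hi)))
    · exact Or.inr (Or.inr (Or.inr (Or.inr hi)))

theorem dep_ker4 (C : Cf 4 ι Λ) {J : Finset ι} (hJ : J ∈ C.B) {k : ι} (hk : k ∈ J)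
    {x1 x2 x3 x4 : Λ} (h1 : C.c J k x1 = 0) (h2 : C.c J k x2 = 0) (h3 : C.c J k x3 = 0)
    (h4 : C.c J k x4 = 0) :
    ∃ r1 r2 r3 r4 : ℤ, r1 • x1 + r2 • x2 + r3 • x3 + r4 • x4 = 0 ∧
      (r1 ≠ 0 ∨ r2 ≠ 0 ∨ r3 ≠ 0 ∨ r4 ≠ 0) := by
  obtain ⟨r, hr, i, hi⟩ := dep_ker C hJ hk (le_refl 4) ![x1, x2, x3, x4] (by
    intro i
    fin_cases i
    · exact h1
    · exact h2
    · exact h3
    · exact h4)
  refine ⟨r 0, r 1, r 2, r 3, ?_, ?_⟩
  · rw [← hr, Fin.sum_univ_four]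
    rfl
  · fin_cases i
    · exact Or.inl hi
    · exact Or.inr (Or.inl hi)
    · exact Or.inr (Or.inr (Or.inl hi))
    · exact Or.inr (Or.inr (Or.inr hi))

end Pool.Agent.H19.P4
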