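import Pool.Agent.H19.P4.Frm2
import Pool.Agent.H19.P4.Ty3

/-!
Module Dt (row P4D1).  The determinants `dt1`, `dt1e`.
-/

set_option autoImplicit false
set_option linter.all false

namespace Pool.Agent.H19.P4

variable {ι Λ : Type} [DecidableEq ι] [AddCommGroup Λ] {C : Cf 4 ι Λ} {H : Finset (Λ →+ ℤ)} {a : Λ}

variable {h n o h1 h2 g1 g2 : Λ →+ ℤ} {z : Λ}

private theorem Dt1_ex (b : Bd C H a) (k : Nb H a h n o) : ∃ f ∈ C.F, 0 < h (C.v f) := by
  obtain ⟨J, hJ, k0, hk0, rfl⟩ := b.fct.sub h (mem_IS.1 k.hn.1).1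
  exact ⟨k0, C.sub J hJ hk0, by rw [C.self hJ hk0]; exact one_pos⟩

private theorem Dt1_unit (b : Bd C H a) (F : Fr H a h n z) {U W : Λ} {s1 t1 s3 t3 : ℤ}
    (eU : U = s1 • a + t1 • z) (eW : W = s3 • a + t3 • z)
    (hs : ∀ x, h x = 0 → n x = 0 → ∃ u1 u2 : ℤ, x = u1 • U + u2 • W)
    (ha : h a = 0) (na : n a = 0) (hp : 0 < s1 * t3 - s3 * t1) : s1 * t3 - s3 * t1 = 1 := by
  obtain ⟨u1, u2, hu⟩ := hs a ha na
  obtain ⟨w1, w2, hw⟩ := hs z F.z1 F.z2
  have h1 : (1 : ℤ) • a + (0 : ℤ) • z = (u1 * s1 + u2 * s3) • a + (u1 * t1 + u2 * t3) • z := by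
    have : (1 : ℤ) • a + (0 : ℤ) • z = u1 • U + u2 • W := by rw [one_smul, zero_smul, add_zero]; exact hu
    rw [this, eU, eW]
    module
  have h2 : (0 : ℤ) • a + (1 : ℤ) • z = (w1 * s1 + w2 * s3) • a + (w1 * t1 + w2 * t3) • z := by
    have : (0 : ℤ) • a + (1 : ℤ) • z = w1 • U + w2 • W := by rw [one_smul, zero_smul, zero_add]; exact hw
    rw [this, eU, eW]
    module
  obtain ⟨a1, a2⟩ := fr_uniq b F h1
  obtain ⟨a3, a4⟩ := fr_uniq b F h2
  have h3 : (s1 * t3 - s3 * t1) * (u1 * w2 - u2 * w1) = 1 := by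
    have : (s1 * t3 - s3 * t1) * (u1 * w2 - u2 * w1) =
        (u1 * s1 + u2 * s3) * (w1 * t1 + w2 * t3) - (u1 * t1 + u2 * t3) * (w1 * s1 + w2 * s3) := by
      ring
    rw [this, ← a1, ← a2, ← a3, ← a4]
    norm_num
  rcases Int.isUnit_iff.1 (IsUnit.of_mul_eq_one _ h3) with h4 | h4
  · exact h4
  · omega

theorem dt1 (b : Bd C H a) (k : Nb H a h n o) (F : Fr H a h n z) {α β δ : ι} {x y q : ℤ}
    (hα : Tp C h n o α 1 (-y)) (hβ : Tp C h n o β (-x) 1) (hδ : Tp C h n o δ 1 q) (hx : 0 < x)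
    (hy : 0 < y) (hq : 0 ≤ q) {s1 t1 s2 t2 : ℤ} (e1 : x • C.v α + C.v β = s1 • a + t1 • z)
    (e2 : x • C.v δ + C.v β = s2 • a + t2 • z) : s1 * t2 - s2 * t1 = x := by
  have ha : h a = 0 := (mem_IS.1 k.hn.1).2
  have na : n a = 0 := (mem_IS.1 k.hn.2.1).2
  have oa : o a = 0 := (mem_IS.1 k.ho.2.1).2
  have oz : 0 < o z := F.pos o k.ho.2.1 k.ho.2.2.1.symm k.ne.symm
  obtain ⟨f, hf, hfh⟩ := Dt1_ex b k
  have hi := ty_ind b k hα hβ hδ hx hy zero_le_one hq hfh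
  have hB := ty_B b k hα hβ hδ hx hy zero_le_one hq hf hfh
  obtain ⟨s3, t3, e3⟩ := F.gen (C.v δ - C.v α)
    (by rw [map_sub, hδ.h0, hα.h0, sub_zero]) (by rw [map_sub, hδ.hn, hα.hn, sub_self])
  have hs : ∀ x', h x' = 0 → n x' = 0 → ∃ u1 u2 : ℤ,
      x' = u1 • (x • C.v α + C.v β) + u2 • (C.v δ - C.v α) := by
    intro x' h0 n0
    obtain ⟨c1, c2, c3, c4, hc⟩ := bs4 C hi hB x'
    have hh : c4 * h (C.v f) = 0 := by
      rw [hc] at h0
      simpa only [map_add, map_zsmul, smul_eq_mul, hα.h0, hβ.h0, hδ.h0, mul_zero, zero_add] using h0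
    have hc4 : c4 = 0 := (mul_eq_zero.1 hh).resolve_right hfh.ne'
    subst hc4
    have hn : c1 * 1 + c2 * (-x) + c3 * 1 + 0 * n (C.v f) = 0 := by
      rw [hc] at n0
      simpa only [map_add, map_zsmul, smul_eq_mul, hα.hn, hβ.hn, hδ.hn] using n0
    have hc1 : c1 = x * c2 - c3 := by linarith
    refine ⟨c2, c3, ?_⟩
    rw [hc, hc1]
    module
  obtain ⟨s, hs0, -, hyq, hxy, hrel⟩ := ty_rel b k hα hβ hδ hx hy zero_le_one hq
  have h1 : s • a + (0 : ℤ) • z = ((y + q) * s1 + (x * y - 1) * s3) • a +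
      ((y + q) * t1 + (x * y - 1) * t3) • z := by
    have h2 : s • a = (y + q) • (x • C.v α + C.v β) + (x * y - 1) • (C.v δ - C.v α) := by
      rw [hrel]
      module
    rw [h2, e1, e3]
    module
  obtain ⟨a1, a2⟩ := fr_uniq b F h1
  have h3 : q + y = t3 * o z := by
    have h4 := congrArg o e3
    simpa only [map_sub, map_add, map_zsmul, smul_eq_mul, hδ.ho, hα.ho, oa, mul_zero, zero_add,
      sub_neg_eq_add] using h4
  have ht3 : 0 < t3 := by
    by_contra hcon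
    push Not at hcon
    have := mul_nonpos_of_nonpos_of_nonneg hcon oz.le
    linarith
  have h5 : s * t3 = (y + q) * (s1 * t3 - s3 * t1) := by
    rw [a1]
    linear_combination (-s3) * a2
  have h6 : 0 < s1 * t3 - s3 * t1 := by
    have h7 : 0 < (y + q) * (s1 * t3 - s3 * t1) := by rw [← h5]; exact mul_pos hs0 ht3
    exact (pos_iff_pos_of_mul_pos h7).1 (by linarith)
  have h8 := Dt1_unit b F e1 e3 hs ha na h6
  have h9 : s2 • a + t2 • z = (s1 + x * s3) • a + (t1 + x * t3) • z := by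
    rw [← e2]
    have : x • C.v δ + C.v β = (x • C.v α + C.v β) + x • (C.v δ - C.v α) := by module
    rw [this, e1, e3]
    module
  obtain ⟨b1, b2⟩ := fr_uniq b F h9
  rw [b1, b2]
  linear_combination x * h8

theorem dt1e (b : Bd C H a) (k : Nb H a h n o) (F : Fr H a h n z) {α β e : ι} {x y : ℤ}
    (hα : Tp C h n o α 1 (-y)) (hβ : Tp C h n o β (-x) 1) (he : Tp C h n o e 0 1) (hx : 0 < x)
    (hy : 0 < y) {s1 t1 s2 t2 : ℤ} (e1 : x • C.v α + C.v β = s1 • a + t1 • z)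
    (e2 : C.v e = s2 • a + t2 • z) : s1 * t2 - s2 * t1 = 1 := by
  have ha : h a = 0 := (mem_IS.1 k.hn.1).2
  have na : n a = 0 := (mem_IS.1 k.hn.2.1).2
  have oa : o a = 0 := (mem_IS.1 k.ho.2.1).2
  have oz : 0 < o z := F.pos o k.ho.2.1 k.ho.2.2.1.symm k.ne.symm
  obtain ⟨f, hf, hfh⟩ := Dt1_ex b k
  have hi := ty_ind b k hα hβ he hx hy le_rfl zero_le_one hfh
  have hB := ty_B b k hα hβ he hx hy le_rfl zero_le_one hf hfh
  have hs : ∀ x', h x' = 0 → n x' = 0 → ∃ u1 u2 : ℤ,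
      x' = u1 • (x • C.v α + C.v β) + u2 • C.v e := by
    intro x' h0 n0
    obtain ⟨c1, c2, c3, c4, hc⟩ := bs4 C hi hB x'
    have hh : c4 * h (C.v f) = 0 := by
      rw [hc] at h0
      simpa only [map_add, map_zsmul, smul_eq_mul, hα.h0, hβ.h0, he.h0, mul_zero, zero_add] using h0
    have hc4 : c4 = 0 := (mul_eq_zero.1 hh).resolve_right hfh.ne'
    subst hc4
    have hn : c1 * 1 + c2 * (-x) + c3 * 0 + 0 * n (C.v f) = 0 := by
      rw [hc] at n0
      simpa only [map_add, map_zsmul, smul_eq_mul, hα.hn, hβ.hn, he.hn] using n0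
    have hc1 : c1 = x * c2 := by linarith
    refine ⟨c2, c3, ?_⟩
    rw [hc, hc1]
    module
  obtain ⟨s, hs0, -, -, hxy, hrel⟩ := ty_rel b k hα hβ he hx hy le_rfl zero_le_one
  have h1 : s • a + (0 : ℤ) • z = (s1 + (x * y - 1) * s2) • a + (t1 + (x * y - 1) * t2) • z := by
    have h2 : s • a = (x • C.v α + C.v β) + (x * y - 1) • C.v e := by
      rw [hrel]
      module
    rw [h2, e1, e2]
    module
  obtain ⟨a1, a2⟩ := fr_uniq b F h1
  have h3 : 1 = t2 * o z := by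
    have h4 := congrArg o e2
    simpa only [map_add, map_zsmul, smul_eq_mul, he.ho, oa, mul_zero, zero_add] using h4
  have ht2 : 0 < t2 := by
    by_contra hcon
    push Not at hcon
    have := mul_nonpos_of_nonpos_of_nonneg hcon oz.le
    linarith
  have h5 : s * t2 = s1 * t2 - s2 * t1 := by
    rw [a1]
    linear_combination (-s2) * a2
  have h6 : 0 < s1 * t2 - s2 * t1 := by rw [← h5]; exact mul_pos hs0 ht2
  exact Dt1_unit b F e1 e2 hs ha na h6

end Pool.Agent.H19.P4
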