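import Pool.Agent.H19.P4.Dt1
import Pool.Agent.H19.P4.Dt2

/-!
Module Ed (row P4ED).  The edge equations.  Use `dt1`, `dt2`, `Fr.gen`, `fr_uniq`, `Fr.pos`, `ty_xy`, `Fr.swap`.
`edge_eq`.  Put `U1 = X1 v α1 + v β1`, `V1 = X1 v δ1 + v β1`, `U2 = X2 v α2 + v β2`, `V2 = X2 v δ2 + v β2`: all are killed by `h1` and `h2`.  `F.gen`: `U1 = s1 a + t1 z`, `V1 = σ1 a + th1 z`, `U2 = s2 a + t2 z`, `V2 = σ2 a + th2 z`.
  `g1 V1 = X1 q1 + 1 = th1 * g1 z`, `g1 z > 0` (`F.pos`): `th1 > 0`; `g1 U1 = 1 - X1 Y1 = t1 * g1 z`.  `g2 V2 = X2 q2 + 1 = th2 * g2 z`, `g2 U2 = 1 - X2 Y2 = t2 * g2 z`.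
  `dt1` at `h1`: `s1 th1 - σ1 t1 = X1`; `dt2`: `s1 th2 - σ2 t1 = 1`; `dt1` at `h2` (`F.swap`): `s2 th2 - σ2 t2 = X2`; `dt2` with the roles of 1 and 2 exchanged (`k2`, `k1`, `F.swap`): `s2 th1 - σ1 t2 = 1`.
  `sig := th2 σ1 - th1 σ2`: `th2 V1 = th1 V2 + sig a`.  `th2 X1 - th1 = th2 (s1 th1 - σ1 t1) - th1 (s1 th2 - σ2 t1) = - t1 sig`; times `g1 z`: `= sig (X1 Y1 - 1)`.  `th2 - th1 X2 = th2 (s2 th1 - σ1 t2) - th1 (s2 th2 - σ2 t2) = - t2 sig`; times `g2 z`.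
-/

set_option autoImplicit false
set_option linter.all false

namespace Pool.Agent.H19.P4

variable {ι Λ : Type} [DecidableEq ι] [AddCommGroup Λ] {C : Cf 4 ι Λ} {H : Finset (Λ →+ ℤ)} {a : Λ}

variable {h1 h2 g1 g2 : Λ →+ ℤ} {z : Λ}

theorem edge_eq (b : Bd C H a) (k1 : Nb H a h1 h2 g1) (k2 : Nb H a h2 h1 g2) (F : Fr H a h1 h2 z)
    {α1 β1 δ1 α2 β2 δ2 : ι} {X1 Y1 q1 X2 Y2 q2 : ℤ} (hα1 : Tp C h1 h2 g1 α1 1 (-Y1))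
    (hβ1 : Tp C h1 h2 g1 β1 (-X1) 1) (hδ1 : Tp C h1 h2 g1 δ1 1 q1)
    (hα2 : Tp C h2 h1 g2 α2 1 (-Y2)) (hβ2 : Tp C h2 h1 g2 β2 (-X2) 1)
    (hδ2 : Tp C h2 h1 g2 δ2 1 q2) (hX1 : 0 < X1) (hY1 : 0 < Y1) (hX2 : 0 < X2) (hY2 : 0 < Y2)
    (hq1 : 0 ≤ q1) (hq2 : 0 ≤ q2) :
    ∃ sig th1 th2 : ℤ, 0 < th1 ∧ 0 < th2 ∧ th1 * g1 z = 1 + X1 * q1 ∧ th2 * g2 z = 1 + X2 * q2 ∧
      th2 • (X1 • C.v δ1 + C.v β1) = th1 • (X2 • C.v δ2 + C.v β2) + sig • a ∧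
      (th2 * X1 - th1) * g1 z = sig * (X1 * Y1 - 1) ∧
      (th2 - th1 * X2) * g2 z = sig * (X2 * Y2 - 1) := by
  have hg1 : g1 a = 0 := (mem_IS.1 k1.ho.2.1).2
  have hg2 : g2 a = 0 := (mem_IS.1 k2.ho.2.1).2
  have hz1 : 0 < g1 z := F.pos g1 k1.ho.2.1 k1.ho.2.2.1.symm k1.ne.symm
  have hz2 : 0 < g2 z := F.pos g2 k2.ho.2.1 k2.ne.symm k2.ho.2.2.1.symm
  obtain ⟨s1, t1, eU1⟩ := F.gen (X1 • C.v α1 + C.v β1)
    (by rw [map_add, map_zsmul, hα1.h0, hβ1.h0]; simp)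
    (by rw [map_add, map_zsmul, hα1.hn, hβ1.hn]; simp)
  obtain ⟨σ1, th1, eV1⟩ := F.gen (X1 • C.v δ1 + C.v β1)
    (by rw [map_add, map_zsmul, hδ1.h0, hβ1.h0]; simp)
    (by rw [map_add, map_zsmul, hδ1.hn, hβ1.hn]; simp)
  obtain ⟨s2, t2, eU2⟩ := F.gen (X2 • C.v α2 + C.v β2)
    (by rw [map_add, map_zsmul, hα2.hn, hβ2.hn]; simp)
    (by rw [map_add, map_zsmul, hα2.h0, hβ2.h0]; simp)
  obtain ⟨σ2, th2, eV2⟩ := F.gen (X2 • C.v δ2 + C.v β2)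
    (by rw [map_add, map_zsmul, hδ2.hn, hβ2.hn]; simp)
    (by rw [map_add, map_zsmul, hδ2.h0, hβ2.h0]; simp)
  have d1 := dt1 b k1 F hα1 hβ1 hδ1 hX1 hY1 hq1 eU1 eV1
  have d2 := dt2 b k1 k2 F hα1 hβ1 hδ2 hβ2 hX1 hY1 hX2 hq2 eU1 eV2
  have d3 := dt1 b k2 F.swap hα2 hβ2 hδ2 hX2 hY2 hq2 eU2 eV2
  have d4 := dt2 b k2 k1 F.swap hα2 hβ2 hδ1 hβ1 hX2 hY2 hX1 hq1 eU2 eV1
  have u1 : X1 * -Y1 + 1 = t1 * g1 z := by
    have h := congrArg g1 eU1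
    rw [map_add, map_zsmul, hα1.ho, hβ1.ho, map_add, map_zsmul, map_zsmul, hg1] at h
    simpa only [smul_eq_mul, mul_zero, zero_add] using h
  have v1 : X1 * q1 + 1 = th1 * g1 z := by
    have h := congrArg g1 eV1
    rw [map_add, map_zsmul, hδ1.ho, hβ1.ho, map_add, map_zsmul, map_zsmul, hg1] at h
    simpa only [smul_eq_mul, mul_zero, zero_add] using h
  have u2 : X2 * -Y2 + 1 = t2 * g2 z := by
    have h := congrArg g2 eU2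
    rw [map_add, map_zsmul, hα2.ho, hβ2.ho, map_add, map_zsmul, map_zsmul, hg2] at h
    simpa only [smul_eq_mul, mul_zero, zero_add] using h
  have v2 : X2 * q2 + 1 = th2 * g2 z := by
    have h := congrArg g2 eV2
    rw [map_add, map_zsmul, hδ2.ho, hβ2.ho, map_add, map_zsmul, map_zsmul, hg2] at h
    simpa only [smul_eq_mul, mul_zero, zero_add] using h
  have p1 : 0 < th1 := by
    have h : 0 < th1 * g1 z := by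
      rw [← v1]
      have := mul_nonneg hX1.le hq1
      omega
    exact (mul_pos_iff_of_pos_right hz1).1 h
  have p2 : 0 < th2 := by
    have h : 0 < th2 * g2 z := by
      rw [← v2]
      have := mul_nonneg hX2.le hq2
      omega
    exact (mul_pos_iff_of_pos_right hz2).1 h
  refine ⟨th2 * σ1 - th1 * σ2, th1, th2, p1, p2, ?_, ?_, ?_, ?_, ?_⟩
  · rw [← v1]
    ring
  · rw [← v2]
    ring
  · rw [eV1, eV2, smul_add, smul_add, sub_smul, smul_smul, smul_smul, smul_smul, smul_smul,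
      mul_comm th1 th2]
    abel
  · linear_combination (-(g1 z) * th2) * d1 + (g1 z * th1) * d2 + (th2 * σ1 - th1 * σ2) * u1
  · linear_combination (-(g2 z) * th2) * d4 + (g2 z * th1) * d3 + (th2 * σ1 - th1 * σ2) * u2

end Pool.Agent.H19.P4
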