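import Pool.Agent.H19.P4.Bas

/-!
Module Fc (row P4FC).  The facets of the nef cone.  Use Bas.
`exists_fct`.  `Phi := C.B.biUnion (fun J => J.image (C.c J))` (`classical`).  Among the subsets `T ⊆ Phi` (`Phi.powerset`) with `P T : ∀ x, (∀ h ∈ T, 0 ≤ h x) → C.Nef x` take one with the fewest elements
  (`Phi` itself has `P`).  `H := T`; `sub` and `nef` are clear.  `wit`: let `h ∈ T`.  `T.erase h` does not have `P`: there is `x` with `0 ≤ g x` for `g ∈ T, g ≠ h`, and not `Nef x`; so `h x < 0` (else `P T`).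
  `y := h w • x + (- h x) • w`: `h y = 0`; for `g ∈ T`, `g ≠ h`: `g y = h w * g x + (- h x) * g w > 0` (`g w > 0` by `C.pos`).  For `ψ = c J k` arbitrary: `Nef y` (by `P T`), so `0 ≤ ψ y`.  Suppose `ψ y = 0`, we show `ψ = h`.
  Let `u ∈ Λ` with `h u = 0`.  `n := 1 + ∑_{g ∈ T} |g u|`.  `n y + u` and `n y - u` satisfy all inequalities of `T` (`h` of them is `0`; for `g ≠ h`: `n g y ± g u ≥ n ± g u ≥ 0`), so they are nef and `± ψ u ≥ 0`: `ψ u = 0`.
  So `ψ = 0` on `ker h`.  `h = c J0 k0` (by `T ⊆ Phi`), `e := v k0`, `h e = 1`: for all `x'`: `x' - h x' • e ∈ ker h`: `ψ x' = h x' * t`, `t := ψ e`.  `ψ (v k) = 1` gives `t ∣ 1`, and `ψ w = h w * t > 0` gives `t > 0`: `t = 1`, `ψ = h`.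
-/

set_option autoImplicit false
set_option linter.all false

namespace Pool.Agent.H19.P4

variable {ρ : ℕ} {ι Λ : Type} [DecidableEq ι] [AddCommGroup Λ]

/-- a nonnegative divisor argument: if `ψ` vanishes on the kernel of `h` and both have the value one somewhere -/
private theorem Fc_eq {h ψ : Λ →+ ℤ} {e e' w : Λ} (he : h e = 1) (he' : ψ e' = 1) (hw : 0 < h w)
    (hψ : 0 < ψ w) (hk : ∀ u, h u = 0 → ψ u = 0) : ψ = h := by
  have h1 : ∀ x, ψ x = h x * ψ e := by
    intro x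
    have h2 : h (x - h x • e) = 0 := by
      rw [map_sub, map_zsmul, he, smul_eq_mul, mul_one, sub_self]
    have h3 := hk _ h2
    rw [map_sub, map_zsmul, smul_eq_mul, sub_eq_zero] at h3
    exact h3
  have h4 : ψ e ∣ 1 := ⟨h e', by rw [← he', h1 e', mul_comm]⟩
  have h5 : 0 < ψ e := by
    have := h1 w
    rw [this] at hψ
    exact (pos_iff_pos_of_mul_pos hψ).1 hw
  have h6 : ψ e = 1 := by
    rcases Int.isUnit_iff.1 (isUnit_of_dvd_one h4) with h | h
    · exact h
    · omega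
  ext x
  rw [h1 x, h6, mul_one]

theorem exists_fct (C : Cf ρ ι Λ) : ∃ H : Finset (Λ →+ ℤ), Fct C H := by
  classical
  obtain ⟨Phi, hPhi⟩ : ∃ Phi : Finset (Λ →+ ℤ), Phi = C.B.biUnion (fun J => J.image (C.c J)) :=
    ⟨_, rfl⟩
  have memPhi : ∀ h, h ∈ Phi ↔ ∃ J ∈ C.B, ∃ k ∈ J, h = C.c J k := by
    intro h
    simp only [hPhi, Finset.mem_biUnion, Finset.mem_image]
    constructor
    · rintro ⟨J, hJ, k, hk, rfl⟩
      exact ⟨J, hJ, k, hk, rfl⟩
    · rintro ⟨J, hJ, k, hk, rfl⟩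
      exact ⟨J, hJ, k, hk, rfl⟩
  have hPPhi : ∀ x, (∀ h ∈ Phi, 0 ≤ h x) → C.Nef x := fun x hx J hJ k hk =>
    hx _ ((memPhi _).2 ⟨J, hJ, k, hk, rfl⟩)
  obtain ⟨T, hT, hmin⟩ := Finset.exists_min_image
    (Phi.powerset.filter (fun T => ∀ x, (∀ h ∈ T, 0 ≤ h x) → C.Nef x)) Finset.card
    ⟨Phi, by
      rw [Finset.mem_filter, Finset.mem_powerset]
      exact ⟨Finset.Subset.refl _, hPPhi⟩⟩
  rw [Finset.mem_filter, Finset.mem_powerset] at hT
  obtain ⟨hTsub, hTP⟩ := hT
  have hTw : ∀ g ∈ T, 0 < g C.w := by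
    intro g hg
    obtain ⟨J, hJ, k, hk, rfl⟩ := (memPhi g).1 (hTsub hg)
    exact C.pos J hJ k hk
  refine ⟨T, ⟨fun h hh => (memPhi h).1 (hTsub hh), hTP, ?_⟩⟩
  intro h hh
  have hne : ¬ ∀ x, (∀ g ∈ T.erase h, 0 ≤ g x) → C.Nef x := by
    intro hcon
    have h1 := hmin (T.erase h) (by
      rw [Finset.mem_filter, Finset.mem_powerset]
      exact ⟨(Finset.erase_subset _ _).trans hTsub, hcon⟩)
    have h2 := Finset.card_erase_lt_of_mem hh
    omega
  push Not at hne
  obtain ⟨x, hx, hxn⟩ := hne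
  have hhx : h x < 0 := by
    by_contra hcon
    push Not at hcon
    apply hxn
    apply hTP
    intro g hg
    by_cases hgh : g = h
    · rw [hgh]
      exact hcon
    · exact hx g (Finset.mem_erase.2 ⟨hgh, hg⟩)
  have hw := hTw h hh
  obtain ⟨y, hy⟩ : ∃ y, y = h C.w • x + (- h x) • C.w := ⟨_, rfl⟩
  have hy0 : h y = 0 := by
    rw [hy, map_add, map_zsmul, map_zsmul, smul_eq_mul, smul_eq_mul]
    ring
  have hyg : ∀ g ∈ T, g ≠ h → 0 < g y := by
    intro g hg hgh
    have h1 := hx g (Finset.mem_erase.2 ⟨hgh, hg⟩)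
    have h2 := hTw g hg
    rw [hy, map_add, map_zsmul, map_zsmul, smul_eq_mul, smul_eq_mul]
    have h3 : 0 ≤ h C.w * g x := mul_nonneg hw.le h1
    have h4 : 0 < (- h x) * g C.w := mul_pos (by omega) h2
    omega
  refine ⟨y, hy0, ?_⟩
  intro J hJ k hk hne
  have hynef : C.Nef y := by
    apply hTP
    intro g hg
    by_cases hgh : g = h
    · rw [hgh, hy0]
    · exact (hyg g hg hgh).le
  rcases (hynef J hJ k hk).eq_or_lt with hz | hz
  · exfalso
    apply hne
    obtain ⟨J0, hJ0, k0, hk0, hh0⟩ := (memPhi h).1 (hTsub hh)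
    apply Fc_eq (e := C.v k0) (e' := C.v k) (w := C.w)
    · rw [hh0]
      exact C.self hJ0 hk0
    · exact C.self hJ hk
    · exact hw
    · exact C.pos J hJ k hk
    · intro u hu
      obtain ⟨n, hn⟩ : ∃ n : ℤ, n = 1 + ∑ g ∈ T, |g u| := ⟨_, rfl⟩
      have hgn : ∀ g ∈ T, |g u| ≤ n := by
        intro g hg
        have h1 : |g u| ≤ ∑ g ∈ T, |g u| :=
          Finset.single_le_sum (f := fun g : Λ →+ ℤ => |g u|) (fun i _ => abs_nonneg _) hg
        omega
      have hn0 : 0 ≤ n := by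
        have : 0 ≤ ∑ g ∈ T, |g u| := Finset.sum_nonneg fun i _ => abs_nonneg _
        omega
      have hboth : ∀ s : ℤ, (s = 1 ∨ s = -1) → C.Nef (n • y + s • u) := by
        intro s hs
        apply hTP
        intro g hg
        rw [map_add, map_zsmul, map_zsmul, smul_eq_mul, smul_eq_mul]
        by_cases hgh : g = h
        · rw [hgh, hy0, hu]
          simp
        · have h1 := hyg g hg hgh
          have h2 := hgn g hg
          have h3 : n ≤ n * g y := by nlinarith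
          have h4 := abs_le.1 h2
          rcases hs with rfl | rfl
          · omega
          · omega
      have h1 := hboth 1 (Or.inl rfl) J hJ k hk
      have h2 := hboth (-1) (Or.inr rfl) J hJ k hk
      rw [map_add, map_zsmul, map_zsmul, smul_eq_mul, smul_eq_mul, ← hz, mul_zero] at h1 h2
      omega
  · exact hz

end Pool.Agent.H19.P4
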