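import Pool.Agent.H19.P4.Lp

/-!
Module Lp (row P4LP).  Linear programming on a configuration.  Use Bas.
`lp`.  Take `J ∈ B` minimising `θ^J := ∑ k ∈ J, c J k x * θ k` (`Finset.exists_min_image`).  Suppose `∑ s f θ f < θ^J`.  As `x = ∑ s f v f`, for `k ∈ J`:
  `c J k x = ∑_{f ∈ F} s f c J k (v f) = s k + ∑_{f ∈ F \ J} s f c J k (v f)`.  Hence `∑_{f ∈ F} s f θ f - θ^J = ∑_{f ∈ F \ J} s f (θ f - ∑_{l ∈ J} c J l (v f) θ l) < 0`, so some
  `f ∈ F \ J` has rate `R := θ f - ∑_{l ∈ J} c J l (v f) θ l < 0` (as `s f ≥ 0`).  `C.piv`: `k ∈ J`, `J' = insert f (J.erase k) ∈ B`.  By `piv_new`, `piv_old`, `piv_one` (`c J k (v f) = 1`):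
  `θ^{J'} = c J k x * θ f + ∑_{l ∈ J, l ≠ k} (c J l x - c J l (v f) c J k x) θ l = θ^J + c J k x * R < θ^J` (`c J k x > 0`): contradiction.
`cp`.  `n := M * (1 + ∑_{j ∈ J'} |r j|)`, `x := (N * n * M) • a + (M * N) • w`: `Amp` (`Nef.smul`, `Amp.smul`, `Nef.add_amp`), and `x = ∑_{j ∈ J'} (N * n * c j + M * r j) • v j`, all coefficients positive
  (if `c j > 0`: `N n c j ≥ n ≥ M + M |r j|`; if `c j = 0`: `M r j > 0`).  Apply `lp` with `s j` = this coefficient on `J'`, `0` elsewhere, and `θ = 0` on `J'`, `1` elsewhere: the right side is `0`, so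
  `∑_{k ∈ J \ J'} c J k x ≤ 0` and all terms are positive: `J ⊆ J'`.  If `j ∈ J' \ J`: `v j = ∑_{k ∈ J} c J k (v j) v k` (`C.exp`) is a nontrivial relation on `J'`, contradiction to `hind`.  So `J' = J ∈ B`.
`lp2`.  Suppose `∑ s f θ f < ∑_{k ∈ J} c J k a θ k` for every `J ∈ B` (by_contra).  Fix `J0 ∈ B`, `E J := ∑_{k ∈ J0} c J0 k w θ k - ∑_{k ∈ J} c J k w θ k`, `n := 1 + ∑_{J ∈ B} |E J|`.  Apply `lp` to `x = n • a + w` (`Amp`),
  `s' f = n * s f + (if f ∈ J0 then c J0 f w else 0)`: get `J` with `n (∑_{J} c J k a θ k) + ∑_J c J k w θ k ≤ n ∑ s f θ f + ∑_{J0} c J0 k w θ k`, so `n ≤ n * (difference ≥ 1) ≤ E J < n`.  Contradiction.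
`pos_comb`.  If `s ≤ 0`: `a = ∑_{k ∈ J} c J k a v k` for a `J ∈ B`; `r' f := r f + (-s) * (if f ∈ J then c J f a else 0) ≥ 0` has `∑ r' f v f = s a - s a = 0`; `C.pt` gives `r' = 0`, so `r f0 = 0`, contradiction.
`pos4`: `pos_comb` with `r f := (if f = f1 then r1 else 0) + (if f = f2 then r2 else 0) + ...` (`Finset.sum_add_distrib`, `Finset.sum_ite_eq'`, ...).
-/

set_option autoImplicit false
set_option linter.all false

namespace Pool.Agent.H19.P4

variable {ρ : ℕ} {ι Λ : Type} [DecidableEq ι] [AddCommGroup Λ]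

theorem Lp2_sum (C : Cf ρ ι Λ) {J : Finset ι} (hJ : J ∈ C.B) (g : ι → ℤ) :
    ∑ f ∈ C.F, (if f ∈ J then g f else 0) = ∑ f ∈ J, g f := by
  rw [Finset.sum_ite_mem, Finset.inter_eq_right.2 (C.sub J hJ)]

theorem Lp2_vec (C : Cf ρ ι Λ) {J : Finset ι} (hJ : J ∈ C.B) (x : Λ) :
    ∑ f ∈ C.F, (if f ∈ J then C.c J f x else 0) • C.v f = x := by
  have h : ∀ f ∈ C.F, (if f ∈ J then C.c J f x else 0) • C.v f =
      if f ∈ J then C.c J f x • C.v f else 0 := by
    intro f _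
    split_ifs
    · rfl
    · rw [zero_smul]
  rw [Finset.sum_congr rfl h, Finset.sum_ite_mem, Finset.inter_eq_right.2 (C.sub J hJ)]
  exact C.exp J hJ x

theorem Lp2_one (C : Cf ρ ι Λ) {f0 : ι} (hf : f0 ∈ C.F) (r : ℤ) :
    ∑ f ∈ C.F, (if f = f0 then r else 0) • C.v f = r • C.v f0 := by
  rw [Finset.sum_eq_single f0]
  · rw [if_pos rfl]
  · intro f _ hne
    rw [if_neg hne, zero_smul]
  · intro h
    exact absurd hf h

theorem lp2 (C : Cf ρ ι Λ) {a : Λ} (ha : C.Nef a) (s θ : ι → ℤ) (hs : ∀ f ∈ C.F, 0 ≤ s f)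
    (hsa : ∑ f ∈ C.F, s f • C.v f = a) :
    ∃ J ∈ C.B, ∑ k ∈ J, C.c J k a * θ k ≤ ∑ f ∈ C.F, s f * θ f := by
  by_contra hcon
  push Not at hcon
  obtain ⟨J0, hJ0⟩ := C.ne
  obtain ⟨E, hE⟩ : ∃ E : Finset ι → ℤ, E = fun J =>
    ∑ k ∈ J0, C.c J0 k C.w * θ k - ∑ k ∈ J, C.c J k C.w * θ k := ⟨_, rfl⟩
  obtain ⟨n, hn⟩ : ∃ n : ℤ, n = 1 + ∑ J ∈ C.B, |E J| := ⟨_, rfl⟩
  have hs0 : 0 ≤ ∑ J ∈ C.B, |E J| := Finset.sum_nonneg fun J _ => abs_nonneg _
  have hn0 : 0 < n := by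
    rw [hn]
    linarith
  have hx : C.Amp (n • a + C.w) := (ha.smul hn0.le).add_amp C.amp_w
  obtain ⟨J, hJ, h1⟩ := lp C hx (fun f => n * s f + if f ∈ J0 then C.c J0 f C.w else 0) θ
    (fun f hf => by
      have h2 := mul_nonneg hn0.le (hs f hf)
      have h3 : 0 ≤ (if f ∈ J0 then C.c J0 f C.w else 0) := by
        split_ifs with h4
        · exact (C.pos J0 hJ0 f h4).le
        · exact le_rfl
      exact add_nonneg h2 h3)
    (by
      have h2 : ∀ f ∈ C.F, (n * s f + if f ∈ J0 then C.c J0 f C.w else 0) • C.v f =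
          n • (s f • C.v f) + (if f ∈ J0 then C.c J0 f C.w else 0) • C.v f := by
        intro f _
        rw [add_smul, mul_smul]
      rw [Finset.sum_congr rfl h2, Finset.sum_add_distrib, ← Finset.smul_sum, hsa,
        Lp2_vec C hJ0])
  have e1 : ∑ k ∈ J, C.c J k (n • a + C.w) * θ k =
      n * ∑ k ∈ J, C.c J k a * θ k + ∑ k ∈ J, C.c J k C.w * θ k := by
    rw [Finset.mul_sum, ← Finset.sum_add_distrib]
    refine Finset.sum_congr rfl fun k _ => ?_
    rw [map_add, map_zsmul, smul_eq_mul]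
    ring
  have e2 : ∑ f ∈ C.F, (n * s f + if f ∈ J0 then C.c J0 f C.w else 0) * θ f =
      n * ∑ f ∈ C.F, s f * θ f + ∑ k ∈ J0, C.c J0 k C.w * θ k := by
    rw [← Lp2_sum C hJ0, Finset.mul_sum, ← Finset.sum_add_distrib]
    refine Finset.sum_congr rfl fun f _ => ?_
    split_ifs <;> ring
  try simp only at h1
  rw [e1, e2] at h1
  have h3 := hcon J hJ
  have h4 : |E J| ≤ ∑ J ∈ C.B, |E J| :=
    Finset.single_le_sum (f := fun J => |E J|) (fun J _ => abs_nonneg _) hJ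
  have h5 := le_abs_self (E J)
  have h6 : E J = ∑ k ∈ J0, C.c J0 k C.w * θ k - ∑ k ∈ J, C.c J k C.w * θ k := by rw [hE]
  have h7 : n * 1 ≤ n * (∑ k ∈ J, C.c J k a * θ k - ∑ f ∈ C.F, s f * θ f) :=
    mul_le_mul_of_nonneg_left (by linarith) hn0.le
  rw [mul_sub] at h7
  linarith

theorem pos_comb (C : Cf ρ ι Λ) {a : Λ} (ha : C.Nef a) {r : ι → ℤ} (hr : ∀ f ∈ C.F, 0 ≤ r f)
    {f0 : ι} (hf0 : f0 ∈ C.F) (hr0 : 0 < r f0) {s : ℤ} (h : ∑ f ∈ C.F, r f • C.v f = s • a) :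
    0 < s := by
  by_contra hcon
  push Not at hcon
  obtain ⟨J, hJ⟩ := C.ne
  have hnn : ∀ f, 0 ≤ (if f ∈ J then C.c J f a else 0) := by
    intro f
    split_ifs with h4
    · exact ha J hJ f h4
    · exact le_rfl
  have h1 := C.pt (fun f => r f + (-s) * (if f ∈ J then C.c J f a else 0))
    (fun f hf => add_nonneg (hr f hf) (mul_nonneg (by linarith) (hnn f)))
    (by
      have h2 : ∀ f ∈ C.F, (r f + (-s) * (if f ∈ J then C.c J f a else 0)) • C.v f =
          r f • C.v f + (-s) • ((if f ∈ J then C.c J f a else 0) • C.v f) := by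
        intro f _
        rw [add_smul, mul_smul]
      rw [Finset.sum_congr rfl h2, Finset.sum_add_distrib, ← Finset.smul_sum, Lp2_vec C hJ, h,
        neg_smul, add_neg_cancel]) f0 hf0
  have h3 := mul_nonneg (a := -s) (by linarith) (hnn f0)
  try simp only at h1
  linarith

theorem pos4 (C : Cf ρ ι Λ) {a : Λ} (ha : C.Nef a) {f1 f2 f3 f4 : ι} (h1 : f1 ∈ C.F)
    (h2 : f2 ∈ C.F) (h3 : f3 ∈ C.F) (h4 : f4 ∈ C.F) {r1 r2 r3 r4 s : ℤ} (p1 : 0 < r1)
    (p2 : 0 ≤ r2) (p3 : 0 ≤ r3) (p4 : 0 ≤ r4)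
    (h : r1 • C.v f1 + r2 • C.v f2 + r3 • C.v f3 + r4 • C.v f4 = s • a) : 0 < s := by
  refine pos_comb C ha (r := fun f => (if f = f1 then r1 else 0) + (if f = f2 then r2 else 0) +
    (if f = f3 then r3 else 0) + (if f = f4 then r4 else 0)) (f0 := f1) ?_ h1 ?_ (s := s) ?_
  · intro f _
    have e1 : 0 ≤ (if f = f1 then r1 else 0) := by split_ifs <;> linarith
    have e2 : 0 ≤ (if f = f2 then r2 else 0) := by split_ifs <;> linarith
    have e3 : 0 ≤ (if f = f3 then r3 else 0) := by split_ifs <;> linarith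
    have e4 : 0 ≤ (if f = f4 then r4 else 0) := by split_ifs <;> linarith
    try simp only
    linarith
  · have e2 : 0 ≤ (if f1 = f2 then r2 else 0) := by split_ifs <;> linarith
    have e3 : 0 ≤ (if f1 = f3 then r3 else 0) := by split_ifs <;> linarith
    have e4 : 0 ≤ (if f1 = f4 then r4 else 0) := by split_ifs <;> linarith
    simp only [if_true]
    linarith
  · have e : ∀ f ∈ C.F, ((if f = f1 then r1 else 0) + (if f = f2 then r2 else 0) +
        (if f = f3 then r3 else 0) + (if f = f4 then r4 else 0)) • C.v f =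
        (if f = f1 then r1 else 0) • C.v f + (if f = f2 then r2 else 0) • C.v f +
        (if f = f3 then r3 else 0) • C.v f + (if f = f4 then r4 else 0) • C.v f := by
      intro f _
      rw [add_smul, add_smul, add_smul]
    rw [Finset.sum_congr rfl e, Finset.sum_add_distrib, Finset.sum_add_distrib,
      Finset.sum_add_distrib, Lp2_one C h1, Lp2_one C h2, Lp2_one C h3, Lp2_one C h4]
    exact h

end Pool.Agent.H19.P4
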