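import Pool.Agent.H19.P4.L1
import Pool.Agent.H19.P4.Lp2

/-!
Module Op (row P4OP).  Opposite pairs.  Use Bas, `lp2`, `pos4`, `Fct.le_one`.
`op`.  `s > 0` by `pos4` (`f1 = f`, `f2 = g`, `r3 = r4 = 0`).  `lp2` for the nef class `s • a = ∑ s' v`, `s' f = l`, `s' g = m`, `0` elsewhere, and `θ = 0` at `f, g`, `θ = 1` elsewhere: `J ∈ B` with `∑_{k ∈ J} c J k (s • a) θ k ≤ 0`; all terms
  are `≥ 0`, so `c J k a = 0` for `k ∈ J`, `k ≠ f, g`.  `a = ∑_{k ∈ J} c J k a • v k`.  If `f ∉ J` or `g ∉ J` then `a = 0` or `a = c • v f'` with `f' ∈ {f, g}`, `c ≠ 0`: by `hst` some `h ∈ IS H a` has `h (v f') > 0`, but `0 = h a = c * h (v f')`,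
  contradiction.  So `f, g ∈ J`, `a = c • v f + c' • v g`, `c = c J f a ≥ 0`, `c' = c J g a ≥ 0`, and as before `c, c' > 0`.  `hst f`: `h ∈ IS H a`, `h (v f) = 1` (`> 0` and `≤ 1`): `0 = h a = c + c' * h (v g)`: `c' ∣ c`, `c = c' * m'`,
  `a = c' • (m' • v f + v g)`, so `c' = 1` by `hprim` (`c' > 0`).  In the same way `c = 1`.
-/

set_option autoImplicit false
set_option linter.all false

namespace Pool.Agent.H19.P4

variable {ρ : ℕ} {ι Λ : Type} [DecidableEq ι] [AddCommGroup Λ]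

theorem Op_dec (C : Cf ρ ι Λ) {a : Λ} {J : Finset ι} (hJ : J ∈ C.B) {f g : ι} (hfg : f ≠ g)
    (h0 : ∀ k ∈ J, k ≠ f → k ≠ g → C.c J k a = 0) :
    a = (if f ∈ J then C.c J f a else 0) • C.v f + (if g ∈ J then C.c J g a else 0) • C.v g := by
  have h1 : ∀ k ∈ J, C.c J k a • C.v k =
      (if k = f then C.c J f a • C.v f else 0) + (if k = g then C.c J g a • C.v g else 0) := by
    intro k hk
    by_cases hkf : k = f
    · subst hkf
      rw [if_pos rfl, if_neg hfg, add_zero]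
    · by_cases hkg : k = g
      · subst hkg
        rw [if_neg hkf, if_pos rfl, zero_add]
      · rw [if_neg hkf, if_neg hkg, h0 k hk hkf hkg, zero_smul, add_zero]
  have h2 := C.exp J hJ a
  rw [Finset.sum_congr rfl h1, Finset.sum_add_distrib, Finset.sum_ite_eq', Finset.sum_ite_eq'] at h2
  conv_lhs => rw [← h2]
  congr 1
  · split_ifs
    · rfl
    · rw [zero_smul]
  · split_ifs
    · rfl
    · rw [zero_smul]

theorem Op_one (C : Cf ρ ι Λ) {H : Finset (Λ →+ ℤ)} (hH : Fct C H) {a : Λ} (hne : a ≠ 0)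
    (hprim : ∀ (n : ℤ) (x : Λ), a = n • x → n = 1 ∨ n = -1)
    (hst : ∀ f ∈ C.F, ∃ h ∈ IS H a, 0 < h (C.v f)) {f g : ι} (hf : f ∈ C.F) (hg : g ∈ C.F)
    {cf cg : ℤ} (h0 : 0 ≤ cg) (h : a = cf • C.v f + cg • C.v g) : cg = 1 := by
  obtain ⟨k, hk, hpos⟩ := hst f hf
  have hk' := mem_IS.1 hk
  have h1 := hH.le_one hk'.1 hf
  have h2 : k (C.v f) = 1 := by omega
  have h3 := hk'.2
  rw [h, map_add, map_zsmul, map_zsmul, h2, smul_eq_mul, smul_eq_mul, mul_one] at h3
  have h4 : cf = cg * (-k (C.v g)) := by linarith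
  have h5 : a = cg • ((-k (C.v g)) • C.v f + C.v g) := by
    rw [smul_add, ← mul_smul, ← h4]
    exact h
  rcases hprim _ _ h5 with h6 | h6
  · exact h6
  · omega

theorem op (C : Cf ρ ι Λ) {H : Finset (Λ →+ ℤ)} (hH : Fct C H) {a : Λ} (ha : C.Nef a) (hne : a ≠ 0)
    (hprim : ∀ (n : ℤ) (x : Λ), a = n • x → n = 1 ∨ n = -1)
    (hst : ∀ f ∈ C.F, ∃ h ∈ IS H a, 0 < h (C.v f)) {f g : ι} (hf : f ∈ C.F) (hg : g ∈ C.F)
    (hfg : f ≠ g) {l m s : ℤ} (hl : 0 < l) (hm : 0 < m)
    (h : l • C.v f + m • C.v g = s • a) : C.v f + C.v g = a := by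
  have hs : 0 < s := by
    refine pos4 C ha hf hg hf hf (r3 := 0) (r4 := 0) hl hm.le le_rfl le_rfl (s := s) ?_
    rw [zero_smul, add_zero, add_zero]
    exact h
  obtain ⟨J, hJ, h1⟩ := lp2 C (ha.smul hs.le) (fun x => if x = f then l else if x = g then m else 0)
    (fun x => if x = f then 0 else if x = g then 0 else 1)
    (fun x _ => by
      try simp only
      split_ifs
      · exact hl.le
      · exact hm.le
      · exact le_rfl)
    (by
      have h2 : ∀ x ∈ C.F, (if x = f then l else if x = g then m else 0) • C.v x =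
          (if x = f then l else 0) • C.v x + (if x = g then m else 0) • C.v x := by
        intro x _
        by_cases hx : x = f
        · rw [if_pos hx, if_pos hx, if_neg (fun e => hfg (hx.symm.trans e)), zero_smul, add_zero]
        · rw [if_neg hx, if_neg hx, zero_smul, zero_add]
      rw [Finset.sum_congr rfl h2, Finset.sum_add_distrib, Lp2_one C hf, Lp2_one C hg]
      exact h)
  have h2 : ∑ x ∈ C.F, (if x = f then l else if x = g then m else 0) *
      (if x = f then (0 : ℤ) else if x = g then 0 else 1) = 0 := by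
    refine Finset.sum_eq_zero fun x _ => ?_
    split_ifs <;> simp
  try simp only at h1
  rw [h2] at h1
  have h3 : ∀ k ∈ J, 0 ≤ C.c J k (s • a) * (if k = f then (0 : ℤ) else if k = g then 0 else 1) := by
    intro k hk
    refine mul_nonneg (ha.smul hs.le J hJ k hk) ?_
    split_ifs <;> norm_num
  have h4 := (Finset.sum_eq_zero_iff_of_nonneg h3).1 (le_antisymm h1 (Finset.sum_nonneg h3))
  have h5 : ∀ k ∈ J, k ≠ f → k ≠ g → C.c J k a = 0 := by
    intro k hk hkf hkg
    have h6 := h4 k hk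
    rw [if_neg hkf, if_neg hkg, mul_one, map_zsmul, smul_eq_mul] at h6
    exact (mul_eq_zero.1 h6).resolve_left hs.ne'
  have h6 := Op_dec C hJ hfg h5
  have hcf : 0 ≤ (if f ∈ J then C.c J f a else 0) := by
    split_ifs with h7
    · exact ha J hJ f h7
    · exact le_rfl
  have hcg : 0 ≤ (if g ∈ J then C.c J g a else 0) := by
    split_ifs with h7
    · exact ha J hJ g h7
    · exact le_rfl
  have h7 := Op_one C hH hne hprim hst hf hg hcg h6
  have h8 := Op_one C hH hne hprim hst hg hf hcf (by rw [add_comm]; exact h6)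
  rw [h7, h8, one_smul, one_smul] at h6
  exact h6.symm

end Pool.Agent.H19.P4
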