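import Pool.Agent.H19.P4.Rk4
import Pool.Agent.H19.P4.A3
import Pool.Agent.H19.P4.Op
import Pool.Agent.H19.P4.Fc

/-!
Module ThA (row P4TA).  Theorem A.  Use `exists_fct`, `Fct.le_one`, `Fct.nn`, `a3`, `op`, `no_bd`.
`exists_prim`.  `J ∈ B`; some `k ∈ J` has `c J k a ≠ 0` (else `a = 0`, `C.exp`).  For `p ≥ 1` with `a = p x`: `p ∣ c J k a`, so `p ≤ |c J k a|`.  Take the largest `p ≥ 1` such that `∃ x, a = p • x` (`p = 1` works; `Nat.findGreatest` or `Nat.find` of the complement).  If `x = n • y`: `n ≠ 0`; `a = (p |n|) • (± y)`, so `|n| = 1`.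
`thmA`.  Suppose not: (N) for every nonempty `S ⊆ F`, `a - ∑_S v` is not nef.  `a = p • a0` (`exists_prim`), `p > 0`; `a0` is nef (`C.nef_of_smul`), `≠ 0`.  `H` from `exists_fct`.  `h a = 0 ↔ h a0 = 0`.
  `hst`: for `f ∈ F` there is `h ∈ IS H a0` with `h (v f) > 0`: by (N) with `S = {f}`, `a - v f` is not nef, so (`hH.nef`) some `h ∈ H` has `h a - h (v f) < 0`; `h a ≥ 0` and `h (v f) ≤ 1`: `h a = 0`, `h (v f) > 0`.
  `ρ ≤ 3`: `a3`.  `ρ = 4` (subst): `Bd C H a0`: `nop`: if `l v f + m v g = s a0`, `f ≠ g`, `l, m > 0`: `op`: `v f + v g = a0`; then `a - (v f + v g) = (p - 1) • a0` is nef (`Nef.smul`), contradiction to (N) with `S = {f, g}` (`Finset.sum_pair`).  `no_bd`.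
-/

set_option autoImplicit false
set_option linter.all false

namespace Pool.Agent.H19.P4

variable {ρ : ℕ} {ι Λ : Type} [DecidableEq ι] [AddCommGroup Λ]

theorem exists_prim (C : Cf ρ ι Λ) {a : Λ} (hne : a ≠ 0) : ∃ (p : ℤ) (x : Λ), 0 < p ∧ a = p • x ∧
    ∀ (n : ℤ) (y : Λ), x = n • y → n = 1 ∨ n = -1 := by
  classical
  obtain ⟨J, hJ⟩ := C.ne
  have hk : ∃ k ∈ J, C.c J k a ≠ 0 := by
    by_contra hcon
    push Not at hcon
    apply hne
    apply C.ext hJ
    intro k hk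
    rw [hcon k hk, map_zero]
  obtain ⟨k, hk, hka⟩ := hk
  set N : ℕ := (C.c J k a).natAbs with hN
  have hNpos : 0 < N := Int.natAbs_pos.2 hka
  set P : ℕ → Prop := fun n => ∃ x : Λ, a = (n : ℤ) • x with hP
  have hb : ∀ n : ℕ, P n → n ≤ N := by
    rintro n ⟨x, hx⟩
    have h1 : (n : ℤ) ∣ C.c J k a := by
      rw [hx, map_zsmul, smul_eq_mul]
      exact Dvd.intro _ rfl
    have h2 : n ∣ N := by
      rw [hN]
      exact Int.natCast_dvd.1 h1
    exact Nat.le_of_dvd hNpos h2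
  have hP1 : P 1 := ⟨a, by simp⟩
  set m := Nat.findGreatest P N with hm
  have hmP : P m := Nat.findGreatest_spec (P := P) (hb 1 hP1) hP1
  have hm1 : 1 ≤ m := Nat.le_findGreatest (hb 1 hP1) hP1
  obtain ⟨x, hx⟩ := hmP
  refine ⟨m, x, by omega, hx, ?_⟩
  intro n y hy
  have hn0 : n ≠ 0 := by
    rintro rfl
    apply hne
    rw [hx, hy]
    simp
  have hP2 : P (m * n.natAbs) := by
    refine ⟨n.sign • y, ?_⟩
    rw [hx, hy, smul_smul, smul_smul]
    congr 1
    push_cast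
    rw [mul_assoc]
    congr 1
    rw [mul_comm, Int.sign_mul_abs]
  have h3 : m * n.natAbs ≤ m := Nat.le_findGreatest (hb _ hP2) hP2
  have h4 : n.natAbs ≤ 1 := by
    by_contra hcon
    push Not at hcon
    have : m * 2 ≤ m * n.natAbs := Nat.mul_le_mul_left m hcon
    omega
  omega

theorem thmA (C : Cf ρ ι Λ) (hρ : ρ ≤ 4) {a : Λ} (ha : C.Nef a) (hne : a ≠ 0) :
    ∃ S ⊆ C.F, S.Nonempty ∧ C.Nef (a - ∑ f ∈ S, C.v f) := by
  classical
  by_contra hN
  push Not at hN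
  obtain ⟨p, a0, hp, hpa, hprim⟩ := exists_prim C hne
  have ha0 : C.Nef a0 := C.nef_of_smul hp (by rw [← hpa]; exact ha)
  have hne0 : a0 ≠ 0 := by
    rintro rfl
    apply hne
    rw [hpa, smul_zero]
  obtain ⟨H, hH⟩ := exists_fct C
  have hst : ∀ f ∈ C.F, ∃ h ∈ IS H a0, 0 < h (C.v f) := by
    intro f hf
    have h1 : ¬ C.Nef (a - ∑ g ∈ ({f} : Finset ι), C.v g) :=
      hN {f} (Finset.singleton_subset_iff.2 hf) (Finset.singleton_nonempty f)
    rw [Finset.sum_singleton] at h1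
    have h2 : ¬ ∀ h ∈ H, 0 ≤ h (a - C.v f) := fun h3 => h1 (hH.nef _ h3)
    push Not at h2
    obtain ⟨h, hh, h3⟩ := h2
    rw [map_sub] at h3
    have h4 : 0 ≤ h a := hH.nn hh ha
    have h5 : h (C.v f) ≤ 1 := hH.le_one hh hf
    have h6 : h a = 0 := by omega
    have h7 : 0 < h (C.v f) := by omega
    refine ⟨h, mem_IS.2 ⟨hh, ?_⟩, h7⟩
    rw [hpa, map_zsmul, smul_eq_mul] at h6
    rcases mul_eq_zero.1 h6 with h8 | h8
    · omega
    · exact h8
  rcases Nat.lt_or_ge ρ 4 with hlt | hge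
  · exact a3 C (by omega) hH ha0 hne0 hst
  · have h4 : ρ = 4 := le_antisymm hρ hge
    subst h4
    refine no_bd (C := C) (H := H) (a := a0) ⟨hH, ha0, hne0, hprim, hst, ?_⟩
    intro f hf g hg hfg l m s hl hm heq
    have h5 : C.v f + C.v g = a0 := op C hH ha0 hne0 hprim hst hf hg hfg hl hm heq
    refine hN {f, g} ?_ ⟨f, by simp⟩ ?_
    · intro x hx
      rcases Finset.mem_insert.1 hx with h | h
      · rw [h]; exact hf
      · rw [Finset.mem_singleton.1 h]; exact hg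
    · rw [Finset.sum_pair hfg, h5, hpa]
      have h6 : p • a0 - a0 = (p - 1) • a0 := by rw [sub_smul, one_smul]
      rw [h6]
      exact Cf.Nef.smul ha0 (by omega)

end Pool.Agent.H19.P4
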