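import Pool.Agent.H19.P4.Pv

/-!
Ghosts: `f` is in all bases, `h = c J₀ f`.  The configuration in the kernel of `h`.
-/

set_option autoImplicit false
set_option linter.all false

namespace Pool.Agent.H19.P4

variable {ρ : ℕ} {ι Λ : Type} [DecidableEq ι] [AddCommGroup Λ]

/-- the bases with coordinate `h` at `f` -/
noncomputable def Cf.Bh (C : Cf ρ ι Λ) (f : ι) (h : Λ →+ ℤ) : Finset (Finset ι) :=
  @Finset.filter _ (fun J => C.c J f = h) (Classical.decPred _) C.B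

theorem Cf.mem_Bh {C : Cf ρ ι Λ} {f : ι} {h : Λ →+ ℤ} {J : Finset ι} :
    J ∈ C.Bh f h ↔ J ∈ C.B ∧ C.c J f = h := by
  rw [Cf.Bh]
  exact @Finset.mem_filter _ _ (Classical.decPred _) _ _

/-- pivots with a vector of `ker h` keep the coordinate `h` -/
theorem Cf.gh_piv (C : Cf (ρ + 1) ι Λ) {f : ι} (hall : ∀ J ∈ C.B, f ∈ J) {h : Λ →+ ℤ}
    {J : Finset ι} (hJ : J ∈ C.B) (hh : C.c J f = h) {g : ι} (hg : g ∈ C.F) (hgJ : g ∉ J)
    (hg0 : h (C.v g) = 0) : ∃ k ∈ J, k ≠ f ∧ insert g (J.erase k) ∈ C.B ∧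
      C.c (insert g (J.erase k)) f = h := by
  obtain ⟨k, hk, hkB⟩ := C.piv J hJ g hg hgJ
  have hfg : f ≠ g := fun e => hgJ (e ▸ hall J hJ)
  have hfk : f ≠ k := by
    rintro rfl
    have h1 := hall _ hkB
    rcases Finset.mem_insert.1 h1 with h2 | h2
    · exact hfg h2
    · exact (Finset.mem_erase.1 h2).1 rfl
  refine ⟨k, hk, hfk.symm, hkB, ?_⟩
  ext x
  rw [C.pv_l hJ hgJ hk hkB (hall J hJ) hfk, hh, hg0, zero_mul, sub_zero]

/-- the configuration in the kernel of `h` -/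
noncomputable def Cf.gh (C : Cf (ρ + 1) ι Λ) (f : ι) (hall : ∀ J ∈ C.B, f ∈ J) (h : Λ →+ ℤ)
    (hJ0 : ∃ J ∈ C.B, C.c J f = h) : Cf ρ ι h.ker where
  F := C.F.filter (fun g => h (C.v g) = 0)
  v := fun g => if hg : h (C.v g) = 0 then ⟨C.v g, hg⟩ else 0
  w := ⟨C.w - h C.w • C.v f, by
    obtain ⟨J, hJ, hh⟩ := hJ0
    have h1 : h (C.v f) = 1 := by
      rw [← hh, C.dual J hJ f (hall J hJ) f (hall J hJ), if_pos rfl]
    rw [AddMonoidHom.mem_ker, map_sub, map_zsmul, h1, smul_eq_mul, mul_one, sub_self]⟩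
  B := (C.Bh f h).image (fun J => J.erase f)
  c := fun J k => (C.c (insert f J) k).comp h.ker.subtype
  ne := by
    obtain ⟨J, hJ, hh⟩ := hJ0
    exact ⟨J.erase f, Finset.mem_image_of_mem _ (Cf.mem_Bh.2 ⟨hJ, hh⟩)⟩
  sub := by
    intro J' hJ'
    obtain ⟨J, hJ, rfl⟩ := Finset.mem_image.1 hJ'
    obtain ⟨hJ1, hh⟩ := Cf.mem_Bh.1 hJ
    intro k hk
    obtain ⟨hkf, hkJ⟩ := Finset.mem_erase.1 hk
    refine Finset.mem_filter.2 ⟨C.sub J hJ1 hkJ, ?_⟩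
    rw [← hh, C.dual J hJ1 f (hall J hJ1) k hkJ, if_neg (Ne.symm hkf)]
  card := by
    intro J' hJ'
    obtain ⟨J, hJ, rfl⟩ := Finset.mem_image.1 hJ'
    obtain ⟨hJ1, hh⟩ := Cf.mem_Bh.1 hJ
    rw [Finset.card_erase_of_mem (hall J hJ1), C.card J hJ1]
    rfl
  exp := by
    intro J' hJ' x
    obtain ⟨J, hJ, rfl⟩ := Finset.mem_image.1 hJ'
    obtain ⟨hJ1, hh⟩ := Cf.mem_Bh.1 hJ
    have hx : h (x : Λ) = 0 := x.2
    apply Subtype.ext
    rw [AddSubgroup.val_finset_sum]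
    have h1 := C.exp J hJ1 (x : Λ)
    rw [← Finset.add_sum_erase _ _ (hall J hJ1), hh, hx, zero_smul, zero_add] at h1
    rw [← h1]
    refine Finset.sum_congr rfl fun k hk => ?_
    obtain ⟨hkf, hkJ⟩ := Finset.mem_erase.1 hk
    have hk0 : h (C.v k) = 0 := by
      rw [← hh, C.dual J hJ1 f (hall J hJ1) k hkJ, if_neg (Ne.symm hkf)]
    rw [dif_pos hk0, Finset.insert_erase (hall J hJ1)]
    simp [h1]
  dual := by
    intro J' hJ' k hk l hl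
    obtain ⟨J, hJ, rfl⟩ := Finset.mem_image.1 hJ'
    obtain ⟨hJ1, hh⟩ := Cf.mem_Bh.1 hJ
    obtain ⟨hkf, hkJ⟩ := Finset.mem_erase.1 hk
    obtain ⟨hlf, hlJ⟩ := Finset.mem_erase.1 hl
    have hl0 : h (C.v l) = 0 := by
      rw [← hh, C.dual J hJ1 f (hall J hJ1) l hlJ, if_neg (Ne.symm hlf)]
    rw [dif_pos hl0, Finset.insert_erase (hall J hJ1)]
    exact C.dual J hJ1 k hkJ l hlJ
  pos := by
    intro J' hJ' k hk
    obtain ⟨J, hJ, rfl⟩ := Finset.mem_image.1 hJ'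
    obtain ⟨hJ1, hh⟩ := Cf.mem_Bh.1 hJ
    obtain ⟨hkf, hkJ⟩ := Finset.mem_erase.1 hk
    rw [Finset.insert_erase (hall J hJ1)]
    show 0 < C.c J k (C.w - h C.w • C.v f)
    rw [map_sub, map_zsmul, C.dual J hJ1 k hkJ f (hall J hJ1), if_neg hkf, smul_zero, sub_zero]
    exact C.pos J hJ1 k hkJ
  piv := by
    intro J' hJ' g hg hgJ
    obtain ⟨J, hJ, rfl⟩ := Finset.mem_image.1 hJ'
    obtain ⟨hJ1, hh⟩ := Cf.mem_Bh.1 hJ
    obtain ⟨hgF, hg0⟩ := Finset.mem_filter.1 hg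
    have hgf : g ≠ f := by
      rintro rfl
      rw [← hh, C.dual J hJ1 g (hall J hJ1) g (hall J hJ1), if_pos rfl] at hg0
      exact one_ne_zero hg0
    have hgJ' : g ∉ J := fun e => hgJ (Finset.mem_erase.2 ⟨hgf, e⟩)
    obtain ⟨k, hk, hkf, hkB, hkh⟩ := C.gh_piv hall hJ1 hh hgF hgJ' hg0
    refine ⟨k, Finset.mem_erase.2 ⟨hkf, hk⟩, Finset.mem_image.2 ⟨insert g (J.erase k),
      Cf.mem_Bh.2 ⟨hkB, hkh⟩, ?_⟩⟩
    rw [Finset.erase_insert_of_ne hgf, Finset.erase_right_comm]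
  pt := by
    intro r hr h0 g hg
    obtain ⟨hgF, hg0⟩ := Finset.mem_filter.1 hg
    have h := C.pt (fun x => if h (C.v x) = 0 then r x else 0) (by
      intro x hx
      by_cases hx0 : h (C.v x) = 0
      · simpa [hx0] using hr x (Finset.mem_filter.2 ⟨hx, hx0⟩)
      · simp [hx0]) (by
      have h1 := congrArg (fun y : h.ker => (y : Λ)) h0
      simp only [AddSubgroup.val_finset_sum, AddSubgroup.coe_zero] at h1
      rw [Finset.sum_filter] at h1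
      rw [← h1]
      refine Finset.sum_congr rfl fun x hx => ?_
      by_cases hx0 : h (C.v x) = 0
      · simp [hx0]
      · simp [hx0]) g hgF
    simpa [hg0] using h

theorem Cf.gh_nef (C : Cf (ρ + 1) ι Λ) {f : ι} {hall : ∀ J ∈ C.B, f ∈ J} {h : Λ →+ ℤ}
    {hJ0 : ∃ J ∈ C.B, C.c J f = h} {a : Λ} (ha : C.Nef a) (h0 : h a = 0) :
    (C.gh f hall h hJ0).Nef ⟨a, h0⟩ := by
  intro J' hJ' k hk
  obtain ⟨J, hJ, rfl⟩ := Finset.mem_image.1 hJ'
  obtain ⟨hJ1, hh⟩ := Cf.mem_Bh.1 hJ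
  obtain ⟨hkf, hkJ⟩ := Finset.mem_erase.1 hk
  show 0 ≤ C.c (insert f (J.erase f)) k a
  rw [Finset.insert_erase (hall J hJ1)]
  exact ha J hJ1 k hkJ

/-- for the minimal ghost coordinate all other vectors are nonpositive -/
theorem Cf.gh_neg (C : Cf ρ ι Λ) {f : ι} (hall : ∀ J ∈ C.B, f ∈ J) {J : Finset ι}
    (hJ : J ∈ C.B) (hmin : ∀ J' ∈ C.B, C.c J f C.w ≤ C.c J' f C.w) {g : ι} (hg : g ∈ C.F)
    (hgf : g ≠ f) : C.c J f (C.v g) ≤ 0 := by
  by_contra hcon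
  push Not at hcon
  have hgJ : g ∉ J := by
    intro e
    rw [C.dual J hJ f (hall J hJ) g e, if_neg (Ne.symm hgf)] at hcon
    exact lt_irrefl _ hcon
  obtain ⟨k, hk, hkB⟩ := C.piv J hJ g hg hgJ
  have hfk : f ≠ k := by
    rintro rfl
    have h1 := hall _ hkB
    rcases Finset.mem_insert.1 h1 with h2 | h2
    · exact hgf h2.symm
    · exact (Finset.mem_erase.1 h2).1 rfl
  have h1 := hmin _ hkB
  rw [C.pv_l hJ hgJ hk hkB (hall J hJ) hfk] at h1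
  have h2 := C.pos J hJ k hk
  have h3 := mul_pos hcon h2
  linarith

end Pool.Agent.H19.P4
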