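import Pool.Agent.H19.P4.Del
import Pool.Agent.H19.P4.Gh

/-!
Theorem B from Theorem A: decompositions of `∑ t f v f = a + b`.
-/

set_option autoImplicit false
set_option linter.all false

namespace Pool.Agent.H19.P4

/-- the statement of Theorem A for the ranks at most `R` -/
def StA (R : ℕ) : Prop := ∀ (r : ℕ), r ≤ R → ∀ {ι Λ : Type} [DecidableEq ι] [AddCommGroup Λ]
  (C : Cf r ι Λ) (a : Λ), C.Nef a → a ≠ 0 →
    ∃ S : Finset ι, S ⊆ C.F ∧ S.Nonempty ∧ C.Nef (a - ∑ f ∈ S, C.v f)

theorem thmB_aux {R : ℕ} (hA : StA R) (N : ℕ) : ∀ (r : ℕ), r ≤ R → ∀ {ι Λ : Type}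
    [DecidableEq ι] [AddCommGroup Λ] (C : Cf r ι Λ) (a b : Λ), C.Nef a → C.Nef b →
    ∀ t : ι → ℤ, (∀ f ∈ C.F, 0 ≤ t f) → ∑ f ∈ C.F, t f • C.v f = a + b →
    C.F.card + (∑ f ∈ C.F, t f).toNat ≤ N →
    ∃ s : ι → ℤ, (∀ f ∈ C.F, 0 ≤ s f ∧ s f ≤ t f) ∧ ∑ f ∈ C.F, s f • C.v f = a := by
  induction N with
  | zero =>
    intro r hr ι Λ _ _ C a b ha hb t ht hab hN
    have h1 : C.F = ∅ := by
      apply Finset.card_eq_zero.1
      omega
    obtain ⟨J, hJ⟩ := C.ne
    have h2 : J = ∅ := by
      have := C.sub J hJ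
      rw [h1] at this
      exact Finset.subset_empty.1 this
    have h3 := C.exp J hJ a
    rw [h2, Finset.sum_empty] at h3
    exact ⟨fun _ => 0, by rw [h1]; simp, by rw [h1, Finset.sum_empty, h3]⟩
  | succ N ih =>
    intro r hr ι Λ _ _ C a b ha hb t ht hab hN
    have hT0 : 0 ≤ ∑ f ∈ C.F, t f := Finset.sum_nonneg ht
    by_cases ha0 : a = 0
    · exact ⟨fun _ => 0, fun f hf => ⟨le_rfl, ht f hf⟩, by simp [ha0]⟩
    by_cases htz : ∃ f ∈ C.F, t f = 0
    · obtain ⟨f, hfF, htf⟩ := htz
      by_cases hall : ∀ J ∈ C.B, f ∈ J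
      · -- ghost
        obtain ⟨J, hJ, hmin⟩ := Finset.exists_min_image C.B (fun J => C.c J f C.w) C.ne
        have hfJ := hall J hJ
        obtain ⟨ρ, rfl⟩ : ∃ ρ, r = ρ + 1 := by
          have h1 := C.card J hJ
          have h2 : 0 < J.card := Finset.card_pos.2 ⟨f, hfJ⟩
          exact ⟨r - 1, by omega⟩
        obtain ⟨h, hh⟩ : ∃ h, h = C.c J f := ⟨_, rfl⟩
        have hneg : ∀ g ∈ C.F, g ≠ f → h (C.v g) ≤ 0 := fun g hg hgf => by
          rw [hh]; exact C.gh_neg hall hJ hmin hg hgf
        have hha : 0 ≤ h a := by rw [hh]; exact ha J hJ f hfJ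
        have hhb : 0 ≤ h b := by rw [hh]; exact hb J hJ f hfJ
        have hsum : h a + h b = ∑ g ∈ C.F, t g * h (C.v g) := by
          rw [← map_add, ← hab, map_sum]
          exact Finset.sum_congr rfl fun g _ => by rw [map_zsmul, smul_eq_mul]
        have hterm : ∀ g ∈ C.F, t g * h (C.v g) ≤ 0 := by
          intro g hg
          by_cases hgf : g = f
          · rw [hgf, htf, zero_mul]
          · exact mul_nonpos_of_nonneg_of_nonpos (ht g hg) (hneg g hg hgf)
        have hle : ∑ g ∈ C.F, t g * h (C.v g) ≤ 0 := Finset.sum_nonpos hterm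
        have hha0 : h a = 0 := by linarith
        have hhb0 : h b = 0 := by linarith
        have hz : ∀ g ∈ C.F, t g * h (C.v g) = 0 := by
          have : ∑ g ∈ C.F, t g * h (C.v g) = 0 := by linarith
          exact (Finset.sum_eq_zero_iff_of_nonpos hterm).1 this
        have hJ0 : ∃ J ∈ C.B, C.c J f = h := ⟨J, hJ, hh.symm⟩
        have hvf : h (C.v f) = 1 := by rw [hh, C.dual J hJ f hfJ f hfJ, if_pos rfl]
        have hF' : (C.gh f hall h hJ0).F = C.F.filter (fun g => h (C.v g) = 0) := rfl
        have hcard : (C.F.filter (fun g => h (C.v g) = 0)).card + 1 ≤ C.F.card := by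
          have : C.F.filter (fun g => h (C.v g) = 0) ⊆ C.F.erase f := by
            intro g hg
            obtain ⟨h1, h2⟩ := Finset.mem_filter.1 hg
            refine Finset.mem_erase.2 ⟨?_, h1⟩
            rintro rfl
            rw [hvf] at h2
            exact one_ne_zero h2
          have h1 := Finset.card_le_card this
          rw [Finset.card_erase_of_mem hfF] at h1
          have h2 : 0 < C.F.card := Finset.card_pos.2 ⟨f, hfF⟩
          omega
        have htle : ∑ g ∈ C.F.filter (fun g => h (C.v g) = 0), t g ≤ ∑ g ∈ C.F, t g :=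
          Finset.sum_le_sum_of_subset_of_nonneg (Finset.filter_subset _ _)
            fun g hg _ => ht g hg
        have key : ∀ u : ι → ℤ, ((∑ g ∈ (C.gh f hall h hJ0).F,
            u g • (C.gh f hall h hJ0).v g : h.ker) : Λ) =
            ∑ g ∈ C.F.filter (fun g => h (C.v g) = 0), u g • C.v g := by
          intro u
          rw [AddSubgroup.val_finset_sum]
          refine Finset.sum_congr rfl fun g hg => ?_
          have hg0 : h (C.v g) = 0 := (Finset.mem_filter.1 hg).2
          show ((u g • (if hg : h (C.v g) = 0 then (⟨C.v g, hg⟩ : h.ker) else 0) : h.ker) : Λ) = _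
          rw [dif_pos hg0]
          rfl
        obtain ⟨s, hs1, hs2⟩ := ih ρ (by omega) (C.gh f hall h hJ0) ⟨a, hha0⟩ ⟨b, hhb0⟩
          (C.gh_nef ha hha0) (C.gh_nef hb hhb0) t
          (fun g hg => ht g (Finset.mem_filter.1 hg).1) (by
            apply Subtype.ext
            rw [key t]
            show _ = a + b
            rw [← hab, Finset.sum_filter]
            refine Finset.sum_congr rfl fun g hg => ?_
            by_cases hg0 : h (C.v g) = 0
            · rw [if_pos hg0]
            · rw [if_neg hg0]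
              rcases mul_eq_zero.1 (hz g hg) with h1 | h1
              · rw [h1, zero_smul]
              · exact absurd h1 hg0) (by
            rw [hF']
            omega)
        refine ⟨fun g => if h (C.v g) = 0 then s g else 0, fun g hg => ?_, ?_⟩
        · by_cases hg0 : h (C.v g) = 0
          · simp only [hg0, if_true]
            exact hs1 g (Finset.mem_filter.2 ⟨hg, hg0⟩)
          · simp only [hg0, if_false]
            exact ⟨le_rfl, ht g hg⟩
        · have h1 := congrArg (fun y : h.ker => (y : Λ)) hs2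
          simp only at h1
          rw [key s, Finset.sum_filter] at h1
          rw [← h1]
          refine Finset.sum_congr rfl fun g hg => ?_
          by_cases hg0 : h (C.v g) = 0
          · simp [hg0]
          · simp [hg0]
      · -- deletion
        push Not at hall
        have hdF : (C.del f hall).F = C.F.erase f := rfl
        have hsum : ∀ u : ι → ℤ, u f = 0 →
            ∑ g ∈ C.F, u g • C.v g = ∑ g ∈ C.F.erase f, u g • C.v g := by
          intro u hu
          rw [← Finset.add_sum_erase _ _ hfF, hu, zero_smul, zero_add]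
        obtain ⟨s, hs1, hs2⟩ := ih r hr (C.del f hall) a b (C.del_nef ha) (C.del_nef hb) t
          (fun g hg => ht g (Finset.mem_erase.1 hg).2) (by
            rw [← hab, hsum t htf]
            rfl) (by
            rw [hdF]
            have h1 : ∑ g ∈ C.F, t g = ∑ g ∈ C.F.erase f, t g := by
              rw [← Finset.add_sum_erase _ _ hfF, htf, zero_add]
            rw [h1] at hN
            rw [Finset.card_erase_of_mem hfF]
            have h2 : 0 < C.F.card := Finset.card_pos.2 ⟨f, hfF⟩
            omega)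
        refine ⟨fun g => if g = f then 0 else s g, fun g hg => ?_, ?_⟩
        · by_cases hgf : g = f
          · simp only [hgf, if_true]
            exact ⟨le_rfl, ht f hfF⟩
          · simp only [hgf, if_false]
            exact hs1 g (Finset.mem_erase.2 ⟨hgf, hg⟩)
        · rw [hsum _ (by simp)]
          rw [← hs2]
          refine Finset.sum_congr rfl fun g hg => ?_
          rw [if_neg (Finset.mem_erase.1 hg).1]
          rfl
    · -- all coefficients are positive
      push Not at htz
      have ht1 : ∀ f ∈ C.F, 1 ≤ t f := fun f hf => by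
        have h1 := ht f hf
        have h2 := htz f hf
        omega
      obtain ⟨S, hSF, hSne, hSnef⟩ := hA r hr C a ha ha0
      have hind : ∀ u : ι → ℤ, ∑ f ∈ C.F, (u f + if f ∈ S then 1 else 0) • C.v f =
          ∑ f ∈ C.F, u f • C.v f + ∑ f ∈ S, C.v f := by
        intro u
        simp only [add_smul, Finset.sum_add_distrib]
        congr 1
        rw [← Finset.sum_subset hSF (f := fun f => (if f ∈ S then (1 : ℤ) else 0) • C.v f)]
        · exact Finset.sum_congr rfl fun f hf => by rw [if_pos hf, one_smul]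
        · intro f _ hf
          rw [if_neg hf, zero_smul]
      have hS1 : 0 < ∑ f ∈ C.F, (if f ∈ S then (1 : ℤ) else 0) := by
        obtain ⟨g, hg⟩ := hSne
        refine Finset.sum_pos' (fun f _ => ?_) ⟨g, hSF hg, ?_⟩
        · split_ifs <;> norm_num
        · rw [if_pos hg]; norm_num
      have hS2 : ∑ f ∈ C.F, (if f ∈ S then (1 : ℤ) else 0) ≤ ∑ f ∈ C.F, t f := by
        refine Finset.sum_le_sum fun f hf => ?_
        have h1 := ht1 f hf
        split_ifs <;> omega
      obtain ⟨s, hs1, hs2⟩ := ih r hr C (a - ∑ f ∈ S, C.v f) b hSnef hb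
        (fun f => t f - if f ∈ S then 1 else 0)
        (fun f hf => by
          have h1 := ht1 f hf
          show 0 ≤ t f - _
          split_ifs <;> omega) (by
          have h1 := hind (fun f => t f - if f ∈ S then 1 else 0)
          simp only [sub_add_cancel] at h1
          rw [hab] at h1
          rw [← add_left_inj (∑ f ∈ S, C.v f), ← h1]
          abel) (by
          rw [Finset.sum_sub_distrib]
          omega)
      refine ⟨fun f => s f + if f ∈ S then 1 else 0, fun f hf => ?_, ?_⟩
      · have h1 := hs1 f hf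
        simp only at h1 ⊢
        split_ifs at h1 ⊢ <;> omega
      · rw [hind, hs2, sub_add_cancel]

/-- Theorem B from Theorem A -/
theorem thmB_of {R : ℕ} (hA : StA R) (r : ℕ) (hr : r ≤ R) {ι Λ : Type} [DecidableEq ι]
    [AddCommGroup Λ] (C : Cf r ι Λ) (a b : Λ) (ha : C.Nef a) (hb : C.Nef b) (t : ι → ℤ)
    (ht : ∀ f ∈ C.F, 0 ≤ t f) (hab : ∑ f ∈ C.F, t f • C.v f = a + b) :
    ∃ s : ι → ℤ, (∀ f ∈ C.F, 0 ≤ s f ∧ s f ≤ t f) ∧ ∑ f ∈ C.F, s f • C.v f = a :=
  thmB_aux hA _ r hr C a b ha hb t ht hab le_rfl

end Pool.Agent.H19.P4
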