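import Pool.Agent.H19.P4.PolD
import Pool.Agent.H19.P4.ThA
import Pool.Agent.H19.P4.ThB

/-!
# Smooth polytopes with at most `d + 4` facets
-/

set_option autoImplicit false
set_option linter.all false

namespace Pool.Agent.H19.P4

open H66OD H19OZ H98OD Matrix

theorem stA4 : StA 4 := by
  intro r hr ι L _ _ C a ha hne
  exact thmA C hr ha hne

theorem thmB_all : Pol.ThmB := by
  intro r hr ι L _ _ C a b ha hb t ht hs
  exact thmB_of stA4 r hr C a b ha hb t ht hs

/-- a smooth lattice polytope in `ℝ^d` which is the intersection of `d + 4` closed half-spaces has the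
integer decomposition property -/
theorem idp_few (d : ℕ) (P : Set (Fin d → ℝ)) (hP : IsSmooth P)
    (hf : ∃ (n : Fin (d + 4) → (Fin d → ℝ)) (b : Fin (d + 4) → ℝ),
      P = {x | ∀ i, n i ⬝ᵥ x ≤ b i}) : HasIDP P :=
  Pol.result_of_thmB thmB_all d P hP hf

end Pool.Agent.H19.P4
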