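import Pool.Agent.H19.P4.Ty2

/-!
Module Frm (row P4FR).  Frames.  Use Bas, `ker3`, `ty_ex`, `ty_xy`, `exists_nb`, `Fct.le_one`.
`exists_fr`.  `exists_nb`: `Nb h1 h2 g`.  The witness `x` of `Aj h1 h2`: `h1 x = h2 x = 0`, `k x > 0` for all other `k ∈ IS H a`, in particular `g x > 0`.  Let `I` be the smallest positive integer such that some `z` has `h1 z = h2 z = 0`, `g z = I` (`Nat.find` for `∃ z, h1 z = 0 ∧ h2 z = 0 ∧ g z = (I : ℤ) ∧ 0 < I`).
  For `y` with `h1 y = h2 y = 0`: `g y = t I + r`, `0 ≤ r < I`: `g (y - t z) = r`, so `r = 0` by minimality and `y - t z` is killed by `h1, h2, g`: `= s a` (`ker3`).  This is `gen`.  `pos`: `x = s a + t z`, `0 < g x = t I` gives `t > 0`, and for the others `0 < k x = t * k z`.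
`fr_uniq`.  `k := g` (`exists_nb`): `g` of both sides: `t g z = t' g z`, `g z > 0`: `t = t'`; then `s a = s' a`, `C.smul_eq`.
`ee_fr`.  `gen`: `v e = s a + t z`.  `b.stuck e`: `k0 ∈ IS H a`, `k0 (v e) > 0`, so `k0 ≠ h1, h2`, and `t * k0 z = k0 (v e) ≤ 1`, `k0 z > 0`: `t = 1`.  For all other `k`: `0 < k z = k (v e) ≤ 1`.
`ix`.  `I := o z > 0`, `I' := n z' > 0` (`pos`).  `ty_ex`: `α` type `(1, -y)`, `β` type `(-x, 1)`.  `x v α + v β` is killed by `h, n`: `= s a + t z`, `o` of it: `1 - x y = t I`.  `v α * y + ...`: `v α + y v β` is killed by `h, o`: `1 - x y = t' I'`.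
  `z' ` has `n z' = I'`: `z' - I' v α` is killed by `h, n`: `o` of it is `y I' = t'' I`.  So `I ∣ y I'` and `I ∣ x y - 1` (so `I, y` coprime): `I ∣ I'` (`x y I' - (x y - 1) I' = I'`).  Symmetric: `z - I v β` is killed by `h, o`, `n` of it is `x I`: `I' ∣ x I`, `I' ∣ x y - 1`: `I' ∣ I`.  Both positive: `I = I'`.
-/

set_option autoImplicit false
set_option linter.all false

namespace Pool.Agent.H19.P4

variable {ι Λ : Type} [DecidableEq ι] [AddCommGroup Λ] {C : Cf 4 ι Λ} {H : Finset (Λ →+ ℤ)} {a : Λ}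

variable {h n o h1 h2 : Λ →+ ℤ} {z z' : Λ}

theorem exists_fr (b : Bd C H a) (hA : Aj H a h1 h2) : ∃ z, Fr H a h1 h2 z := by
  classical
  obtain ⟨g, N⟩ := exists_nb b hA
  obtain ⟨k1, k2, k3, x, x1, x2, x3⟩ := id hA
  have hga : ∀ k ∈ IS H a, k a = 0 := fun k hk => (mem_IS.1 hk).2
  have gx : 0 < g x := x3 g N.ho.2.1 N.ho.2.2.1.symm N.ne.symm
  have hex : ∃ I : ℕ, 0 < I ∧ ∃ z, h1 z = 0 ∧ h2 z = 0 ∧ g z = (I : ℤ) :=
    ⟨(g x).toNat, by omega, x, x1, x2, by omega⟩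
  obtain ⟨hI, z, z1, z2, zI⟩ := Nat.find_spec hex
  have hmin : ∀ m : ℕ, m < Nat.find hex → ¬ (0 < m ∧ ∃ z, h1 z = 0 ∧ h2 z = 0 ∧ g z = (m : ℤ)) :=
    fun m hm => Nat.find_min hex hm
  obtain ⟨I, hId⟩ : ∃ I : ℕ, I = Nat.find hex := ⟨_, rfl⟩
  rw [← hId] at hI zI hmin
  have hI0 : (0 : ℤ) < (I : ℤ) := by exact_mod_cast hI
  have gen : ∀ y, h1 y = 0 → h2 y = 0 → ∃ s t : ℤ, y = s • a + t • z := by
    intro y y1 y2
    have e1 : g (y - (g y / (I : ℤ)) • z) = g y % (I : ℤ) := by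
      rw [map_sub, map_zsmul, smul_eq_mul, zI]
      have := Int.emod_add_mul_ediv (g y) (I : ℤ)
      linarith
    have e2 := Int.emod_nonneg (g y) hI0.ne'
    have e3 := Int.emod_lt_of_pos (g y) hI0
    have f1 : h1 (y - (g y / (I : ℤ)) • z) = 0 := by
      rw [map_sub, map_zsmul, y1, z1, smul_zero, sub_zero]
    have f2 : h2 (y - (g y / (I : ℤ)) • z) = 0 := by
      rw [map_sub, map_zsmul, y2, z2, smul_zero, sub_zero]
    have e4 : g y % (I : ℤ) = 0 := by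
      by_contra hne
      refine hmin (g y % (I : ℤ)).toNat (by omega) ⟨by omega, _, f1, f2, ?_⟩
      rw [e1]
      omega
    rw [e4] at e1
    obtain ⟨s, hs⟩ := ker3 b N f1 f2 e1
    exact ⟨s, g y / (I : ℤ), by rw [← hs, sub_add_cancel]⟩
  refine ⟨z, hA, z1, z2, fun k hk hk1 hk2 => ?_, gen⟩
  obtain ⟨s, t, hst⟩ := gen x x1 x2
  have e1 : g x = t * (I : ℤ) := by
    rw [hst, map_add, map_zsmul, map_zsmul, hga g N.ho.2.1, smul_zero, zero_add, smul_eq_mul, zI]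
  have e2 : k x = t * k z := by
    rw [hst, map_add, map_zsmul, map_zsmul, hga k hk, smul_zero, zero_add, smul_eq_mul]
  have e3 := x3 k hk hk1 hk2
  have ht : 0 < t := by
    rw [e1] at gx
    exact (mul_pos_iff_of_pos_right hI0).1 gx
  rw [e2] at e3
  exact (mul_pos_iff_of_pos_left ht).1 e3

theorem fr_uniq (b : Bd C H a) (F : Fr H a h1 h2 z) {s t s' t' : ℤ}
    (h : s • a + t • z = s' • a + t' • z) : s = s' ∧ t = t' := by
  obtain ⟨g, N⟩ := exists_nb b F.aj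
  have gz : 0 < g z := F.pos g N.ho.2.1 N.ho.2.2.1.symm N.ne.symm
  have ga : g a = 0 := (mem_IS.1 N.ho.2.1).2
  have e1 := congrArg g h
  simp only [map_add, map_zsmul, ga, smul_eq_mul, mul_zero, zero_add] at e1
  have e2 : t = t' := mul_right_cancel₀ gz.ne' e1
  rw [e2] at h
  exact ⟨C.smul_eq b.ne (add_right_cancel h), e2⟩

end Pool.Agent.H19.P4
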