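import Pool.Agent.H19.P4.Frm1

/-!
Module Frm (row P4FR).  Frames.  Use Bas, `ker3`, `ty_ex`, `ty_xy`, `exists_nb`, `Fct.le_one`.
`exists_fr`.  `exists_nb`: `Nb h1 h2 g`.  The witness `x` of `Aj h1 h2`: `h1 x = h2 x = 0`, `k x > 0` for all other `k ∈ IS H a`, in particular `g x > 0`.  Let `I` be the smallest positive integer such that some `z` has `h1 z = h2 z = 0`, `g z = I` (`Nat.find` for `∃ z, h1 z = 0 ∧ h2 z = 0 ∧ g z = (I : ℤ) ∧ 0 < I`).
  For `y` with `h1 y = h2 y = 0`: `g y = t I + r`, `0 ≤ r < I`: `g (y - t z) = r`, so `r = 0` by minimality and `y - t z` is killed by `h1, h2, g`: `= s a` (`ker3`).  This is `gen`.  `pos`: `x = s a + t z`, `0 < g x = t I` gives `t > 0`, and for the others `0 < k x = t * k z`.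
`fr_uniq`.  `k := g` (`exists_nb`): `g` of both sides: `t g z = t' g z`, `g z > 0`: `t = t'`; then `s a = s' a`, `C.smul_eq`.
`ee_fr`.  `gen`: `v e = s a + t z`.  `b.stuck e`: `k0 ∈ IS H a`, `k0 (v e) > 0`, so `k0 ≠ h1, h2`, and `t * k0 z = k0 (v e) ≤ 1`, `k0 z > 0`: `t = 1`.  For all other `k`: `0 < k z = k (v e) ≤ 1`.
`ix`.  `I := o z > 0`, `I' := n z' > 0` (`pos`).  `ty_ex`: `α` type `(1, -y)`, `β` type `(-x, 1)`.  `x v α + v β` is killed by `h, n`: `= s a + t z`, `o` of it: `1 - x y = t I`.  `v α * y + ...`: `v α + y v β` is killed by `h, o`: `1 - x y = t' I'`.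
  `z' ` has `n z' = I'`: `z' - I' v α` is killed by `h, n`: `o` of it is `y I' = t'' I`.  So `I ∣ y I'` and `I ∣ x y - 1` (so `I, y` coprime): `I ∣ I'` (`x y I' - (x y - 1) I' = I'`).  Symmetric: `z - I v β` is killed by `h, o`, `n` of it is `x I`: `I' ∣ x I`, `I' ∣ x y - 1`: `I' ∣ I`.  Both positive: `I = I'`.
-/

set_option autoImplicit false
set_option linter.all false

namespace Pool.Agent.H19.P4

variable {ι Λ : Type} [DecidableEq ι] [AddCommGroup Λ] {C : Cf 4 ι Λ} {H : Finset (Λ →+ ℤ)} {a : Λ}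

variable {h n o h1 h2 : Λ →+ ℤ} {z z' : Λ}

theorem ee_fr (b : Bd C H a) (F : Fr H a h1 h2 z) {e : ι} (he : e ∈ C.F) (e1 : h1 (C.v e) = 0)
    (e2 : h2 (C.v e) = 0) : (∃ s : ℤ, C.v e = s • a + z) ∧
      (∀ k ∈ IS H a, k ≠ h1 → k ≠ h2 → k z = 1) ∧
      (∀ k ∈ IS H a, k ≠ h1 → k ≠ h2 → k (C.v e) = 1) := by
  obtain ⟨s, t, hst⟩ := F.gen (C.v e) e1 e2
  have hval : ∀ k ∈ IS H a, k (C.v e) = t * k z := by
    intro k hk
    rw [hst, map_add, map_zsmul, map_zsmul, (mem_IS.1 hk).2, smul_zero, zero_add, smul_eq_mul]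
  obtain ⟨k0, hk0, hpos⟩ := b.stuck e he
  have h01 : k0 ≠ h1 := fun h => by rw [h, e1] at hpos; exact lt_irrefl _ hpos
  have h02 : k0 ≠ h2 := fun h => by rw [h, e2] at hpos; exact lt_irrefl _ hpos
  have hle := b.fct.le_one (mem_IS.1 hk0).1 he
  have hz := F.pos k0 hk0 h01 h02
  have ht : t = 1 := by
    rw [hval k0 hk0] at hpos hle
    have h1 : 0 < t := by
      by_contra hc
      push Not at hc
      have := mul_nonpos_of_nonpos_of_nonneg hc hz.le
      omega
    have h2 : t ≤ t * k0 z := le_mul_of_one_le_right h1.le hz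
    omega
  have hz1 : ∀ k ∈ IS H a, k ≠ h1 → k ≠ h2 → k z = 1 := by
    intro k hk hk1 hk2
    have h1 := b.fct.le_one (mem_IS.1 hk).1 he
    rw [hval k hk, ht, one_mul] at h1
    have h2 := F.pos k hk hk1 hk2
    omega
  refine ⟨⟨s, ?_⟩, hz1, fun k hk hk1 hk2 => ?_⟩
  · rw [hst, ht, one_smul]
  · rw [hval k hk, ht, one_mul, hz1 k hk hk1 hk2]

theorem ix (b : Bd C H a) (k : Nb H a h n o) (F : Fr H a h n z) (F' : Fr H a h o z') :
    o z = n z' := by
  have ho := k.ho.2.1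
  have hn := k.hn.2.1
  have hI := F.pos o ho k.ho.2.2.1.symm k.ne.symm
  have hI' := F'.pos n hn k.hn.2.2.1.symm k.ne
  have oa := (mem_IS.1 ho).2
  have na := (mem_IS.1 hn).2
  obtain ⟨α, β, -, x, y, p, q, tα, tβ, -, hx, hy, -, -⟩ := ty_ex b k
  obtain ⟨s1, t1, e1⟩ := F.gen (x • C.v α + C.v β)
    (by rw [map_add, map_zsmul, tα.h0, tβ.h0, smul_zero, add_zero])
    (by rw [map_add, map_zsmul, tα.hn, tβ.hn, smul_eq_mul, mul_one, add_neg_cancel])
  have f1 := congrArg o e1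
  rw [map_add, map_zsmul, tα.ho, tβ.ho, map_add, map_zsmul, map_zsmul, oa] at f1
  simp only [smul_eq_mul, mul_zero, zero_add] at f1
  obtain ⟨s2, t2, e2⟩ := F'.gen (C.v α + y • C.v β)
    (by rw [map_add, map_zsmul, tα.h0, tβ.h0, smul_zero, add_zero])
    (by rw [map_add, map_zsmul, tα.ho, tβ.ho, smul_eq_mul, mul_one, neg_add_cancel])
  have f2 := congrArg n e2
  rw [map_add, map_zsmul, tα.hn, tβ.hn, map_add, map_zsmul, map_zsmul, na] at f2
  simp only [smul_eq_mul, mul_zero, zero_add] at f2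
  obtain ⟨s3, t3, e3⟩ := F.gen (z' - n z' • C.v α)
    (by rw [map_sub, map_zsmul, tα.h0, F'.z1, smul_zero, sub_zero])
    (by rw [map_sub, map_zsmul, tα.hn, smul_eq_mul, mul_one, sub_self])
  have f3 := congrArg o e3
  rw [map_sub, map_zsmul, tα.ho, F'.z2, map_add, map_zsmul, map_zsmul, oa] at f3
  simp only [smul_eq_mul, mul_zero, zero_add] at f3
  obtain ⟨s4, t4, e4⟩ := F'.gen (z - o z • C.v β)
    (by rw [map_sub, map_zsmul, tβ.h0, F.z1, smul_zero, sub_zero])
    (by rw [map_sub, map_zsmul, tβ.ho, smul_eq_mul, mul_one, sub_self])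
  have f4 := congrArg n e4
  rw [map_sub, map_zsmul, tβ.hn, F.z2, map_add, map_zsmul, map_zsmul, na] at f4
  simp only [smul_eq_mul, mul_zero, zero_add] at f4
  have d1 : o z ∣ n z' := by
    refine ⟨x * t3 + t1 * n z', ?_⟩
    have h1 : n z' * y = t3 * o z := by linarith
    have h2 : 1 - x * y = t1 * o z := by linarith
    calc n z' = x * (n z' * y) + (1 - x * y) * n z' := by ring
      _ = x * (t3 * o z) + (t1 * o z) * n z' := by rw [h1, h2]
      _ = o z * (x * t3 + t1 * n z') := by ring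
  have d2 : n z' ∣ o z := by
    refine ⟨y * t4 + t2 * o z, ?_⟩
    have h1 : o z * x = t4 * n z' := by linarith
    have h2 : 1 - x * y = t2 * n z' := by linarith
    calc o z = y * (o z * x) + (1 - x * y) * o z := by ring
      _ = y * (t4 * n z') + (t2 * n z') * o z := by rw [h1, h2]
      _ = n z' * (y * t4 + t2 * o z) := by ring
  exact Int.dvd_antisymm hI.le hI'.le d1 d2

end Pool.Agent.H19.P4
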