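import Pool.Agent.H19.P4.Ed
import Pool.Agent.H19.P4.Ar

/-!
Module Gm (row P4GM).  Uncovered facets.  Use `edge_eq`, `ar00`, `ar01`, `ar11`, `ty_ex`, `ty_N`, `ty_xy`, `ix`, `exists_fr`, `exists_nb`, `ee_fr`, `Fr.swap`.
(F1) If `¬ Cov h`, `Nb h n o` and `δ` is of type `(p, q)` with `p, q ≥ 0` then `p = q = 1`: `p, q ≤ 1` (`ty_N`), `p = 0` would give `Cov` by `⟨n, k.hn, δ, ..⟩`, `q = 0` by `⟨o, k.ho, δ, ..⟩`.
`gam_half`.  `exists_nb b k.hn.symm`: `k2 : Nb n h g`.  `ty_ex b k`: a `δ` of type `(1, 1)` at `h` (F1).  `ty_ex b k2`: `α', β', δ'` at `n` with `X', Y' > 0`, `δ'` of type `(p', q')`; `p' = h (v δ')`: `p' = 0` would give `Cov h` (`⟨n, k.hn, δ', ..⟩`), so `p' = 1` (`ty_N`), `q' = 0` or `1`.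
  Apply `edge_eq` to the edge `n, h` (index 1 := `n`, index 2 := `h`; `k2`, `k`, `F.swap`; `X2 := x, Y2 := y, q2 = 1`, `I2 = o z`; `X1 := X', Y1 := Y', q1 := q'`, `I1 = g z > 0`).  `q' = 0`: `ar01`: `I2 = 1, x y = 2`, or `I2 = 2, x = 1`.
  `q' = 1`: `ar11`: `x = 1, I2 ≤ 2`, or `I2 = 1, x y = 2`, or `I2 = 1 + x`, `y + 1 = (1 + X') (1 + x) ≥ 2 (1 + x)`.
`gam`.  `gam_half b k` and `gam_half b k.swap` with a frame `z'` of the edge `h, o` and `ix : o z = n z'`: `(I = 1 ∧ x y = 2) ∨ (x = 1 ∧ I ≤ 2) ∨ (I = 1 + x ∧ 2 x + 1 ≤ y)` and `(I = 1 ∧ x y = 2) ∨ (y = 1 ∧ I ≤ 2) ∨ (I = 1 + y ∧ 2 y + 1 ≤ x)`, and `x y ≥ 2` (`ty_xy`): all nine combinations give `I = 1, x y = 2` or a contradiction.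
`cov_gam`.  `e` has type `(1, 0)` at `h1` (`ee_fr` on the edge `h1, g1`: `h2 (v e) = 1`).  `edge_eq` with `δ1 := e`, `q1 = 0`, `q2 = 1`; `ar01`; the second alternative has `I2 = 2`, but `I2 = g2 z = 1` by `gam b k2` (frame `F.swap` of the edge `h2, h1`).  So `sig = 1`, `th1 = 1`, `th2 = 1 + X2`.
`gam_gam`.  Both facets `h, n` uncovered; `k2 : Nb n h g`.  `α` (`ty_ex b k`), `δ` of type `(1,1)`; at `n`: `α', β', δ'`, `δ'` of type `(1, 1)` (F1).  `edge_eq` with index 1 := `h` (`X1 := x`), index 2 := `n`, `q1 = q2 = 1`; `gam b k` (frame `z`): `o z = 1`; `gam b k2` (frame `F.swap`): `g z = 1`.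
  `ar11`: the second alternative has `I1 = 1 + X1 ≥ 2`, the third `I2 = 1 + X2 ≥ 2`: contradictions.  So `X1 = 1`.
`exists_cov`.  `h ∈ IS H a` (`exists_IS`).  If `Cov h` done.  Otherwise `exists_nb0 b`: `Nb h n o`.  If `Cov n` or `Cov o` done.  Otherwise `gam_gam b k` gives `x = 1`, `gam_gam b k.swap` gives `y = 1` (for `α, β` from `ty_ex`), contradiction to `ty_xy`.
-/

set_option autoImplicit false
set_option linter.all false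

namespace Pool.Agent.H19.P4

variable {ι Λ : Type} [DecidableEq ι] [AddCommGroup Λ] {C : Cf 4 ι Λ} {H : Finset (Λ →+ ℤ)} {a : Λ}

variable {h n o h1 h2 g1 g2 : Λ →+ ℤ} {z : Λ}

theorem Gm1_F1 (b : Bd C H a) (k : Nb H a h n o) (hc : ¬ Cov C H a h) {δ : ι} {p q : ℤ}
    (hδ : Tp C h n o δ p q) (hp : 0 ≤ p) (hq : 0 ≤ q) : p = 1 ∧ q = 1 := by
  obtain ⟨t1, t2, -⟩ := ty_N b k hδ.mem hδ.h0
  rw [hδ.hn] at t1
  rw [hδ.ho] at t2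
  have hp0 : p ≠ 0 := fun h0 => hc ⟨n, k.hn, δ, hδ.mem, hδ.h0, by rw [hδ.hn, h0]⟩
  have hq0 : q ≠ 0 := fun h0 => hc ⟨o, k.ho, δ, hδ.mem, hδ.h0, by rw [hδ.ho, h0]⟩
  constructor <;> omega

theorem gam_half (b : Bd C H a) (k : Nb H a h n o) (hc : ¬ Cov C H a h) (F : Fr H a h n z)
    {α β : ι} {x y : ℤ} (hα : Tp C h n o α 1 (-y)) (hβ : Tp C h n o β (-x) 1) (hx : 0 < x)
    (hy : 0 < y) :
    (o z = 1 ∧ x * y = 2) ∨ (x = 1 ∧ o z ≤ 2) ∨ (o z = 1 + x ∧ 2 * x + 1 ≤ y) := by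
  obtain ⟨g, k2⟩ := exists_nb b k.hn.symm
  obtain ⟨_, _, δ, _, _, p, q, _, _, hδ, _, _, hp, hq⟩ := ty_ex b k
  obtain ⟨rfl, rfl⟩ := Gm1_F1 b k hc hδ hp hq
  obtain ⟨α', β', δ', X', Y', p', q', hα', hβ', hδ', hX', hY', hp', hq'⟩ := ty_ex b k2
  obtain ⟨t1, t2, -⟩ := ty_N b k2 hδ'.mem hδ'.h0
  rw [hδ'.hn] at t1
  rw [hδ'.ho] at t2
  have hp0 : p' ≠ 0 := fun h0 => hc ⟨n, k.hn, δ', hδ'.mem, by rw [hδ'.hn, h0], hδ'.h0⟩
  have hp1 : p' = 1 := by omega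
  subst hp1
  have hgz : 0 < g z := F.pos g k2.ho.2.1 k2.ne.symm k2.ho.2.2.1.symm
  have hoz : 0 < o z := F.pos o k.ho.2.1 k.ho.2.2.1.symm k.ne.symm
  have hXY' := ty_xy b k2 hα' hβ' hX' hY'
  have hxy := ty_xy b k hα hβ hx hy
  obtain ⟨sig, th1, th2, ht1, ht2, e1, e2, -, e3, e4⟩ :=
    edge_eq b k2 k F.swap hα' hβ' hδ' hα hβ hδ hX' hY' hx hy hq' (by norm_num)
  rw [mul_one] at e2
  have hq01 : q' = 0 ∨ q' = 1 := by omega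
  rcases hq01 with h0 | h0
  · subst h0
    rw [mul_zero, add_zero] at e1
    rcases (ar01 hX' hY' hx hy hXY' hxy hgz hoz ht1 ht2 e1 e2 e3 e4).2.2 with
      ⟨_, h2, h3, _, _⟩ | ⟨_, h2, _, h4, _⟩
    · exact Or.inl ⟨h2, h3⟩
    · exact Or.inr (Or.inl ⟨h4, h2.le⟩)
  · subst h0
    rw [mul_one] at e1
    rcases ar11 hX' hY' hx hy hXY' hxy hgz hoz ht1 ht2 e1 e2 e3 e4 with
      ⟨_, _, h2, h3, h4⟩ | ⟨_, _, h2, h3, _⟩ | ⟨_, h1, _, _, h5⟩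
    · exact Or.inr (Or.inl ⟨h2, by omega⟩)
    · exact Or.inl ⟨h2, h3⟩
    · refine Or.inr (Or.inr ⟨h1, ?_⟩)
      nlinarith

theorem gam (b : Bd C H a) (k : Nb H a h n o) (hc : ¬ Cov C H a h) (F : Fr H a h n z)
    {α β : ι} {x y : ℤ} (hα : Tp C h n o α 1 (-y)) (hβ : Tp C h n o β (-x) 1) (hx : 0 < x)
    (hy : 0 < y) : o z = 1 ∧ x * y = 2 := by
  obtain ⟨z', F'⟩ := exists_fr b k.ho
  have e := ix b k F F'
  have hA := gam_half b k hc F hα hβ hx hy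
  have hB := gam_half b k.swap hc F' hβ.swap hα.swap hy hx
  have hxy := ty_xy b k hα hβ hx hy
  rw [← e] at hB
  rcases hA with hA | ⟨hA1, hA2⟩ | ⟨hA1, hA2⟩
  · exact hA
  · rcases hB with ⟨hB1, hB2⟩ | ⟨hB1, hB2⟩ | ⟨hB1, hB2⟩
    · exact ⟨hB1, by rw [mul_comm]; exact hB2⟩
    · rw [hA1, hB1] at hxy
      norm_num at hxy
    · omega
  · rcases hB with ⟨hB1, hB2⟩ | ⟨hB1, hB2⟩ | ⟨hB1, hB2⟩
    · omega
    · omega
    · omega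

end Pool.Agent.H19.P4
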