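import Pool.Agent.H19.P4.Gm1

/-!
Module Gm (row P4GM).  Uncovered facets.  Use `edge_eq`, `ar00`, `ar01`, `ar11`, `ty_ex`, `ty_N`, `ty_xy`, `ix`, `exists_fr`, `exists_nb`, `ee_fr`, `Fr.swap`.
(F1) If `¬ Cov h`, `Nb h n o` and `δ` is of type `(p, q)` with `p, q ≥ 0` then `p = q = 1`: `p, q ≤ 1` (`ty_N`), `p = 0` would give `Cov` by `⟨n, k.hn, δ, ..⟩`, `q = 0` by `⟨o, k.ho, δ, ..⟩`.
`gam_half`.  `exists_nb b k.hn.symm`: `k2 : Nb n h g`.  `ty_ex b k`: a `δ` of type `(1, 1)` at `h` (F1).  `ty_ex b k2`: `α', β', δ'` at `n` with `X', Y' > 0`, `δ'` of type `(p', q')`; `p' = h (v δ')`: `p' = 0` would give `Cov h` (`⟨n, k.hn, δ', ..⟩`), so `p' = 1` (`ty_N`), `q' = 0` or `1`.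
  Apply `edge_eq` to the edge `n, h` (index 1 := `n`, index 2 := `h`; `k2`, `k`, `F.swap`; `X2 := x, Y2 := y, q2 = 1`, `I2 = o z`; `X1 := X', Y1 := Y', q1 := q'`, `I1 = g z > 0`).  `q' = 0`: `ar01`: `I2 = 1, x y = 2`, or `I2 = 2, x = 1`.
  `q' = 1`: `ar11`: `x = 1, I2 ≤ 2`, or `I2 = 1, x y = 2`, or `I2 = 1 + x`, `y + 1 = (1 + X') (1 + x) ≥ 2 (1 + x)`.
`gam`.  `gam_half b k` and `gam_half b k.swap` with a frame `z'` of the edge `h, o` and `ix : o z = n z'`: `(I = 1 ∧ x y = 2) ∨ (x = 1 ∧ I ≤ 2) ∨ (I = 1 + x ∧ 2 x + 1 ≤ y)` and `(I = 1 ∧ x y = 2) ∨ (y = 1 ∧ I ≤ 2) ∨ (I = 1 + y ∧ 2 y + 1 ≤ x)`, and `x y ≥ 2` (`ty_xy`): all nine combinations give `I = 1, x y = 2` or a contradiction.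
`cov_gam`.  `e` has type `(1, 0)` at `h1` (`ee_fr` on the edge `h1, g1`: `h2 (v e) = 1`).  `edge_eq` with `δ1 := e`, `q1 = 0`, `q2 = 1`; `ar01`; the second alternative has `I2 = 2`, but `I2 = g2 z = 1` by `gam b k2` (frame `F.swap` of the edge `h2, h1`).  So `sig = 1`, `th1 = 1`, `th2 = 1 + X2`.
`gam_gam`.  Both facets `h, n` uncovered; `k2 : Nb n h g`.  `α` (`ty_ex b k`), `δ` of type `(1,1)`; at `n`: `α', β', δ'`, `δ'` of type `(1, 1)` (F1).  `edge_eq` with index 1 := `h` (`X1 := x`), index 2 := `n`, `q1 = q2 = 1`; `gam b k` (frame `z`): `o z = 1`; `gam b k2` (frame `F.swap`): `g z = 1`.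
  `ar11`: the second alternative has `I1 = 1 + X1 ≥ 2`, the third `I2 = 1 + X2 ≥ 2`: contradictions.  So `X1 = 1`.
`exists_cov`.  `h ∈ IS H a` (`exists_IS`).  If `Cov h` done.  Otherwise `exists_nb0 b`: `Nb h n o`.  If `Cov n` or `Cov o` done.  Otherwise `gam_gam b k` gives `x = 1`, `gam_gam b k.swap` gives `y = 1` (for `α, β` from `ty_ex`), contradiction to `ty_xy`.
-/

set_option autoImplicit false
set_option linter.all false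

namespace Pool.Agent.H19.P4

variable {ι Λ : Type} [DecidableEq ι] [AddCommGroup Λ] {C : Cf 4 ι Λ} {H : Finset (Λ →+ ℤ)} {a : Λ}

variable {h n o h1 h2 g1 g2 : Λ →+ ℤ} {z : Λ}

theorem Gm2_F1 (b : Bd C H a) (k : Nb H a h n o) (hc : ¬ Cov C H a h) {δ : ι} {p q : ℤ}
    (hδ : Tp C h n o δ p q) (hp : 0 ≤ p) (hq : 0 ≤ q) : p = 1 ∧ q = 1 := by
  obtain ⟨t1, t2, -⟩ := ty_N b k hδ.mem hδ.h0
  rw [hδ.hn] at t1
  rw [hδ.ho] at t2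
  have hp0 : p ≠ 0 := fun h0 => hc ⟨n, k.hn, δ, hδ.mem, hδ.h0, by rw [hδ.hn, h0]⟩
  have hq0 : q ≠ 0 := fun h0 => hc ⟨o, k.ho, δ, hδ.mem, hδ.h0, by rw [hδ.ho, h0]⟩
  exact ⟨by omega, by omega⟩

theorem cov_gam (b : Bd C H a) (k1 : Nb H a h1 h2 g1) (k2 : Nb H a h2 h1 g2)
    (hc : ¬ Cov C H a h2) {e : ι} (he : e ∈ C.F) (e1 : h1 (C.v e) = 0) (e2 : g1 (C.v e) = 0)
    {α1 β1 α2 β2 δ2 : ι} {X1 Y1 X2 Y2 : ℤ} (hα1 : Tp C h1 h2 g1 α1 1 (-Y1))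
    (hβ1 : Tp C h1 h2 g1 β1 (-X1) 1) (hα2 : Tp C h2 h1 g2 α2 1 (-Y2))
    (hβ2 : Tp C h2 h1 g2 β2 (-X2) 1) (hδ2 : Tp C h2 h1 g2 δ2 1 1)
    (hX1 : 0 < X1) (hY1 : 0 < Y1) (hX2 : 0 < X2) (hY2 : 0 < Y2) :
    Y1 = 1 + X2 ∧ X2 * Y2 = 2 ∧
      (1 + X2) • (X1 • C.v e + C.v β1) = X2 • C.v δ2 + C.v β2 + a := by
  obtain ⟨z', F'⟩ := exists_fr b k1.ho
  obtain ⟨-, -, hall⟩ := ee_fr b F' he e1 e2
  have hh2 : h2 (C.v e) = 1 := hall h2 k1.hn.2.1 k1.hn.2.2.1.symm k1.ne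
  have hδ1 : Tp C h1 h2 g1 e 1 0 := ⟨he, e1, hh2, e2⟩
  obtain ⟨z, F⟩ := exists_fr b k1.hn
  obtain ⟨sig, th1, th2, p1, p2, q1, q2, qv, q3, q4⟩ :=
    edge_eq b k1 k2 F hα1 hβ1 hδ1 hα2 hβ2 hδ2 hX1 hY1 hX2 hY2 le_rfl zero_le_one
  obtain ⟨r1, r2⟩ := gam b k2 hc F.swap hα2 hβ2 hX2 hY2
  have hI1 : 0 < g1 z := F.pos g1 k1.ho.2.1 k1.ho.2.2.1.symm k1.ne.symm
  have hI2 : 0 < g2 z := by rw [r1]; exact zero_lt_one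
  rw [mul_zero, add_zero] at q1
  rw [mul_one] at q2
  obtain ⟨s1, s2, s3⟩ := ar01 hX1 hY1 hX2 hY2 (ty_xy b k1 hα1 hβ1 hX1 hY1)
    (ty_xy b k2 hα2 hβ2 hX2 hY2) hI1 hI2 p1 p2 q1 q2 q3 q4
  rcases s3 with ⟨t1, t2, t3, t4, t5⟩ | ⟨t1, t2, -⟩
  · refine ⟨t4, t3, ?_⟩
    rw [t5, s1, t1, one_smul, one_smul] at qv
    exact qv
  · exfalso
    omega

theorem gam_gam (b : Bd C H a) (k : Nb H a h n o) (hc : ¬ Cov C H a h) (hc' : ¬ Cov C H a n)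
    {β : ι} {x : ℤ} (hβ : Tp C h n o β (-x) 1) (hx : 0 < x) : x = 1 := by
  obtain ⟨g, k2⟩ := exists_nb b k.hn.symm
  obtain ⟨α, β0, δ, x0, y, p, q, hα, hβ0, hδ, hx0, hy, hp, hq⟩ := ty_ex b k
  obtain ⟨hp1, hq1⟩ := Gm2_F1 b k hc hδ hp hq
  subst hp1
  subst hq1
  obtain ⟨α', β', δ', x', y', p', q', hα', hβ', hδ', hx', hy', hp', hq'⟩ := ty_ex b k2
  obtain ⟨hp1', hq1'⟩ := Gm2_F1 b k2 hc' hδ' hp' hq'
  subst hp1'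
  subst hq1'
  obtain ⟨z, F⟩ := exists_fr b k.hn
  obtain ⟨r1, r2⟩ := gam b k hc F hα hβ hx hy
  obtain ⟨r3, r4⟩ := gam b k2 hc' F.swap hα' hβ' hx' hy'
  obtain ⟨sig, th1, th2, p1, p2, q1, q2, -, q3, q4⟩ :=
    edge_eq b k k2 F hα hβ hδ hα' hβ' hδ' hx hy hx' hy' zero_le_one zero_le_one
  rw [mul_one] at q1 q2
  rcases ar11 hx hy hx' hy' (ty_xy b k hα hβ hx hy) (ty_xy b k2 hα' hβ' hx' hy')
    (by rw [r1]; exact zero_lt_one) (by rw [r3]; exact zero_lt_one) p1 p2 q1 q2 q3 q4 with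
    ⟨-, t, -⟩ | ⟨-, t, -⟩ | ⟨-, t, -⟩
  · exact t
  · omega
  · omega

theorem exists_cov (b : Bd C H a) : ∃ h, Cov C H a h := by
  by_contra hcon
  have hcon' : ∀ h, ¬ Cov C H a h := fun h hh => hcon ⟨h, hh⟩
  obtain ⟨h, hh⟩ := exists_IS b
  obtain ⟨n, o, k⟩ := exists_nb0 b hh
  obtain ⟨α, β, δ, x, y, p, q, hα, hβ, hδ, hx, hy, hp, hq⟩ := ty_ex b k
  have h1 := gam_gam b k (hcon' h) (hcon' n) hβ hx
  have h2 := gam_gam b k.swap (hcon' h) (hcon' o) hα.swap hy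
  have h3 := ty_xy b k hα hβ hx hy
  rw [h1, h2] at h3
  omega

end Pool.Agent.H19.P4
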