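import Pool.Agent.H19.P4.Lp

/-!
Module L1 (row P4L1).  Facets take values `≤ 1` on `F`.  Use Bas and the statement `cp` of Lp.
`Fct.exch`.  If `f ∈ J`: `h (v f) = c J k (v f) > 0` forces `f = k` (`C.dual`) and `insert f (J.erase k) = J` (`Finset.insert_erase`).  Let `f ∉ J`, `K := J.erase k`, `t := h (v f) > 0`.  `f ∉ K`.  Let `y` be the witness of `h` (`hH.wit h hh`):
  `h y = 0`, `c J l y > 0` for `l ∈ K` (`c J l ≠ c J k` since they differ at `v k`: `C.dual`).  Apply `cp` to `a := y` (`Nef y`: each `c J' k'` is `h` (value `0`) or positive), `J' := insert f K`, `M = 1`,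
  `c l := c J l y` for `l ∈ K` (`l ≠ f`), `c f := 0`; `N := t`, `r f := h w` and `r l := t * c J l w - h w * c J l (v f)` for `l ∈ K`.
  `hw`: `v f = t • v k + ∑_{l ∈ K} c J l (v f) • v l` and `w = h w • v k + ∑_{l ∈ K} c J l w • v l` (`C.exp`, `Finset.add_sum_erase`).  `hac`: `y = ∑_{l ∈ J} c J l y • v l` with `c J k y = 0`.
  `hind`: apply `h = c J k` to the relation: `s f * t = 0`, so `s f = 0`; then `∑_{l ∈ K} s l v l = 0` and `C.uniq` (or `C.coord`) on `J`.
  Positivity: `c l > 0` for `l ∈ K`, and `c f = 0`, `r f = h w > 0` (`C.pos`).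
`Fct.le_one`.  `h = c J k` (`hH.sub`).  If `h (v f) > 0`: `f ∈ J` gives `f = k`, value `1` (`C.self`); `f ∉ J`: `Fct.exch` and `C.piv_one`: `h (v f) = 1`.
-/

set_option autoImplicit false
set_option linter.all false

namespace Pool.Agent.H19.P4

variable {ρ : ℕ} {ι Λ : Type} [DecidableEq ι] [AddCommGroup Λ]

private theorem L1_er (C : Cf ρ ι Λ) {J : Finset ι} (hJ : J ∈ C.B) {k : ι} (g : ι → ℤ) {m : ι}
    (hm : m ∈ J) : C.c J m (∑ l ∈ J.erase k, g l • C.v l) = if m = k then 0 else g m := by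
  rw [map_sum]
  by_cases h : m = k
  · rw [if_pos h]
    refine Finset.sum_eq_zero fun l hl => ?_
    rw [map_zsmul, C.other hJ hm (Finset.mem_of_mem_erase hl), smul_zero]
    rw [h]
    exact (Finset.ne_of_mem_erase hl).symm
  · rw [if_neg h, Finset.sum_eq_single m]
    · rw [map_zsmul, C.self hJ hm, smul_eq_mul, mul_one]
    · intro l hl hlm
      rw [map_zsmul, C.other hJ hm (Finset.mem_of_mem_erase hl) hlm.symm, smul_zero]
    · intro h1
      exact absurd (Finset.mem_erase.2 ⟨h, hm⟩) h1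

private theorem L1_ins (C : Cf ρ ι Λ) {J : Finset ι} (hJ : J ∈ C.B) {k f : ι} (hf : f ∉ J)
    (g : ι → ℤ) {m : ι} (hm : m ∈ J) :
    C.c J m (∑ l ∈ insert f (J.erase k), g l • C.v l) =
      g f * C.c J m (C.v f) + if m = k then 0 else g m := by
  have hfe : f ∉ J.erase k := fun h => hf (Finset.mem_of_mem_erase h)
  rw [Finset.sum_insert hfe, map_add, map_zsmul, smul_eq_mul, L1_er C hJ g hm]

theorem Fct.exch {C : Cf ρ ι Λ} {H : Finset (Λ →+ ℤ)} (hH : Fct C H) {h : Λ →+ ℤ} (hh : h ∈ H)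
    {J : Finset ι} (hJ : J ∈ C.B) {k : ι} (hk : k ∈ J) (hJk : h = C.c J k) {f : ι} (hf : f ∈ C.F)
    (hpos : 0 < h (C.v f)) : insert f (J.erase k) ∈ C.B := by
  obtain ⟨y, hy0, hy⟩ := hH.wit h hh
  subst hJk
  by_cases hfJ : f ∈ J
  · rw [C.dual J hJ k hk f hfJ] at hpos
    by_cases hkf : k = f
    · subst hkf
      rw [Finset.insert_erase hk]
      exact hJ
    · rw [if_neg hkf] at hpos
      exact absurd hpos (lt_irrefl _)
  have hfe : f ∉ J.erase k := fun h => hfJ (Finset.mem_of_mem_erase h)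
  have hne : ∀ j ∈ J, j ≠ f := fun j hj h => hfJ (h ▸ hj)
  refine cp C (a := y) ?_ ?_ ?_
    (fun l => if l = f then C.c J k C.w else
      C.c J k (C.v f) * C.c J l C.w - C.c J k C.w * C.c J l (C.v f))
    (fun l => if l = f then 0 else C.c J l y) (N := C.c J k (C.v f)) (M := 1) hpos one_pos ?_ ?_ ?_
  · intro J' hJ' k' hk'
    by_cases h1 : C.c J' k' = C.c J k
    · rw [h1, hy0]
    · exact (hy J' hJ' k' hk' h1).le
  · intro j hj
    rcases Finset.mem_insert.1 hj with rfl | hj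
    · exact hf
    · exact C.sub J hJ (Finset.mem_of_mem_erase hj)
  · intro s hs
    have h1 : ∀ m ∈ J, s f * C.c J m (C.v f) + (if m = k then 0 else s m) = 0 := by
      intro m hm
      rw [← L1_ins C hJ hfJ s hm, hs, map_zero]
    have h2 : s f = 0 := by
      have h3 := h1 k hk
      rw [if_pos rfl, add_zero] at h3
      rcases mul_eq_zero.1 h3 with h4 | h4
      · exact h4
      · exact absurd h4 hpos.ne'
    intro j hj
    rcases Finset.mem_insert.1 hj with rfl | hj
    · exact h2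
    · have h3 := h1 j (Finset.mem_of_mem_erase hj)
      rw [h2, zero_mul, zero_add, if_neg (Finset.ne_of_mem_erase hj)] at h3
      exact h3
  · apply C.ext hJ
    intro m hm
    rw [L1_ins C hJ hfJ _ hm, map_zsmul, smul_eq_mul]
    by_cases hmk : m = k
    · subst hmk
      simp only [if_true]
      ring
    · simp only [if_true, if_neg hmk, if_neg (hne m hm)]
      ring
  · apply C.ext hJ
    intro m hm
    rw [L1_ins C hJ hfJ _ hm, one_smul]
    by_cases hmk : m = k
    · subst hmk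
      simp only [if_true]
      rw [hy0]
      ring
    · simp only [if_true, if_neg hmk, if_neg (hne m hm)]
      ring
  · intro j hj
    rcases Finset.mem_insert.1 hj with rfl | hj
    · right
      refine ⟨if_pos rfl, ?_⟩
      rw [if_pos rfl]
      exact C.pos J hJ k hk
    · left
      have hjJ := Finset.mem_of_mem_erase hj
      have hjk := Finset.ne_of_mem_erase hj
      simp only [if_neg (hne j hjJ)]
      refine hy J hJ j hjJ fun h1 => ?_
      have h2 := C.self hJ hjJ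
      rw [h1, C.other hJ hk hjJ hjk.symm] at h2
      exact absurd h2 (by norm_num)

theorem Fct.le_one {C : Cf ρ ι Λ} {H : Finset (Λ →+ ℤ)} (hH : Fct C H) {h : Λ →+ ℤ} (hh : h ∈ H)
    {f : ι} (hf : f ∈ C.F) : h (C.v f) ≤ 1 := by
  obtain ⟨J, hJ, k, hk, hJk⟩ := hH.sub h hh
  by_cases hpos : 0 < h (C.v f)
  · by_cases hfJ : f ∈ J
    · rw [hJk, C.dual J hJ k hk f hfJ]
      split_ifs <;> norm_num
    · have h1 := hH.exch hh hJ hk hJk hf hpos
      rw [hJk, C.piv_one hJ hfJ hk h1]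
  · push Not at hpos
    exact hpos.trans zero_le_one

theorem Fct.pos_w {C : Cf ρ ι Λ} {H : Finset (Λ →+ ℤ)} (hH : Fct C H) {h : Λ →+ ℤ} (hh : h ∈ H) :
    0 < h C.w := by
  obtain ⟨J, hJ, k, hk, rfl⟩ := hH.sub h hh
  exact C.pos J hJ k hk

theorem Fct.nn {C : Cf ρ ι Λ} {H : Finset (Λ →+ ℤ)} (hH : Fct C H) {h : Λ →+ ℤ} (hh : h ∈ H)
    {x : Λ} (hx : C.Nef x) : 0 ≤ h x := by
  obtain ⟨J, hJ, k, hk, rfl⟩ := hH.sub h hh
  exact hx J hJ k hk

end Pool.Agent.H19.P4
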