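import Pool.Agent.H19.P4.Bas

/-!
Module Lp (row P4LP).  Linear programming on a configuration.  Use Bas.
`lp`.  Take `J ∈ B` minimising `θ^J := ∑ k ∈ J, c J k x * θ k` (`Finset.exists_min_image`).  Suppose `∑ s f θ f < θ^J`.  As `x = ∑ s f v f`, for `k ∈ J`:
  `c J k x = ∑_{f ∈ F} s f c J k (v f) = s k + ∑_{f ∈ F \ J} s f c J k (v f)`.  Hence `∑_{f ∈ F} s f θ f - θ^J = ∑_{f ∈ F \ J} s f (θ f - ∑_{l ∈ J} c J l (v f) θ l) < 0`, so some
  `f ∈ F \ J` has rate `R := θ f - ∑_{l ∈ J} c J l (v f) θ l < 0` (as `s f ≥ 0`).  `C.piv`: `k ∈ J`, `J' = insert f (J.erase k) ∈ B`.  By `piv_new`, `piv_old`, `piv_one` (`c J k (v f) = 1`):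
  `θ^{J'} = c J k x * θ f + ∑_{l ∈ J, l ≠ k} (c J l x - c J l (v f) c J k x) θ l = θ^J + c J k x * R < θ^J` (`c J k x > 0`): contradiction.
`cp`.  `n := M * (1 + ∑_{j ∈ J'} |r j|)`, `x := (N * n * M) • a + (M * N) • w`: `Amp` (`Nef.smul`, `Amp.smul`, `Nef.add_amp`), and `x = ∑_{j ∈ J'} (N * n * c j + M * r j) • v j`, all coefficients positive
  (if `c j > 0`: `N n c j ≥ n ≥ M + M |r j|`; if `c j = 0`: `M r j > 0`).  Apply `lp` with `s j` = this coefficient on `J'`, `0` elsewhere, and `θ = 0` on `J'`, `1` elsewhere: the right side is `0`, so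
  `∑_{k ∈ J \ J'} c J k x ≤ 0` and all terms are positive: `J ⊆ J'`.  If `j ∈ J' \ J`: `v j = ∑_{k ∈ J} c J k (v j) v k` (`C.exp`) is a nontrivial relation on `J'`, contradiction to `hind`.  So `J' = J ∈ B`.
`lp2`.  Suppose `∑ s f θ f < ∑_{k ∈ J} c J k a θ k` for every `J ∈ B` (by_contra).  Fix `J0 ∈ B`, `E J := ∑_{k ∈ J0} c J0 k w θ k - ∑_{k ∈ J} c J k w θ k`, `n := 1 + ∑_{J ∈ B} |E J|`.  Apply `lp` to `x = n • a + w` (`Amp`),
  `s' f = n * s f + (if f ∈ J0 then c J0 f w else 0)`: get `J` with `n (∑_{J} c J k a θ k) + ∑_J c J k w θ k ≤ n ∑ s f θ f + ∑_{J0} c J0 k w θ k`, so `n ≤ n * (difference ≥ 1) ≤ E J < n`.  Contradiction.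
`pos_comb`.  If `s ≤ 0`: `a = ∑_{k ∈ J} c J k a v k` for a `J ∈ B`; `r' f := r f + (-s) * (if f ∈ J then c J f a else 0) ≥ 0` has `∑ r' f v f = s a - s a = 0`; `C.pt` gives `r' = 0`, so `r f0 = 0`, contradiction.
`pos4`: `pos_comb` with `r f := (if f = f1 then r1 else 0) + (if f = f2 then r2 else 0) + ...` (`Finset.sum_add_distrib`, `Finset.sum_ite_eq'`, ...).
-/

set_option autoImplicit false
set_option linter.all false

namespace Pool.Agent.H19.P4

variable {ρ : ℕ} {ι Λ : Type} [DecidableEq ι] [AddCommGroup Λ]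

theorem lp (C : Cf ρ ι Λ) {x : Λ} (hx : C.Amp x) (s θ : ι → ℤ) (hs : ∀ f ∈ C.F, 0 ≤ s f)
    (hsx : ∑ f ∈ C.F, s f • C.v f = x) :
    ∃ J ∈ C.B, ∑ k ∈ J, C.c J k x * θ k ≤ ∑ f ∈ C.F, s f * θ f := by
  obtain ⟨J, hJ, hmin⟩ := Finset.exists_min_image C.B (fun J => ∑ k ∈ J, C.c J k x * θ k) C.ne
  refine ⟨J, hJ, ?_⟩
  by_contra hcon
  push Not at hcon
  have hsub := C.sub J hJ
  have hco : ∀ k ∈ J, C.c J k x = s k + ∑ f ∈ C.F \ J, s f * C.c J k (C.v f) := by
    intro k hk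
    conv_lhs => rw [← hsx]
    rw [map_sum, ← Finset.sum_sdiff hsub, add_comm]
    congr 1
    · rw [Finset.sum_eq_single k]
      · rw [map_zsmul, C.self hJ hk, smul_eq_mul, mul_one]
      · intro l hl hlk
        rw [map_zsmul, C.other hJ hk hl hlk.symm, smul_zero]
      · exact fun h => absurd hk h
    · exact Finset.sum_congr rfl fun f _ => by rw [map_zsmul, smul_eq_mul]
  have h2 : ∑ k ∈ J, C.c J k x * θ k = ∑ k ∈ J, s k * θ k +
      ∑ f ∈ C.F \ J, s f * ∑ l ∈ J, C.c J l (C.v f) * θ l := by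
    calc ∑ k ∈ J, C.c J k x * θ k
        = ∑ k ∈ J, (s k * θ k + ∑ f ∈ C.F \ J, s f * C.c J k (C.v f) * θ k) :=
          Finset.sum_congr rfl fun k hk => by rw [hco k hk, add_mul, Finset.sum_mul]
      _ = ∑ k ∈ J, s k * θ k + ∑ k ∈ J, ∑ f ∈ C.F \ J, s f * C.c J k (C.v f) * θ k :=
          Finset.sum_add_distrib
      _ = _ := by
          rw [Finset.sum_comm]
          congr 1
          refine Finset.sum_congr rfl fun f _ => ?_
          rw [Finset.mul_sum]
          exact Finset.sum_congr rfl fun l _ => by ring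
  have h3 : ∑ f ∈ C.F, s f * θ f = ∑ f ∈ C.F \ J, s f * θ f + ∑ k ∈ J, s k * θ k :=
    (Finset.sum_sdiff hsub).symm
  have h4 : ∑ f ∈ C.F \ J, s f * (θ f - ∑ l ∈ J, C.c J l (C.v f) * θ l) < 0 := by
    have h5 : ∑ f ∈ C.F \ J, s f * (θ f - ∑ l ∈ J, C.c J l (C.v f) * θ l) =
        ∑ f ∈ C.F \ J, s f * θ f - ∑ f ∈ C.F \ J, s f * ∑ l ∈ J, C.c J l (C.v f) * θ l := by
      rw [← Finset.sum_sub_distrib]
      exact Finset.sum_congr rfl fun f _ => by ring
    rw [h5]
    rw [h2, h3] at hcon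
    linarith
  obtain ⟨f, hf, hR⟩ : ∃ f ∈ C.F \ J, θ f - ∑ l ∈ J, C.c J l (C.v f) * θ l < 0 := by
    by_contra hall
    push Not at hall
    have : 0 ≤ ∑ f ∈ C.F \ J, s f * (θ f - ∑ l ∈ J, C.c J l (C.v f) * θ l) :=
      Finset.sum_nonneg fun f hf => mul_nonneg (hs f (Finset.mem_sdiff.1 hf).1) (hall f hf)
    linarith
  obtain ⟨hfF, hfJ⟩ := Finset.mem_sdiff.1 hf
  obtain ⟨k, hk, hJ'⟩ := C.piv J hJ f hfF hfJ
  have hfe : f ∉ J.erase k := fun h => hfJ (Finset.mem_of_mem_erase h)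
  have h5 : ∑ l ∈ insert f (J.erase k), C.c (insert f (J.erase k)) l x * θ l =
      ∑ l ∈ J, C.c J l x * θ l + C.c J k x * (θ f - ∑ l ∈ J, C.c J l (C.v f) * θ l) := by
    rw [Finset.sum_insert hfe, C.piv_new hJ hfJ hk hJ', ← Finset.add_sum_erase J _ hk,
      ← Finset.add_sum_erase J (fun l => C.c J l (C.v f) * θ l) hk, C.piv_one hJ hfJ hk hJ']
    have h6 : ∑ l ∈ J.erase k, C.c (insert f (J.erase k)) l x * θ l =
        ∑ l ∈ J.erase k, C.c J l x * θ l - C.c J k x * ∑ l ∈ J.erase k, C.c J l (C.v f) * θ l := by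
      rw [Finset.mul_sum, ← Finset.sum_sub_distrib]
      refine Finset.sum_congr rfl fun l hl => ?_
      obtain ⟨h7, h8⟩ := Finset.mem_erase.1 hl
      rw [C.piv_old hJ hfJ hk hJ' h8 h7]
      ring
    rw [h6]
    ring
  have h6 := hmin _ hJ'
  have h7 := hx J hJ k hk
  have h8 := mul_neg_of_pos_of_neg h7 hR
  have h9 : ∑ l ∈ J, C.c J l x * θ l ≤
      ∑ l ∈ insert f (J.erase k), C.c (insert f (J.erase k)) l x * θ l := h6
  rw [h5] at h9
  linarith

theorem cp (C : Cf ρ ι Λ) {a : Λ} (ha : C.Nef a) {J' : Finset ι} (hF : J' ⊆ C.F)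
    (hind : ∀ s : ι → ℤ, ∑ j ∈ J', s j • C.v j = 0 → ∀ j ∈ J', s j = 0)
    (r c : ι → ℤ) {N M : ℤ} (hN : 0 < N) (hM : 0 < M) (hw : N • C.w = ∑ j ∈ J', r j • C.v j)
    (hac : M • a = ∑ j ∈ J', c j • C.v j) (h : ∀ j ∈ J', 0 < c j ∨ (c j = 0 ∧ 0 < r j)) :
    J' ∈ C.B := by
  obtain ⟨n, hn⟩ : ∃ n : ℤ, n = M * (1 + ∑ j ∈ J', |r j|) := ⟨_, rfl⟩
  have hS : 0 ≤ ∑ j ∈ J', |r j| := Finset.sum_nonneg fun _ _ => abs_nonneg _
  have hn0 : 0 < n := by
    rw [hn]
    exact mul_pos hM (by linarith)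
  have hpos : ∀ j ∈ J', 0 < N * n * c j + M * r j := by
    intro j hj
    rcases h j hj with h1 | ⟨h1, h2⟩
    · have h2 : |r j| ≤ ∑ j ∈ J', |r j| :=
        Finset.single_le_sum (f := fun j => |r j|) (fun _ _ => abs_nonneg _) hj
      have h3 : -|r j| ≤ r j := neg_abs_le _
      have h4 : M * (1 + |r j|) ≤ n := by
        rw [hn]
        exact mul_le_mul_of_nonneg_left (by linarith) hM.le
      have h5 : n ≤ N * n * c j := by
        have h6 : 1 ≤ N * c j := mul_pos hN h1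
        calc n = n * 1 := by ring
          _ ≤ n * (N * c j) := mul_le_mul_of_nonneg_left h6 hn0.le
          _ = N * n * c j := by ring
      have h6 : M * (-|r j|) ≤ M * r j := mul_le_mul_of_nonneg_left h3 hM.le
      nlinarith
    · rw [h1]
      have := mul_pos hM h2
      linarith
  have hxa : C.Amp ((N * n * M) • a + (M * N) • C.w) :=
    (ha.smul (mul_pos (mul_pos hN hn0) hM).le).add_amp (C.amp_w.smul (mul_pos hM hN))
  have hxs : ∑ j ∈ J', (N * n * c j + M * r j) • C.v j = (N * n * M) • a + (M * N) • C.w := by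
    have h1 : (N * n * M) • a = ∑ j ∈ J', (N * n * c j) • C.v j := by
      rw [mul_smul, hac, Finset.smul_sum]
      exact Finset.sum_congr rfl fun j _ => by rw [smul_smul]
    have h2 : (M * N) • C.w = ∑ j ∈ J', (M * r j) • C.v j := by
      rw [mul_smul, hw, Finset.smul_sum]
      exact Finset.sum_congr rfl fun j _ => by rw [smul_smul]
    rw [h1, h2, ← Finset.sum_add_distrib]
    exact Finset.sum_congr rfl fun j _ => by rw [add_smul]
  obtain ⟨J, hJ, hle⟩ := lp C hxa (fun j => if j ∈ J' then N * n * c j + M * r j else 0)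
    (fun j => if j ∈ J' then 0 else 1) (fun f _ => by
      by_cases hf : f ∈ J'
      · simp only [if_pos hf]
        exact (hpos f hf).le
      · simp only [if_neg hf]
        exact le_rfl) (by
      rw [← hxs, ← Finset.sum_subset hF]
      · exact Finset.sum_congr rfl fun j hj => by rw [if_pos hj]
      · intro j _ hj
        rw [if_neg hj, zero_smul])
  have h0 : ∑ f ∈ C.F, (if f ∈ J' then N * n * c f + M * r f else 0) *
      (if f ∈ J' then (0 : ℤ) else 1) = 0 := by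
    refine Finset.sum_eq_zero fun f _ => ?_
    by_cases hf : f ∈ J'
    · rw [if_pos hf, if_pos hf, mul_zero]
    · rw [if_neg hf, if_neg hf, zero_mul]
  have hJJ' : J ⊆ J' := by
    intro k hk
    by_contra hkJ
    have h1 : C.c J k ((N * n * M) • a + (M * N) • C.w) * (if k ∈ J' then (0 : ℤ) else 1) ≤
        ∑ k ∈ J, C.c J k ((N * n * M) • a + (M * N) • C.w) * (if k ∈ J' then (0 : ℤ) else 1) :=
      Finset.single_le_sum
        (f := fun k => C.c J k ((N * n * M) • a + (M * N) • C.w) * (if k ∈ J' then (0 : ℤ) else 1))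
        (fun l hl => by
          by_cases hlJ : l ∈ J'
          · simp only [if_pos hlJ, mul_zero]
            exact le_rfl
          · simp only [if_neg hlJ, mul_one]
            exact (hxa J hJ l hl).le) hk
    rw [if_neg hkJ, mul_one] at h1
    have h2 := hxa J hJ k hk
    have h3 := hle.trans_eq h0
    linarith
  have hJ'J : J' ⊆ J := by
    intro j hj
    by_contra hjJ
    have h1 : ∑ i ∈ J', ((if i ∈ J then C.c J i (C.v j) else 0) - (if i = j then 1 else 0)) • C.v i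
        = 0 := by
      have h2 : ∑ i ∈ J', (if i ∈ J then C.c J i (C.v j) else 0) • C.v i = C.v j := by
        rw [← Finset.sum_subset hJJ']
        · conv_rhs => rw [← C.exp J hJ (C.v j)]
          exact Finset.sum_congr rfl fun i hi => by rw [if_pos hi]
        · intro i _ hi
          rw [if_neg hi, zero_smul]
      have h3 : ∑ i ∈ J', (if i = j then (1 : ℤ) else 0) • C.v i = C.v j := by
        rw [Finset.sum_eq_single j]
        · rw [if_pos rfl, one_smul]
        · intro i _ hij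
          rw [if_neg hij, zero_smul]
        · exact fun h => absurd hj h
      calc ∑ i ∈ J', ((if i ∈ J then C.c J i (C.v j) else 0) - (if i = j then 1 else 0)) • C.v i
          = ∑ i ∈ J', ((if i ∈ J then C.c J i (C.v j) else 0) • C.v i -
              (if i = j then (1 : ℤ) else 0) • C.v i) :=
            Finset.sum_congr rfl fun i _ => by rw [sub_smul]
        _ = 0 := by rw [Finset.sum_sub_distrib, h2, h3, sub_self]
    have h2 := hind _ h1 j hj
    rw [if_neg hjJ, if_pos rfl] at h2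
    norm_num at h2
  rw [Finset.Subset.antisymm hJ'J hJJ']
  exact hJ

end Pool.Agent.H19.P4
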