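import Pool.Agent.H19.P4.PolA

/-!
# IDP from the decomposition theorem for configurations
-/

set_option autoImplicit false
set_option linter.all false

namespace Pool.Agent.H19.P4.Pol

open H66OD H19OZ H98OD Matrix
open scoped Classical

variable {d : ℕ} {P : Set (Fin d → ℝ)}

theorem nef_w (D : SD P) : (cfg D).Nef (cfg D).w := fun J hJ k hk => ((cfg D).pos J hJ k hk).le

theorem nef_smul {ρ : ℕ} {ι Λ : Type} [DecidableEq ι] [AddCommGroup Λ] (C : Cf ρ ι Λ) {x : Λ}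
    (hx : C.Nef x) {k : ℤ} (hk : 0 ≤ k) : C.Nef (k • x) := by
  intro J hJ l hl
  rw [map_zsmul, smul_eq_mul]
  exact mul_nonneg hk (hx J hJ l hl)

/-- decomposition in the configuration of `P` gives one step of the decomposition in `P` -/
theorem idp_of_dec (D : SD P)
    (h : ∀ a b : Lam D, (cfg D).Nef a → (cfg D).Nef b → ∀ t : (Fin d → ℤ) → ℤ,
      (∀ f ∈ (cfg D).F, 0 ≤ t f) → ∑ f ∈ (cfg D).F, t f • (cfg D).v f = a + b →
      ∃ s : (Fin d → ℤ) → ℤ, (∀ f ∈ (cfg D).F, 0 ≤ s f ∧ s f ≤ t f) ∧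
        ∑ f ∈ (cfg D).F, s f • (cfg D).v f = a) : HasIDP P := by
  refine idp_of_step fun k hk x y hy hxy => ?_
  have hkR : (0 : ℝ) < (k : ℝ) := by exact_mod_cast hk
  obtain ⟨s, hs, hsum⟩ := h (cfg D).w ((k : ℤ) • (cfg D).w) (nef_w D)
    (nef_smul _ (nef_w D) (Int.natCast_nonneg k)) (fun f => f ⬝ᵥ x - ((k : ℤ) + 1) * mn D f) (by
      intro f hf
      have h1 := mn_real D hf hy
      have h2 : ((f ⬝ᵥ x : ℤ) : ℝ) = ((k : ℝ) + 1) * (toR f ⬝ᵥ y) := by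
        rw [← toR_dot, hxy, dotProduct_smul, smul_eq_mul]
      have h3 : ((k : ℝ) + 1) * (mn D f : ℝ) ≤ ((f ⬝ᵥ x : ℤ) : ℝ) := by
        rw [h2]
        exact mul_le_mul_of_nonneg_left h1 (by linarith)
      have h4 : ((k : ℤ) + 1) * mn D f ≤ f ⬝ᵥ x := by exact_mod_cast h3
      show 0 ≤ f ⬝ᵥ x - ((k : ℤ) + 1) * mn D f
      linarith) (by
      show ∑ f ∈ FF D, (f ⬝ᵥ x - ((k : ℤ) + 1) * mn D f) • cl D (Pi.single f 1) =
        cl D (fun f => -mn D f) + (k : ℤ) • cl D (fun f => -mn D f)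
      rw [cl_sum D _ (fun f => f ⬝ᵥ x - ((k : ℤ) + 1) * mn D f)]
      have h1 : cl D (fun f => -mn D f) + (k : ℤ) • cl D (fun f => -mn D f) =
          cl D ((fun f => -mn D f) + (k : ℤ) • (fun f => -mn D f)) := rfl
      rw [h1, eq_comm, cl_eq]
      refine ⟨x, fun f hf => ?_⟩
      rw [if_pos hf, Pi.add_apply, Pi.smul_apply, smul_eq_mul]
      ring)
  have hsum' : ∑ f ∈ FF D, s f • cl D (Pi.single f 1) = cl D (fun f => -mn D f) := hsum
  rw [cl_sum D _ s, eq_comm, cl_eq] at hsum'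
  obtain ⟨p, hp⟩ := hsum'
  have hp' : ∀ f ∈ FF D, s f + mn D f = f ⬝ᵥ p := by
    intro f hf
    have h1 := hp f hf
    rw [if_pos hf] at h1
    linarith
  refine ⟨p, mem_P D fun f hf => ?_, (k : ℝ)⁻¹ • toR (x - p), mem_P D fun f hf => ?_, ?_⟩
  · rw [toR_dot, ← hp' f hf]
    have h1 := (hs f hf).1
    have h2 : mn D f ≤ s f + mn D f := by linarith
    exact_mod_cast h2
  · have h1 : s f ≤ f ⬝ᵥ x - ((k : ℤ) + 1) * mn D f := (hs f hf).2
    have h2 : (k : ℤ) * mn D f ≤ f ⬝ᵥ (x - p) := by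
      rw [dotProduct_sub, ← hp' f hf]
      linarith
    have h3 : (k : ℝ) * (mn D f : ℝ) ≤ toR f ⬝ᵥ toR (x - p) := by
      rw [toR_dot]
      exact_mod_cast h2
    rw [dotProduct_smul, smul_eq_mul, inv_mul_eq_div, le_div_iff₀ hkR]
    linarith
  · rw [smul_smul, mul_inv_cancel₀ hkR.ne', one_smul]

/-- the decomposition statement for configurations of rank at most `4` -/
def ThmB : Prop := ∀ (r : ℕ), r ≤ 4 → ∀ {ι L : Type} [DecidableEq ι] [AddCommGroup L] (C : Cf r ι L)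
  (a b : L), C.Nef a → C.Nef b → ∀ t : ι → ℤ, (∀ f ∈ C.F, 0 ≤ t f) →
  ∑ f ∈ C.F, t f • C.v f = a + b →
  ∃ s : ι → ℤ, (∀ f ∈ C.F, 0 ≤ s f ∧ s f ≤ t f) ∧ ∑ f ∈ C.F, s f • C.v f = a

theorem idp_of_thmB (hB : ThmB) (D : SD P) (hc : (FF D).card ≤ d + 4) : HasIDP P :=
  idp_of_dec D fun a b ha hb t ht hs => hB _ (by omega) (cfg D) a b ha hb t ht hs

end Pool.Agent.H19.P4.Pol
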