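import Pool.Agent.H19.P4.PolB
import Pool.Agent.H19.P4.PolC
import Pool.Agent.H19.OZ.Edg

/-!
# The polytope theorem from the decomposition theorem
-/

set_option autoImplicit false
set_option linter.all false

namespace Pool.Agent.H19.P4.Pol

open H66OD H19OZ H98OD Matrix

theorem result_of_thmB (hB : ThmB) (d : ℕ) (P : Set (Fin d → ℝ)) (hP : IsSmooth P)
    (hf : ∃ (n : Fin (d + 4) → (Fin d → ℝ)) (b : Fin (d + 4) → ℝ),
      P = {x | ∀ i, n i ⬝ᵥ x ≤ b i}) : HasIDP P := by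
  obtain ⟨D⟩ := sd_of_smooth P hP
  obtain ⟨n, b, hnb⟩ := hf
  exact idp_of_thmB hB D (card_le D n b hnb)

end Pool.Agent.H19.P4.Pol
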