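import Pool.Agent.H19.P4.ThA
import Pool.Agent.H19.P4.ThB
import Pool.Agent.H19.P4.PolD

/-!
Assembly: smooth polytopes with at most `d + 4` facets (project MP_a35d42_P4).
-/

set_option autoImplicit false
set_option linter.all false

namespace Pool.Agent.H19.P4

theorem thmB : Pol.ThmB := fun r hr _ _ _ _ C a b ha hb t ht hab =>
  thmB_of (R := 4) (fun _ hr' _ _ _ _ C' _ ha' h0 => thmA C' hr' ha' h0) r hr C a b ha hb t ht hab

open H66OD Matrix in
theorem main (d : ℕ) (P : Set (Fin d → ℝ)) (hP : IsSmooth P)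
    (hf : ∃ (n : Fin (d + 4) → (Fin d → ℝ)) (b : Fin (d + 4) → ℝ),
      P = {x | ∀ i, n i ⬝ᵥ x ≤ b i}) : HasIDP P :=
  Pol.result_of_thmB thmB d P hP hf

end Pool.Agent.H19.P4
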