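import Pool.Agent.H19.P4.L1
import Pool.Agent.H19.P4.Dep

/-!
Module Pg (row P4PG).  The polygon: every facet through `a` has exactly two neighbours.  Use Bas, `Fct.nn`, `Fct.le_one`, `dep_ker4` (`b.fct : Fct C H`, `b.stuck`, ...).
`exists_IS`: `B` contains some `J`, `|J| = 4`, so some `f ∈ J ⊆ F`; `b.stuck f`.
`exists_nb0`.  `h = c J k` (`b.fct.sub`, `h ∈ H`), `K := J.erase k`.  `T := IS H a` without `h` (`Finset.erase` with `classical`).
 1. `T` has two different elements.  `a = ∑_{l ∈ K} c J l a • v l` with coefficients `≥ 0`, not all `0`: some `l ∈ K` has `c J l a > 0`; `h (v l) = 0`, so `b.stuck l` gives `g ∈ T`, `g (v l) > 0`; `0 = g a = ∑ c J l a g (v l)`, so some `m ∈ K` has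
    `c J m a > 0`, `g (v m) < 0`; `b.stuck m` gives `g' ∈ T` with `g' (v m) > 0`, so `g' ≠ g`.
 2. The witness `c0` of `h`: `h c0 = 0`, `g c0 > 0` for all `g ∈ T` (`b.fct.wit`; `g ∈ H` is of the form `c J' k'`).
 3. There is `b0 ∈ {v l : l ∈ K}` such that `a, c0, b0` are independent: `α a + β c0 + γ b0 = 0 → α = β = γ = 0`.  (`a, c0` are independent: apply `g ∈ T`: `β g c0 = 0`, and then `α a = 0`, `C.tf`.)  If there were no such `b0`: for each of the three `l ∈ K`: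
    `γ_l v l = α_l a + β_l c0` with `γ_l ≠ 0`; apply a `g ∈ T` with `g (v l) > 0` and `g' (v m) > 0, g (v m) < 0` as in 1.: on multiples of such vectors `g = (β_l / γ_l) g c0`, `g' = (β_l / γ_l) g' c0`, so `g` and `g'` have the same sign on every `v l`
    (`g c0, g' c0 > 0`), but `g (v m) < 0 < g' (v m)`: contradiction with `l = m`.  (So simply `b0 := v m`: if `α a + β c0 + γ v m = 0` apply `g` and `g'`: `β g c0 + γ g (v m) = 0`, `β g' c0 + γ g' (v m) = 0` with
    `g c0, g' c0, g' (v m) > 0 > g (v m)`: `β = γ = 0`, hence `α a = 0`, `α = 0`.)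
 4. Every `x` with `h x = 0`: `N x = α a + β c0 + γ b0`, `N ≠ 0` (`dep_ker4` for `a, c0, b0, x`).
 5. For `g1, g2 ∈ T` put `D g1 g2 := g1 b0 * g2 c0 - g1 c0 * g2 b0`.  If `g1, g2 ∈ T` and `D g1 g2 = 0` then `g1 = g2`: by 4. `g2 c0 * g1 x = g1 c0 * g2 x` for all `x ∈ ker h`.  With `e := v k`, `h e = 1`, `x - h x • e ∈ ker h`:
    `g2 c0 * g1 x = g1 c0 * g2 x + μ * h x` for all `x`, `μ := g2 c0 * g1 e - g1 c0 * g2 e`.  If `g1 ≠ g2`: if `μ ≥ 0` use the witness `y` of `g1` (`g1 y = 0`, `g2 y > 0`, `h y > 0`): `0 = g1 c0 g2 y + μ h y > 0`; if `μ < 0` the witness of `g2` : `g2 c0 g1 y = μ h y < 0`: contradiction.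
 6. `σ g := (g b0 : ℚ) / g c0`.  `n` := element of `T` with maximal `σ`, `o` := with minimal `σ` (`Finset.exists_max_image`, `exists_min_image`).  `D g1 g2 > 0 ↔ σ g1 > σ g2` (denominators positive); by 5. `σ` is injective on `T`, by 1. `n ≠ o`.  For `g ∈ T`, `g ≠ n`: `D n g > 0`; for `g ≠ o`: `D g o > 0`.
 7. `Aj h n`: `x := n b0 • c0 - n c0 • b0`: `h x = 0`, `n x = 0`, `g x = D n g > 0` for `g ∈ T, g ≠ n`.  `Aj h o`: `x := - (o b0 • c0 - o c0 • b0)`, `g x = D g o`.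
 8. `comb`: `m := D n o > 0`, `m1 := D g o > 0`, `m2 := D n g > 0`: `m * g x = m1 * n x + m2 * o x` holds at `x = a` (all `0`), `c0`, `b0` (ring identities), hence on `ker h` by 4.
`exists_nb`.  `exists_nb0` gives `Nb h n' o'`; `Nb.uniq`: `n = n'` or `n = o'` (then `Nb.swap`).
-/

set_option autoImplicit false
set_option linter.all false

namespace Pool.Agent.H19.P4

variable {ι Λ : Type} [DecidableEq ι] [AddCommGroup Λ] {C : Cf 4 ι Λ} {H : Finset (Λ →+ ℤ)} {a : Λ}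

theorem exists_IS (b : Bd C H a) : (IS H a).Nonempty := by
  obtain ⟨J, hJ⟩ := C.ne
  have hne : J.Nonempty := by
    rw [← Finset.card_pos, C.card J hJ]
    norm_num
  obtain ⟨f, hf⟩ := hne
  obtain ⟨h, h1, -⟩ := b.stuck f (C.sub J hJ hf)
  exact ⟨h, h1⟩

theorem exists_nb0 (b : Bd C H a) {h : Λ →+ ℤ} (hh : h ∈ IS H a) : ∃ n o, Nb H a h n o := by
  classical
  obtain ⟨hH, ha⟩ := mem_IS.1 hh
  obtain ⟨J, hJ, k, hk, hJk⟩ := b.fct.sub h hH
  -- 1. two elements of `T`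
  have hexp := C.exp J hJ a
  have hk0 : C.c J k a = 0 := by rw [← hJk]; exact ha
  have hnn : ∀ l ∈ J, 0 ≤ C.c J l a := fun l hl => b.nef J hJ l hl
  have hl : ∃ l ∈ J, 0 < C.c J l a := by
    by_contra hcon
    push Not at hcon
    apply b.ne
    rw [← hexp]
    refine Finset.sum_eq_zero fun l hl => ?_
    rw [le_antisymm (hcon l hl) (hnn l hl), zero_smul]
  obtain ⟨l, hlJ, hlpos⟩ := hl
  have hlk : l ≠ k := by
    rintro rfl
    omega
  have hhl : h (C.v l) = 0 := by rw [hJk]; exact C.other hJ hk hlJ hlk.symm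
  obtain ⟨g, hg, hgl⟩ := b.stuck l (C.sub J hJ hlJ)
  have hga : g a = 0 := (mem_IS.1 hg).2
  have hm : ∃ m ∈ J, 0 < C.c J m a ∧ g (C.v m) < 0 := by
    by_contra hcon
    push Not at hcon
    have h0 : g a = ∑ m ∈ J, C.c J m a * g (C.v m) := by
      conv_lhs => rw [← hexp]
      rw [map_sum]
      exact Finset.sum_congr rfl fun m _ => by rw [map_zsmul, smul_eq_mul]
    have h1 : 0 < ∑ m ∈ J, C.c J m a * g (C.v m) := by
      refine Finset.sum_pos' (fun m hm => ?_) ⟨l, hlJ, mul_pos hlpos hgl⟩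
      rcases (hnn m hm).lt_or_eq with h2 | h2
      · exact mul_nonneg h2.le (hcon m hm h2)
      · rw [← h2, zero_mul]
    omega
  obtain ⟨m, hmJ, hmpos, hgm⟩ := hm
  have hmk : m ≠ k := by
    rintro rfl
    omega
  have hhm : h (C.v m) = 0 := by rw [hJk]; exact C.other hJ hk hmJ hmk.symm
  obtain ⟨g', hg', hg'm⟩ := b.stuck m (C.sub J hJ hmJ)
  have hg'a : g' a = 0 := (mem_IS.1 hg').2
  have hgh : g ≠ h := by
    rintro rfl
    omega
  have hg'h : g' ≠ h := by
    rintro rfl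
    omega
  have hgg' : g ≠ g' := by
    rintro rfl
    omega
  -- 2. the witness
  obtain ⟨c0, hc0, hwit⟩ := b.fct.wit h hH
  have hposc : ∀ r ∈ IS H a, r ≠ h → 0 < r c0 := by
    intro r hr hrh
    obtain ⟨J', hJ', k', hk', rfl⟩ := b.fct.sub r (mem_IS.1 hr).1
    exact hwit J' hJ' k' hk' hrh
  have hgc := hposc g hg hgh
  have hg'c := hposc g' hg' hg'h
  -- 3. independence
  have hind : ∀ α β γ : ℤ, α • a + β • c0 + γ • C.v m = 0 → α = 0 ∧ β = 0 ∧ γ = 0 := by
    intro α β γ h0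
    have e1 : β * g c0 + γ * g (C.v m) = 0 := by
      have := congrArg g h0
      rw [map_add, map_add, map_zsmul, map_zsmul, map_zsmul, hga, map_zero] at this
      simpa using this
    have e2 : β * g' c0 + γ * g' (C.v m) = 0 := by
      have := congrArg g' h0
      rw [map_add, map_add, map_zsmul, map_zsmul, map_zsmul, hg'a, map_zero] at this
      simpa using this
    have hγ : γ = 0 := by
      rcases lt_trichotomy γ 0 with h2 | h2 | h2
      · exfalso
        have e3 : 0 < γ * g (C.v m) := mul_pos_of_neg_of_neg h2 hgm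
        have e4 : γ * g' (C.v m) < 0 := mul_neg_of_neg_of_pos h2 hg'm
        have e5 : β * g c0 < 0 := by omega
        have e6 : 0 < β * g' c0 := by omega
        have e7 : β < 0 := by
          by_contra hcon
          push Not at hcon
          have := mul_nonneg hcon hgc.le
          omega
        have := mul_neg_of_neg_of_pos e7 hg'c
        omega
      · exact h2
      · exfalso
        have e3 : γ * g (C.v m) < 0 := mul_neg_of_pos_of_neg h2 hgm
        have e4 : 0 < γ * g' (C.v m) := mul_pos h2 hg'm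
        have e5 : 0 < β * g c0 := by omega
        have e6 : β * g' c0 < 0 := by omega
        have e7 : 0 < β := by
          by_contra hcon
          push Not at hcon
          have := mul_nonpos_of_nonpos_of_nonneg hcon hgc.le
          omega
        have := mul_pos e7 hg'c
        omega
    rw [hγ, zero_mul, add_zero] at e1
    have hβ : β = 0 := (mul_eq_zero.1 e1).resolve_right hgc.ne'
    rw [hγ, hβ, zero_smul, zero_smul, add_zero, add_zero] at h0
    refine ⟨?_, hβ, hγ⟩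
    by_contra hα
    exact b.ne (C.tf hα h0)
  -- 4. coordinates on the facet
  have h4 : ∀ x, h x = 0 → ∃ N β γ : ℤ, N ≠ 0 ∧ ∀ r : Λ →+ ℤ, r a = 0 → N * r x = β * r c0 + γ * r (C.v m) := by
    intro x hx
    obtain ⟨r1, r2, r3, r4, h0, hne⟩ := dep_ker4 C hJ hk (x1 := a) (x2 := c0) (x3 := C.v m) (x4 := x)
      (by rw [← hJk]; exact ha) (by rw [← hJk]; exact hc0) (by rw [← hJk]; exact hhm)
      (by rw [← hJk]; exact hx)
    have hr4 : r4 ≠ 0 := by
      rintro rfl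
      rw [zero_smul, add_zero] at h0
      obtain ⟨i1, i2, i3⟩ := hind r1 r2 r3 h0
      rcases hne with h | h | h | h
      · exact h i1
      · exact h i2
      · exact h i3
      · exact h rfl
    refine ⟨-r4, r2, r3, neg_ne_zero.2 hr4, fun r hr => ?_⟩
    have := congrArg r h0
    rw [map_add, map_add, map_add, map_zsmul, map_zsmul, map_zsmul, map_zsmul, hr, map_zero] at this
    simp only [smul_eq_mul, mul_zero, zero_add] at this
    linarith
  -- 5. injectivity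
  have h5 : ∀ g1 ∈ IS H a, ∀ g2 ∈ IS H a, g1 ≠ h → g2 ≠ h → g1 ≠ g2 →
      g1 (C.v m) * g2 c0 - g1 c0 * g2 (C.v m) ≠ 0 := by
    intro g1 hg1 g2 hg2 h1h h2h hne hD
    have hc1 := hposc g1 hg1 h1h
    have hc2 := hposc g2 hg2 h2h
    have he : h (C.v k) = 1 := by rw [hJk]; exact C.self hJ hk
    have hker : ∀ x, h x = 0 → g2 c0 * g1 x = g1 c0 * g2 x := by
      intro x hx
      obtain ⟨N, β, γ, hN, hr⟩ := h4 x hx
      have e1 := hr g1 (mem_IS.1 hg1).2
      have e2 := hr g2 (mem_IS.1 hg2).2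
      refine mul_left_cancel₀ hN ?_
      linear_combination g2 c0 * e1 - g1 c0 * e2 + γ * hD
    have hall : ∀ x, g2 c0 * g1 x = g1 c0 * g2 x + (g2 c0 * g1 (C.v k) - g1 c0 * g2 (C.v k)) * h x := by
      intro x
      have h0 : h (x - h x • C.v k) = 0 := by
        rw [map_sub, map_zsmul, he, smul_eq_mul, mul_one, sub_self]
      have := hker _ h0
      rw [map_sub, map_sub, map_zsmul, map_zsmul, smul_eq_mul, smul_eq_mul] at this
      linear_combination this
    obtain ⟨J1, hJ1, k1, hk1, e1⟩ := b.fct.sub g1 (mem_IS.1 hg1).1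
    obtain ⟨J2, hJ2, k2, hk2, e2⟩ := b.fct.sub g2 (mem_IS.1 hg2).1
    rcases le_or_gt 0 (g2 c0 * g1 (C.v k) - g1 c0 * g2 (C.v k)) with hμ | hμ
    · obtain ⟨y, hy, hy'⟩ := b.fct.wit g1 (mem_IS.1 hg1).1
      have p2 : 0 < g2 y := by
        have := hy' J2 hJ2 k2 hk2 (by rw [← e2]; exact hne.symm)
        rwa [← e2] at this
      have ph : 0 < h y := by
        have := hy' J hJ k hk (by rw [← hJk]; exact h1h.symm)
        rwa [← hJk] at this
      have := hall y
      rw [hy, mul_zero] at this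
      have q1 := mul_pos hc1 p2
      have q2 := mul_nonneg hμ ph.le
      linarith
    · obtain ⟨y, hy, hy'⟩ := b.fct.wit g2 (mem_IS.1 hg2).1
      have p1 : 0 < g1 y := by
        have := hy' J1 hJ1 k1 hk1 (by rw [← e1]; exact hne)
        rwa [← e1] at this
      have ph : 0 < h y := by
        have := hy' J hJ k hk (by rw [← hJk]; exact h2h.symm)
        rwa [← hJk] at this
      have := hall y
      rw [hy, mul_zero, zero_add] at this
      have q1 := mul_pos hc2 p1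
      have q2 := mul_neg_of_neg_of_pos hμ ph
      linarith
  -- 6. the two neighbours
  have hTne : ((IS H a).erase h).Nonempty := ⟨g, Finset.mem_erase.2 ⟨hgh, hg⟩⟩
  obtain ⟨n, hn, hnmax⟩ := Finset.exists_max_image ((IS H a).erase h)
    (fun r : Λ →+ ℤ => ((r (C.v m) : ℤ) : ℚ) / ((r c0 : ℤ) : ℚ)) hTne
  obtain ⟨o, ho, homin⟩ := Finset.exists_min_image ((IS H a).erase h)
    (fun r : Λ →+ ℤ => ((r (C.v m) : ℤ) : ℚ) / ((r c0 : ℤ) : ℚ)) hTne
  obtain ⟨hnh, hn⟩ := Finset.mem_erase.1 hn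
  obtain ⟨hoh, ho⟩ := Finset.mem_erase.1 ho
  have hcmp : ∀ g1 ∈ IS H a, ∀ g2 ∈ IS H a, g1 ≠ h → g2 ≠ h →
      ((g2 (C.v m) : ℤ) : ℚ) / ((g2 c0 : ℤ) : ℚ) ≤ ((g1 (C.v m) : ℤ) : ℚ) / ((g1 c0 : ℤ) : ℚ) → g1 ≠ g2 →
      0 < g1 (C.v m) * g2 c0 - g1 c0 * g2 (C.v m) := by
    intro g1 hg1 g2 hg2 h1h h2h hle hne
    have hc1 := hposc g1 hg1 h1h
    have hc2 := hposc g2 hg2 h2h
    have hc1' : (0 : ℚ) < ((g1 c0 : ℤ) : ℚ) := by exact_mod_cast hc1
    have hc2' : (0 : ℚ) < ((g2 c0 : ℤ) : ℚ) := by exact_mod_cast hc2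
    rw [div_le_div_iff₀ hc2' hc1'] at hle
    have hle' : g2 (C.v m) * g1 c0 ≤ g1 (C.v m) * g2 c0 := by exact_mod_cast hle
    have h6 := h5 g1 hg1 g2 hg2 h1h h2h hne
    have h7 : 0 ≤ g1 (C.v m) * g2 c0 - g1 c0 * g2 (C.v m) := by
      rw [mul_comm (g1 c0)]
      omega
    exact lt_of_le_of_ne h7 (Ne.symm h6)
  have hDn : ∀ r ∈ IS H a, r ≠ h → r ≠ n → 0 < n (C.v m) * r c0 - n c0 * r (C.v m) :=
    fun r hr hrh hrn => hcmp n hn r hr hnh hrh (hnmax r (Finset.mem_erase.2 ⟨hrh, hr⟩)) hrn.symm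
  have hDo : ∀ r ∈ IS H a, r ≠ h → r ≠ o → 0 < r (C.v m) * o c0 - r c0 * o (C.v m) :=
    fun r hr hrh hro => hcmp r hr o ho hrh hoh (homin r (Finset.mem_erase.2 ⟨hrh, hr⟩)) hro
  have hno : n ≠ o := by
    rintro rfl
    have hex : ∃ r ∈ IS H a, r ≠ h ∧ r ≠ n := by
      by_cases h0 : g = n
      · exact ⟨g', hg', hg'h, fun h1 => hgg' (h0.trans h1.symm)⟩
      · exact ⟨g, hg, hgh, h0⟩
    obtain ⟨r, hr, hrh, hrn⟩ := hex
    have q1 := hDn r hr hrh hrn
    have q2 := hDo r hr hrh hrn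
    have q3 : n (C.v m) * r c0 - n c0 * r (C.v m) = -(r (C.v m) * n c0 - r c0 * n (C.v m)) := by ring
    omega
  refine ⟨n, o, ⟨⟨hh, hn, hnh.symm, n (C.v m) • c0 - n c0 • C.v m, ?_, ?_, ?_⟩,
    ⟨hh, ho, hoh.symm, o c0 • C.v m - o (C.v m) • c0, ?_, ?_, ?_⟩, hno, ?_⟩⟩
  · rw [map_sub, map_zsmul, map_zsmul, hc0, hhm, smul_zero, smul_zero, sub_self]
  · rw [map_sub, map_zsmul, map_zsmul, smul_eq_mul, smul_eq_mul]
    ring
  · intro r hr hrh hrn
    rw [map_sub, map_zsmul, map_zsmul, smul_eq_mul, smul_eq_mul]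
    exact hDn r hr hrh hrn
  · rw [map_sub, map_zsmul, map_zsmul, hc0, hhm, smul_zero, smul_zero, sub_self]
  · rw [map_sub, map_zsmul, map_zsmul, smul_eq_mul, smul_eq_mul]
    ring
  · intro r hr hrh hro
    rw [map_sub, map_zsmul, map_zsmul, smul_eq_mul, smul_eq_mul]
    have := hDo r hr hrh hro
    linarith
  · intro r hr hrh hrn hro
    refine ⟨n (C.v m) * o c0 - n c0 * o (C.v m), r (C.v m) * o c0 - r c0 * o (C.v m),
      n (C.v m) * r c0 - n c0 * r (C.v m), hDn o ho hoh hno.symm, hDo r hr hrh hro, hDn r hr hrh hrn,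
      fun x hx => ?_⟩
    obtain ⟨N, β, γ, hN, hN'⟩ := h4 x hx
    have e1 := hN' n (mem_IS.1 hn).2
    have e2 := hN' o (mem_IS.1 ho).2
    have e3 := hN' r (mem_IS.1 hr).2
    refine mul_left_cancel₀ hN ?_
    linear_combination (n (C.v m) * o c0 - n c0 * o (C.v m)) * e3
      - (r (C.v m) * o c0 - r c0 * o (C.v m)) * e1 - (n (C.v m) * r c0 - n c0 * r (C.v m)) * e2

theorem exists_nb (b : Bd C H a) {h n : Λ →+ ℤ} (hn : Aj H a h n) : ∃ o, Nb H a h n o := by
  obtain ⟨n', o', k⟩ := exists_nb0 b hn.1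
  rcases k.uniq hn with rfl | rfl
  · exact ⟨o', k⟩
  · exact ⟨n', k.swap⟩

end Pool.Agent.H19.P4
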