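import Pool.Agent.H19.P4.Defs
import Pool.Agent.H98.OI.Adj

/-!
# The configuration of a smooth polytope

`FF D`: the facet normals; `Lam D`: functions on the facets modulo integer linear functions; `cfg D`: the
configuration of rank `|F| - d` whose bases are the complements of the vertices.
-/

set_option autoImplicit false
set_option linter.all false

namespace Pool.Agent.H19.P4.Pol

open H66OD H19OZ H98OD Matrix
open scoped Classical

variable {d : ℕ} {P : Set (Fin d → ℝ)}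

/-- facet normals -/
noncomputable def FF (D : SD P) : Finset (Fin d → ℤ) :=
  (D.Vt ×ˢ Finset.univ).image (fun a => D.u a.1 a.2)

/-- normals of the facets through `v` -/
noncomputable def Sg (D : SD P) (v : Fin d → ℤ) : Finset (Fin d → ℤ) := Finset.univ.image (D.u v)

/-- minimum on the vertices -/
noncomputable def mn (D : SD P) (f : Fin d → ℤ) : ℤ := D.Vt.inf' D.ne (fun v => f ⬝ᵥ v)

theorem mem_FF {D : SD P} {f : Fin d → ℤ} : f ∈ FF D ↔ ∃ v ∈ D.Vt, ∃ i, D.u v i = f := by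
  simp only [FF, Finset.mem_image, Finset.mem_product, Finset.mem_univ, and_true, Prod.exists]
  constructor
  · rintro ⟨v, i, hv, h⟩
    exact ⟨v, hv, i, h⟩
  · rintro ⟨v, hv, i, h⟩
    exact ⟨v, i, hv, h⟩

theorem mem_Sg {D : SD P} {v f : Fin d → ℤ} : f ∈ Sg D v ↔ ∃ i, D.u v i = f := by
  simp [Sg]

theorem Sg_sub {D : SD P} {v : Fin d → ℤ} (hv : v ∈ D.Vt) : Sg D v ⊆ FF D := by
  intro f hf
  obtain ⟨i, hi⟩ := mem_Sg.1 hf
  exact mem_FF.2 ⟨v, hv, i, hi⟩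

theorem mn_le (D : SD P) {v : Fin d → ℤ} (hv : v ∈ D.Vt) (f : Fin d → ℤ) : mn D f ≤ f ⬝ᵥ v :=
  Finset.inf'_le (fun v => f ⬝ᵥ v) hv

theorem mn_eq (D : SD P) {v : Fin d → ℤ} (hv : v ∈ D.Vt) (i : Fin d) :
    mn D (D.u v i) = D.u v i ⬝ᵥ v := by
  refine le_antisymm (mn_le D hv _) (Finset.le_inf' _ _ fun w hw => ?_)
  have h1 := D.cone v hv i _ (D.vmem hw)
  rw [← toR_sub, toR_dot] at h1
  have h2 : 0 ≤ D.u v i ⬝ᵥ (w - v) := by exact_mod_cast h1
  rw [dotProduct_sub] at h2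
  linarith

theorem mn_real (D : SD P) {f : Fin d → ℤ} (hf : f ∈ FF D) {y : Fin d → ℝ} (hy : y ∈ P) :
    (mn D f : ℝ) ≤ toR f ⬝ᵥ y := by
  obtain ⟨v, hv, i, rfl⟩ := mem_FF.1 hf
  have h1 := D.cone v hv i _ hy
  rw [dotProduct_sub, toR_dot] at h1
  rw [mn_eq D hv]
  linarith

theorem mem_P (D : SD P) {z : Fin d → ℝ} (hz : ∀ f ∈ FF D, (mn D f : ℝ) ≤ toR f ⬝ᵥ z) : z ∈ P := by
  refine D.mem_of_cone z fun v hv i => ?_
  have h1 := hz _ (mem_FF.2 ⟨v, hv, i, rfl⟩)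
  rw [mn_eq D hv] at h1
  rw [dotProduct_sub, toR_dot]
  linarith

/-- a facet on which `v` lies is one of the facets at `v` -/
theorem Sg_of_eq (D : SD P) {v f : Fin d → ℤ} (hv : v ∈ D.Vt) (hf : f ∈ FF D)
    (h : f ⬝ᵥ v = mn D f) : f ∈ Sg D v := by
  obtain ⟨p, hp, i, rfl⟩ := mem_FF.1 hf
  rw [mn_eq D hp] at h
  have h1 : toR v ∈ Gf D p i := by
    refine ⟨D.vmem hv, ?_⟩
    rw [← toR_sub, toR_dot, dotProduct_sub, h, sub_self, Int.cast_zero]
  obtain ⟨l, hl⟩ := gf_dual D hp hv i h1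
  exact mem_Sg.2 ⟨l, hl⟩

/-- functions which are linear on the facets -/
def NN (D : SD P) : AddSubgroup ((Fin d → ℤ) → ℤ) where
  carrier := {s | ∃ z : Fin d → ℤ, ∀ f ∈ FF D, s f = f ⬝ᵥ z}
  add_mem' := by
    rintro s t ⟨z, hz⟩ ⟨y, hy⟩
    exact ⟨z + y, fun f hf => by rw [Pi.add_apply, hz f hf, hy f hf, dotProduct_add]⟩
  zero_mem' := ⟨0, fun f _ => by rw [dotProduct_zero, Pi.zero_apply]⟩
  neg_mem' := by
    rintro s ⟨z, hz⟩
    exact ⟨-z, fun f hf => by rw [Pi.neg_apply, hz f hf, dotProduct_neg]⟩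

theorem mem_NN {D : SD P} {s : (Fin d → ℤ) → ℤ} :
    s ∈ NN D ↔ ∃ z : Fin d → ℤ, ∀ f ∈ FF D, s f = f ⬝ᵥ z := Iff.rfl

/-- the class group -/
abbrev Lam (D : SD P) : Type := ((Fin d → ℤ) → ℤ) ⧸ NN D

/-- the class of a function -/
def cl (D : SD P) (s : (Fin d → ℤ) → ℤ) : Lam D := QuotientAddGroup.mk s

theorem cl_eq {D : SD P} {s t : (Fin d → ℤ) → ℤ} :
    cl D s = cl D t ↔ ∃ z : Fin d → ℤ, ∀ f ∈ FF D, t f - s f = f ⬝ᵥ z := by
  unfold cl
  rw [QuotientAddGroup.eq, mem_NN]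
  refine exists_congr fun z => forall₂_congr fun f _ => ?_
  rw [Pi.add_apply, Pi.neg_apply]
  constructor
  · intro h
    rw [← h]
    ring
  · intro h
    rw [← h]
    ring

theorem cl_sum (D : SD P) (J : Finset (Fin d → ℤ)) (r : (Fin d → ℤ) → ℤ) :
    ∑ k ∈ J, r k • cl D (Pi.single k 1) = cl D (fun f => if f ∈ J then r f else 0) := by
  have h1 : (fun f => if f ∈ J then r f else 0) = ∑ k ∈ J, r k • (Pi.single k 1 : (Fin d → ℤ) → ℤ) := by
    funext f
    rw [Finset.sum_apply]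
    simp only [Pi.smul_apply, smul_eq_mul, Pi.single_apply, mul_ite, mul_one, mul_zero]
    rw [Finset.sum_ite_eq]
  rw [h1]
  unfold cl
  rw [← QuotientAddGroup.mk'_apply, map_sum]
  refine Finset.sum_congr rfl fun k _ => ?_
  rw [map_zsmul]
  rfl

/-- the point with the values `s` on the facets at `v` -/
def zz (D : SD P) (v : Fin d → ℤ) (s : (Fin d → ℤ) → ℤ) : Fin d → ℤ :=
  ∑ i, s (D.u v i) • D.e v i

theorem u_zz (D : SD P) {v : Fin d → ℤ} (hv : v ∈ D.Vt) (s : (Fin d → ℤ) → ℤ) (i : Fin d) :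
    D.u v i ⬝ᵥ zz D v s = s (D.u v i) := by
  unfold zz
  rw [dotProduct_sum]
  simp only [dotProduct_smul, D.dual v hv, smul_eq_mul, mul_ite, mul_one, mul_zero]
  rw [Finset.sum_ite_eq, if_pos (Finset.mem_univ _)]

theorem zz_lin (D : SD P) {v : Fin d → ℤ} (hv : v ∈ D.Vt) (s : (Fin d → ℤ) → ℤ) (z : Fin d → ℤ)
    (h : ∀ i, s (D.u v i) = D.u v i ⬝ᵥ z) : zz D v s = z := by
  apply toR_injective
  rw [D.span v hv (toR z)]
  unfold zz
  rw [toR_sum]
  refine Finset.sum_congr rfl fun i _ => ?_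
  rw [toR_zsmul, h i, toR_dot]

/-- the coordinate functional before passing to the quotient -/
def phi (D : SD P) (v k : Fin d → ℤ) : ((Fin d → ℤ) → ℤ) →+ ℤ where
  toFun s := s k - k ⬝ᵥ zz D v s
  map_zero' := by
    simp only [zz, Pi.zero_apply, zero_smul, Finset.sum_const_zero, dotProduct_zero, sub_self]
  map_add' s t := by
    have h1 : zz D v (s + t) = zz D v s + zz D v t := by
      unfold zz
      rw [← Finset.sum_add_distrib]
      refine Finset.sum_congr rfl fun i _ => ?_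
      rw [Pi.add_apply, add_smul]
    rw [h1, dotProduct_add, Pi.add_apply]
    ring

theorem phi_NN (D : SD P) {v k : Fin d → ℤ} (hv : v ∈ D.Vt) (hk : k ∈ FF D) :
    NN D ≤ (phi D v k).ker := by
  rintro s ⟨z, hz⟩
  rw [AddMonoidHom.mem_ker]
  show s k - k ⬝ᵥ zz D v s = 0
  rw [zz_lin D hv s z fun i => hz _ (mem_FF.2 ⟨v, hv, i, rfl⟩), hz k hk, sub_self]

/-- the coordinate functionals -/
noncomputable def cJ (D : SD P) (J : Finset (Fin d → ℤ)) (k : Fin d → ℤ) : Lam D →+ ℤ :=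
  if h : (∃ v ∈ D.Vt, FF D \ Sg D v = J) ∧ k ∈ FF D then
    QuotientAddGroup.lift (NN D) (phi D h.1.choose k) (phi_NN D h.1.choose_spec.1 h.2)
  else 0

theorem cJ_cl (D : SD P) {v k : Fin d → ℤ} (hv : v ∈ D.Vt) (hk : k ∈ FF D)
    (s : (Fin d → ℤ) → ℤ) : cJ D (FF D \ Sg D v) k (cl D s) = s k - k ⬝ᵥ zz D v s := by
  have h : (∃ p ∈ D.Vt, FF D \ Sg D p = FF D \ Sg D v) ∧ k ∈ FF D := ⟨⟨v, hv, rfl⟩, hk⟩
  have h1 : cJ D (FF D \ Sg D v) k = QuotientAddGroup.lift (NN D) (phi D h.1.choose k)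
      (phi_NN D h.1.choose_spec.1 h.2) := dif_pos h
  rw [h1]
  unfold cl
  rw [QuotientAddGroup.lift_mk]
  show s k - k ⬝ᵥ zz D h.1.choose s = _
  obtain ⟨hp, hpe⟩ := h.1.choose_spec
  have h2 : zz D v s = zz D h.1.choose s := by
    refine zz_lin D hv s _ fun i => ?_
    have h3 : D.u v i ∈ Sg D v := mem_Sg.2 ⟨i, rfl⟩
    have h4 : D.u v i ∈ Sg D h.1.choose := by
      by_contra hcon
      have h5 : D.u v i ∈ FF D \ Sg D h.1.choose :=
        Finset.mem_sdiff.2 ⟨Sg_sub hv h3, hcon⟩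
      rw [hpe] at h5
      exact (Finset.mem_sdiff.1 h5).2 h3
    obtain ⟨j, hj⟩ := mem_Sg.1 h4
    rw [← hj, u_zz D hp]
  rw [h2]

theorem card_Sg (D : SD P) {v : Fin d → ℤ} (hv : v ∈ D.Vt) : (Sg D v).card = d := by
  unfold Sg
  rw [Finset.card_image_of_injective _ fun i j h => Adj.uinj D hv h, Finset.card_univ,
    Fintype.card_fin]

/-- the configuration of a smooth polytope -/
noncomputable def cfg (D : SD P) : Cf ((FF D).card - d) (Fin d → ℤ) (Lam D) where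
  F := FF D
  v f := cl D (Pi.single f 1)
  w := cl D (fun f => -mn D f)
  B := D.Vt.image (fun v => FF D \ Sg D v)
  c := cJ D
  ne := D.ne.image _
  sub := by
    intro J hJ
    obtain ⟨v, hv, rfl⟩ := Finset.mem_image.1 hJ
    exact Finset.sdiff_subset
  card := by
    intro J hJ
    obtain ⟨v, hv, rfl⟩ := Finset.mem_image.1 hJ
    rw [Finset.card_sdiff_of_subset (Sg_sub hv), card_Sg D hv]
  exp := by
    intro J hJ x
    obtain ⟨v, hv, rfl⟩ := Finset.mem_image.1 hJ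
    obtain ⟨s, rfl⟩ : ∃ s, cl D s = x := QuotientAddGroup.mk_surjective x
    rw [cl_sum D _ (fun k => cJ D (FF D \ Sg D v) k (cl D s)), cl_eq]
    refine ⟨zz D v s, fun f hf => ?_⟩
    by_cases hfS : f ∈ Sg D v
    · rw [if_neg fun h => (Finset.mem_sdiff.1 h).2 hfS, sub_zero]
      obtain ⟨i, rfl⟩ := mem_Sg.1 hfS
      rw [u_zz D hv]
    · rw [if_pos (Finset.mem_sdiff.2 ⟨hf, hfS⟩), cJ_cl D hv hf]
      ring
  dual := by
    intro J hJ k hk l hl
    obtain ⟨v, hv, rfl⟩ := Finset.mem_image.1 hJ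
    obtain ⟨hkF, hkS⟩ := Finset.mem_sdiff.1 hk
    obtain ⟨hlF, hlS⟩ := Finset.mem_sdiff.1 hl
    rw [cJ_cl D hv hkF, zz_lin D hv (Pi.single l 1) 0 (fun i => by
      rw [dotProduct_zero, Pi.single_apply, if_neg]
      intro h
      exact hlS (mem_Sg.2 ⟨i, h⟩)), dotProduct_zero, sub_zero, Pi.single_apply]
  pos := by
    intro J hJ k hk
    obtain ⟨v, hv, rfl⟩ := Finset.mem_image.1 hJ
    obtain ⟨hkF, hkS⟩ := Finset.mem_sdiff.1 hk
    rw [cJ_cl D hv hkF, zz_lin D hv _ (-v) (fun i => by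
      rw [dotProduct_neg, mn_eq D hv]), dotProduct_neg]
    have h1 := mn_le D hv k
    have h2 : k ⬝ᵥ v ≠ mn D k := fun h => hkS (Sg_of_eq D hv hkF h)
    have h3 : mn D k < k ⬝ᵥ v := lt_of_le_of_ne h1 h2.symm
    linarith
  piv := by
    intro J hJ f hf hfJ
    obtain ⟨v, hv, rfl⟩ := Finset.mem_image.1 hJ
    have hfS : f ∈ Sg D v := by
      by_contra hcon
      exact hfJ (Finset.mem_sdiff.2 ⟨hf, hcon⟩)
    obtain ⟨i, rfl⟩ := mem_Sg.1 hfS
    obtain ⟨q, L, τ, A⟩ := far_end D hv i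
    have hLpos : (0 : ℝ) < (L : ℝ) := by
      have := A.pos
      exact_mod_cast this
    have hkF : D.u q (τ i) ∈ FF D := mem_FF.2 ⟨q, A.hq, _, rfl⟩
    have hkS : D.u q (τ i) ∉ Sg D v := by
      intro h
      obtain ⟨l, hl⟩ := mem_Sg.1 h
      have h1 := A.pf_opp_v
      rw [pf_int] at h1
      have h2 : D.u q (τ i) ⬝ᵥ (v - q) = 0 := by
        rw [dotProduct_sub, ← mn_eq D A.hq, ← hl, mn_eq D hv, sub_self]
      have h3 : (((D.u (q, τ i).1 (q, τ i).2 ⬝ᵥ (v - (q, τ i).1) : ℤ)) : ℝ) = 0 := by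
        show (((D.u q (τ i) ⬝ᵥ (v - q) : ℤ)) : ℝ) = 0
        rw [h2, Int.cast_zero]
      rw [h3] at h1
      linarith
    have hfq : D.u v i ∉ Sg D q := by
      intro h
      obtain ⟨l, hl⟩ := mem_Sg.1 h
      have h1 := A.pf_i_q
      rw [pf_int] at h1
      have h2 : D.u v i ⬝ᵥ (q - v) = 0 := by
        rw [dotProduct_sub, ← mn_eq D hv, ← hl, mn_eq D A.hq, sub_self]
      have h3 : (((D.u (v, i).1 (v, i).2 ⬝ᵥ (q - (v, i).1) : ℤ)) : ℝ) = 0 := by
        show (((D.u v i ⬝ᵥ (q - v) : ℤ)) : ℝ) = 0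
        rw [h2, Int.cast_zero]
      rw [h3] at h1
      linarith
    refine ⟨D.u q (τ i), Finset.mem_sdiff.2 ⟨hkF, hkS⟩, Finset.mem_image.2 ⟨q, A.hq, ?_⟩⟩
    ext g
    rw [Finset.mem_sdiff, Finset.mem_insert, Finset.mem_erase, Finset.mem_sdiff]
    constructor
    · rintro ⟨hgF, hgq⟩
      by_cases hgv : g ∈ Sg D v
      · obtain ⟨l, rfl⟩ := mem_Sg.1 hgv
        left
        by_cases hli : l = i
        · rw [hli]
        · exact absurd (mem_Sg.2 ⟨τ l, A.u l hli⟩) hgq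
      · right
        exact ⟨fun h => hgq (mem_Sg.2 ⟨τ i, h.symm⟩), hgF, hgv⟩
    · rintro (rfl | ⟨hgk, hgF, hgv⟩)
      · exact ⟨hf, hfq⟩
      · refine ⟨hgF, fun h => ?_⟩
        obtain ⟨m, hm⟩ := mem_Sg.1 h
        by_cases hmi : τ.symm m = i
        · apply hgk
          rw [← hm, ← hmi, Equiv.apply_symm_apply]
        · apply hgv
          have h1 := A.u (τ.symm m) hmi
          rw [Equiv.apply_symm_apply] at h1
          exact mem_Sg.2 ⟨τ.symm m, by rw [← h1, hm]⟩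
  pt := by
    intro r hr h f hf
    rw [cl_sum D _ r] at h
    have h0 : cl D (fun f => if f ∈ FF D then r f else 0) = cl D 0 := h
    rw [eq_comm, cl_eq] at h0
    obtain ⟨z, hz⟩ := h0
    have hz' : ∀ f ∈ FF D, r f = f ⬝ᵥ z := by
      intro f hf
      have h1 := hz f hf
      rw [if_pos hf, Pi.zero_apply, sub_zero] at h1
      exact h1
    obtain ⟨v, hv, hmax⟩ := D.lp (-toR z)
    have hyP : toR v + toR z ∈ P := by
      refine mem_P D fun g hg => ?_
      have h1 := mn_real D hg (D.vmem hv)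
      have h2 : (0 : ℝ) ≤ toR g ⬝ᵥ toR z := by
        rw [toR_dot, ← hz' g hg]
        exact_mod_cast hr g hg
      rw [dotProduct_add]
      linarith
    have h1 := hmax _ hyP
    rw [dotProduct_add, neg_dotProduct, neg_dotProduct, toR_dot z z] at h1
    have h2 : z ⬝ᵥ z ≤ 0 := by
      have : ((z ⬝ᵥ z : ℤ) : ℝ) ≤ 0 := by linarith
      exact_mod_cast this
    have h3 : z = 0 := by
      have h4 : ∑ i, z i * z i = 0 :=
        le_antisymm h2 (Finset.sum_nonneg fun i _ => mul_self_nonneg _)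
      have h5 := (Finset.sum_eq_zero_iff_of_nonneg fun i _ => mul_self_nonneg (z i)).1 h4
      funext i
      exact mul_self_eq_zero.1 (h5 i (Finset.mem_univ _))
    rw [hz' f hf, h3, dotProduct_zero]

end Pool.Agent.H19.P4.Pol
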