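import Pool.Agent.H19.P4.Defs

/-!
Pivots: for `J ∈ B`, `f ∉ J`, `k ∈ J`, `J' = J - k + f ∈ B`: `c J k (v f) = 1`, `c J' f = c J k`,
`c J' l = c J l - c J l (v f) c J k` for `l ∈ J`, `l ≠ k`.
-/

set_option autoImplicit false
set_option linter.all false

namespace Pool.Agent.H19.P4

variable {ρ : ℕ} {ι Λ : Type} [DecidableEq ι] [AddCommGroup Λ]

/-- `φ x` in the coordinates of `J` -/
theorem Cf.ev (C : Cf ρ ι Λ) {J : Finset ι} (hJ : J ∈ C.B) (φ : Λ →+ ℤ) (x : Λ) :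
    φ x = ∑ l ∈ J, C.c J l x * φ (C.v l) := by
  conv_lhs => rw [← C.exp J hJ x]
  rw [map_sum]
  exact Finset.sum_congr rfl fun l _ => by rw [map_zsmul, smul_eq_mul]

theorem Cf.ev_pv (C : Cf ρ ι Λ) {J : Finset ι} (hJ : J ∈ C.B) {f k : ι} (hk : k ∈ J)
    (hJ' : insert f (J.erase k) ∈ C.B) {l : ι} (hl : l ∈ insert f (J.erase k)) (hlf : l ≠ f)
    (x : Λ) : C.c (insert f (J.erase k)) l x =
      C.c J l x + C.c J k x * C.c (insert f (J.erase k)) l (C.v k) := by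
  have hlJ : l ∈ J.erase k := (Finset.mem_insert.1 hl).resolve_left hlf
  obtain ⟨hlk, hlJ'⟩ := Finset.mem_erase.1 hlJ
  rw [C.ev hJ (C.c (insert f (J.erase k)) l) x, ← Finset.add_sum_erase _ _ hk, add_comm]
  congr 1
  rw [Finset.sum_eq_single_of_mem l hlJ]
  · rw [C.dual _ hJ' l hl l hl, if_pos rfl, mul_one]
  · intro m hm hml
    rw [C.dual _ hJ' l hl m (Finset.mem_insert_of_mem hm), if_neg (Ne.symm hml), mul_zero]

theorem Cf.ev_pf (C : Cf ρ ι Λ) {J : Finset ι} (hJ : J ∈ C.B) {f k : ι} (hfJ : f ∉ J) (hk : k ∈ J)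
    (hJ' : insert f (J.erase k) ∈ C.B) (x : Λ) : C.c (insert f (J.erase k)) f x =
      C.c J k x * C.c (insert f (J.erase k)) f (C.v k) := by
  rw [C.ev hJ (C.c (insert f (J.erase k)) f) x, ← Finset.add_sum_erase _ _ hk,
    Finset.sum_eq_zero, add_zero]
  intro m hm
  have hmf : f ≠ m := fun h => hfJ (h ▸ (Finset.mem_erase.1 hm).2)
  rw [C.dual _ hJ' f (Finset.mem_insert_self _ _) m (Finset.mem_insert_of_mem hm), if_neg hmf,
    mul_zero]

/-- the pivot coordinate is one -/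
theorem Cf.pv_one (C : Cf ρ ι Λ) {J : Finset ι} (hJ : J ∈ C.B) {f k : ι} (hfJ : f ∉ J)
    (hk : k ∈ J) (hJ' : insert f (J.erase k) ∈ C.B) :
    C.c J k (C.v f) = 1 ∧ C.c (insert f (J.erase k)) f (C.v k) = 1 := by
  have h1 := C.ev_pf hJ hfJ hk hJ' (C.v f)
  rw [C.dual _ hJ' f (Finset.mem_insert_self _ _) f (Finset.mem_insert_self _ _), if_pos rfl] at h1
  have h2 := C.ev_pf hJ hfJ hk hJ' C.w
  have h3 := C.pos _ hJ' f (Finset.mem_insert_self _ _)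
  have h4 := C.pos J hJ k hk
  rw [h2] at h3
  have h5 : 0 < C.c (insert f (J.erase k)) f (C.v k) := by
    rcases lt_or_ge 0 (C.c (insert f (J.erase k)) f (C.v k)) with h | h
    · exact h
    · nlinarith
  rcases Int.isUnit_iff.1 (IsUnit.of_mul_eq_one _ h1.symm) with h6 | h6
  · rw [h6, one_mul] at h1
    exact ⟨h6, h1.symm⟩
  · rw [h6] at h1
    omega

theorem Cf.pv_f (C : Cf ρ ι Λ) {J : Finset ι} (hJ : J ∈ C.B) {f k : ι} (hfJ : f ∉ J)
    (hk : k ∈ J) (hJ' : insert f (J.erase k) ∈ C.B) (x : Λ) :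
    C.c (insert f (J.erase k)) f x = C.c J k x := by
  rw [C.ev_pf hJ hfJ hk hJ', (C.pv_one hJ hfJ hk hJ').2, mul_one]

theorem Cf.pv_l (C : Cf ρ ι Λ) {J : Finset ι} (hJ : J ∈ C.B) {f k : ι} (hfJ : f ∉ J)
    (hk : k ∈ J) (hJ' : insert f (J.erase k) ∈ C.B) {l : ι} (hl : l ∈ J) (hlk : l ≠ k) (x : Λ) :
    C.c (insert f (J.erase k)) l x = C.c J l x - C.c J l (C.v f) * C.c J k x := by
  have hlf : l ≠ f := fun h => hfJ (h ▸ hl)
  have hl' : l ∈ insert f (J.erase k) := Finset.mem_insert_of_mem (Finset.mem_erase.2 ⟨hlk, hl⟩)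
  have h1 := C.ev_pv hJ hk hJ' hl' hlf (C.v f)
  rw [C.dual _ hJ' l hl' f (Finset.mem_insert_self _ _), if_neg hlf,
    (C.pv_one hJ hfJ hk hJ').1, one_mul] at h1
  rw [C.ev_pv hJ hk hJ' hl' hlf x]
  have h2 : C.c (insert f (J.erase k)) l (C.v k) = - C.c J l (C.v f) := by linarith
  rw [h2]; ring

end Pool.Agent.H19.P4
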