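import Pool.Agent.H19.P4.Gm2
import Pool.Agent.H19.P4.P1
import Pool.Agent.H19.P4.Cp1

/-!
Module Tri (row P4TR).  Case II, the triangle.  Use `gam`, `cov_gam`, `ty_ex`, `ty_N`, `ty_xy`, `ker3`, `pos4`, `cp4a`, `bs4`, `ee_fr`, `exists_fr`, `C.tf'`.
Three pairwise adjacent facets `h1, h2, h3`; `e ∈ F` on the edge `h1, h2`; `h3` not covered.  All values are written `(h1, h2, h3)`.
`cp1`.  Let `f1, .., f4 ∈ F`, `r1, .., r4 > 0`, one of them `= 1` (say `r1 = 1`), `x := r1 v f1 + .. + r4 v f4` killed by `h1, h2, h3`, and (hypothesis `hk`) every integer relation of the values: if `c1 v f1 + .. + c4 v f4` is killed by `h1, h2, h3` then `ci = c1 * ri` for all `i`.  Then `x = a`.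
  Proof: `ker3 b k1`: `x = s a`, `s > 0` (`pos4`).  `Ind4`: a relation has `ci = c1 ri`, so `c1 x = 0`, `c1 s a = 0`, `c1 = 0` (`C.tf`), all `ci = 0`.  `cp4a` (`M = s`): `{f1, .., f4} ∈ B`; `bs4` for `a`: `a = ∑ ui v fi`; `s a = ∑ s ui v fi = ∑ ri v fi`, `Ind4`: `s u1 = r1 = 1`: `s = 1`.
`tri_half`.  `e = (0, 0, 1)` (`ee_fr`: `h3 (v e) = 1`).  `ty_ex b k1` (`Nb h1 h2 h3`): `α1 = (0, 1, -y1)`, `β1 = (0, -x1, 1)`.  `ty_ex b k2` (`Nb h2 h3 h1`): `α2 : h3 = 1, h1 = -y2`: `(-y2, 0, 1)`; `β2 : h3 = -x2, h1 = 1`: `(1, 0, -x2)`.  Given (`Nb h3 h1 h2`): `α3 = (1, -y3, 0)`, `β3 = (-x3, 1, 0)`; `δ3 = (1, 1, 0)` (`ty_ex`, `¬ Cov h3`).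
  `gam b k3`: `x3 y3 = 2`.  `cov_gam` on the edge `h2, h3`: `k2 : Nb h2 h3 h1`, `k3.swap : Nb h3 h2 h1`, `e` on `h2, h1`; `α1 := α2, β1 := β2` (`Y1 = y2`), at `h3` w.r.t. `Nb h3 h2 h1`: `α := β3 (h2 = 1, h1 = -x3)`, `β := α3 (h2 = -y3, h1 = 1)`, so `X2 = y3`: `y2 = 1 + y3`.
  (i) `a = v β2 + v α3 + y3 v β3 + x2 v e`;  (ii) `a = v α1 + x3 v α3 + v β3 + y1 v e`;  (iii) `a = v α2 + y2 v β2 + (x2 y2 - 1) v e`;  (iv) `a = v α2 + (y2 y3) v α1 + y2 v α3 + (y1 y2 y3 - 1) v e`.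
  (i), (ii), (iv) by `cp1` (the equations of the relation: (i) `c1 + c2 - x3 c3 = 0`, `- y3 c2 + c3 = 0`, `- x2 c1 + c4 = 0`, so `c3 = y3 c2`, `c1 = (x3 y3 - 1) c2 = c2`, `c4 = x2 c1`; (ii) `x3`: `c2 = x3 c3`, `c1 = y3 c2 - c3 = c3`, `c4 = y1 c1`; (iv) order `α2, α1, α3, e`: `- y2 c1 + c3 = 0`, `c2 - y3 c3 = 0`,
  `c1 - y1 c2 + c4 = 0`).  (iii): `ty_rel b k2` with `δ := e` (`p = h3 = 1`, `q = h1 = 0`): `s a = v α2 + y2 v β2 + (x2 y2 - 1) v e`; and `s = 1` by `ty_B`, `bs4` for `a` with any `f ∈ F`, `h2 (v f) > 0` (for instance `α1`), or directly by `cp1`-like argument: coefficients of `a` in the basis `{α2, β2, e, f}` times `s`, the coefficient of `α2` is `1`.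
  (iii) - (iv): `y2 (v β2 + x2 v e) = y2 (y3 v α1 + v α3 + y1 y3 v e)`, `C.tf'`: `v β2 + x2 v e = v α3 + y3 v α1 + (y1 y3) v e`.  Into (i): `a = 2 v α3 + y3 (v β3 + v α1 + y1 v e) = 2 v α3 + y3 (a - x3 v α3) = y3 a` by (ii) and `x3 y3 = 2`.  `C.smul_eq`: `y3 = 1`.
`tri`.  `ty_ex b k3`: `α3, β3, x3, y3`.  `tri_half` gives `y3 = 1`; `tri_half` for `h1, h2` exchanged (`k2.swap : Nb h2 h1 h3`, `k1.swap : Nb h1 h3 h2`, `k3.swap : Nb h3 h2 h1`, `hβ3.swap`, `hα3.swap`) gives `x3 = 1`; contradiction to `ty_xy b k3`.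
-/

set_option autoImplicit false
set_option linter.all false

namespace Pool.Agent.H19.P4

variable {ι Λ : Type} [DecidableEq ι] [AddCommGroup Λ] {C : Cf 4 ι Λ} {H : Finset (Λ →+ ℤ)} {a : Λ}

variable {h1 h2 h3 : Λ →+ ℤ}

theorem tri_half (b : Bd C H a) (k1 : Nb H a h1 h2 h3) (k2 : Nb H a h2 h3 h1)
    (k3 : Nb H a h3 h1 h2) {e : ι} (he : e ∈ C.F) (e1 : h1 (C.v e) = 0) (e2 : h2 (C.v e) = 0)
    (hc : ¬ Cov C H a h3) {α3 β3 : ι} {x3 y3 : ℤ} (hα3 : Tp C h3 h1 h2 α3 1 (-y3))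
    (hβ3 : Tp C h3 h1 h2 β3 (-x3) 1) (hx3 : 0 < x3) (hy3 : 0 < y3) : y3 = 1 := by
  -- the vector `e`
  obtain ⟨z, F⟩ := exists_fr b k1.hn
  have e3 : h3 (C.v e) = 1 :=
    (ee_fr b F he e1 e2).2.2 h3 k1.ho.2.1 k1.ho.2.2.1.symm k1.ne.symm
  -- types at the three facets
  obtain ⟨α1, β1, δ1, x1, y1, p1, q1, hα1, hβ1, hδ1, hx1, hy1, hp1, hq1⟩ := ty_ex b k1
  obtain ⟨α2, β2, δ2, x2, y2, p2, q2, hα2, hβ2, hδ2, hx2, hy2, hp2, hq2⟩ := ty_ex b k2
  obtain ⟨α0, β0, δ3, x0, y0, p3, q3, hα0, hβ0, hδ3, hx0, hy0, hp3, hq3⟩ := ty_ex b k3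
  obtain ⟨hp3', hq3'⟩ := Gm2_F1 b k3 hc hδ3 hp3 hq3
  subst hp3'
  subst hq3'
  obtain ⟨z3, F3⟩ := exists_fr b k3.hn
  have hxy : x3 * y3 = 2 := (gam b k3 hc F3 hα3 hβ3 hx3 hy3).2
  have hy2' : y2 = 1 + y3 := (cov_gam b k2 k3.swap hc he e2 e1 hα2 hβ2 hβ3.swap hα3.swap hδ3.swap
    hx2 hy2 hy3 hx3).1
  have hTe : Tp C h2 h3 h1 e 1 0 := ⟨he, e2, e3, e1⟩
  -- values
  have a11 := hα1.h0
  have a12 := hα1.hn
  have a13 := hα1.ho
  have a22 := hα2.h0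
  have a23 := hα2.hn
  have a21 := hα2.ho
  have b22 := hβ2.h0
  have b23 := hβ2.hn
  have b21 := hβ2.ho
  have a33 := hα3.h0
  have a31 := hα3.hn
  have a32 := hα3.ho
  have b33 := hβ3.h0
  have b31 := hβ3.hn
  have b32 := hβ3.ho
  have hyy : 0 < y1 * (y2 * y3) - 1 := by
    have g1 : 2 ≤ y2 * y3 := by nlinarith
    nlinarith
  -- (i)
  have I1 : C.v β2 + (1 : ℤ) • C.v α3 + y3 • C.v β3 + x2 • C.v e = a := by
    apply cp1 b k1 hβ2.mem hα3.mem hβ3.mem he one_pos hy3 hx2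
    · simp only [map_add, map_zsmul, smul_eq_mul, b21, a31, b31, e1]
      linear_combination (-1 : ℤ) * hxy
    · simp only [map_add, map_zsmul, smul_eq_mul, b22, a32, b32, e2]
      ring
    · simp only [map_add, map_zsmul, smul_eq_mul, b23, a33, b33, e3]
      ring
    · intro c1 c2 c3 c4 g1 g2 g3
      simp only [map_add, map_zsmul, smul_eq_mul, b21, a31, b31, e1] at g1
      simp only [map_add, map_zsmul, smul_eq_mul, b22, a32, b32, e2] at g2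
      simp only [map_add, map_zsmul, smul_eq_mul, b23, a33, b33, e3] at g3
      have g4 : c2 = c1 := by linear_combination (-1 : ℤ) * g1 - x3 * g2 - c2 * hxy
      refine ⟨by rw [g4]; ring, ?_, ?_⟩
      · rw [g4] at g2
        linear_combination g2
      · linear_combination g3
  -- (ii)
  have I2 : C.v α1 + x3 • C.v α3 + (1 : ℤ) • C.v β3 + y1 • C.v e = a := by
    apply cp1 b k1 hα1.mem hα3.mem hβ3.mem he hx3 one_pos hy1
    · simp only [map_add, map_zsmul, smul_eq_mul, a11, a31, b31, e1]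
      ring
    · simp only [map_add, map_zsmul, smul_eq_mul, a12, a32, b32, e2]
      linear_combination (-1 : ℤ) * hxy
    · simp only [map_add, map_zsmul, smul_eq_mul, a13, a33, b33, e3]
      ring
    · intro c1 c2 c3 c4 g1 g2 g3
      simp only [map_add, map_zsmul, smul_eq_mul, a11, a31, b31, e1] at g1
      simp only [map_add, map_zsmul, smul_eq_mul, a12, a32, b32, e2] at g2
      simp only [map_add, map_zsmul, smul_eq_mul, a13, a33, b33, e3] at g3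
      have g4 : c3 = c1 := by linear_combination (-1 : ℤ) * g2 - y3 * g1 - c3 * hxy
      refine ⟨?_, by rw [g4]; ring, ?_⟩
      · rw [g4] at g1
        linear_combination g1
      · linear_combination g3
  -- (iv)
  have I4 : C.v α2 + (y2 * y3) • C.v α1 + y2 • C.v α3 + (y1 * (y2 * y3) - 1) • C.v e = a := by
    apply cp1 b k1 hα2.mem hα1.mem hα3.mem he (mul_pos hy2 hy3) hy2 hyy
    · simp only [map_add, map_zsmul, smul_eq_mul, a21, a11, a31, e1]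
      ring
    · simp only [map_add, map_zsmul, smul_eq_mul, a22, a12, a32, e2]
      ring
    · simp only [map_add, map_zsmul, smul_eq_mul, a23, a13, a33, e3]
      ring
    · intro c1 c2 c3 c4 g1 g2 g3
      simp only [map_add, map_zsmul, smul_eq_mul, a21, a11, a31, e1] at g1
      simp only [map_add, map_zsmul, smul_eq_mul, a22, a12, a32, e2] at g2
      simp only [map_add, map_zsmul, smul_eq_mul, a23, a13, a33, e3] at g3
      have g4 : c3 = c1 * y2 := by linear_combination g1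
      have g5 : c2 = c1 * (y2 * y3) := by
        rw [g4] at g2
        linear_combination g2
      refine ⟨g5, g4, ?_⟩
      rw [g5] at g3
      linear_combination g3
  -- (iii)
  have I3 : C.v α2 + y2 • C.v β2 + (x2 * y2 - 1) • C.v e = a := by
    obtain ⟨s, hs, r1, r2, r3, hrel⟩ := ty_rel b k2 hα2 hβ2 hTe hx2 hy2 zero_le_one le_rfl
    have hα12 : 0 < h2 (C.v α1) := by rw [a12]; exact one_pos
    have hi := ty_ind b k2 hα2 hβ2 hTe hx2 hy2 zero_le_one le_rfl hα12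
    have hB := ty_B b k2 hα2 hβ2 hTe hx2 hy2 zero_le_one le_rfl hα1.mem hα12
    obtain ⟨u1, u2, u3, u4, hu⟩ := bs4 C hi hB a
    have h8 : (s * u1 - 1) • C.v α2 + (s * u2 - y2) • C.v β2 + (s * u3 - (x2 * y2 - 1)) • C.v e +
        (s * u4) • C.v α1 = 0 := by
      have h9 : s • (u1 • C.v α2 + u2 • C.v β2 + u3 • C.v e + u4 • C.v α1) =
          (x2 * 0 + 1) • C.v α2 + (y2 * 1 + 0) • C.v β2 + (x2 * y2 - 1) • C.v e := by
        rw [← hu, hrel]
      rw [← sub_eq_zero] at h9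
      rw [← h9]
      module
    have h10 := (hi _ _ _ _ h8).1
    have h11 : s * u1 = 1 := by omega
    have h12 : s = 1 := by
      rcases Int.isUnit_iff.1 (isUnit_of_dvd_one ⟨u1, h11.symm⟩) with h | h
      · exact h
      · omega
    rw [h12, one_smul] at hrel
    rw [hrel]
    module
  -- (iii) - (iv)
  have I5 : C.v β2 + x2 • C.v e = y3 • C.v α1 + C.v α3 + (y1 * y3) • C.v e := by
    apply C.tf' hy2.ne'
    have g1 : C.v α2 + y2 • C.v β2 + (x2 * y2 - 1) • C.v e =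
        C.v α2 + (y2 * y3) • C.v α1 + y2 • C.v α3 + (y1 * (y2 * y3) - 1) • C.v e := I3.trans I4.symm
    have g2 : y2 • (C.v β2 + x2 • C.v e) =
        (C.v α2 + y2 • C.v β2 + (x2 * y2 - 1) • C.v e) - C.v α2 + C.v e := by module
    rw [g2, g1]
    module
  have I6 : (1 : ℤ) • a = y3 • a := by
    calc (1 : ℤ) • a = C.v β2 + (1 : ℤ) • C.v α3 + y3 • C.v β3 + x2 • C.v e := by rw [one_smul, I1]
      _ = (C.v β2 + x2 • C.v e) + C.v α3 + y3 • C.v β3 := by module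
      _ = (y3 • C.v α1 + C.v α3 + (y1 * y3) • C.v e) + C.v α3 + y3 • C.v β3 := by rw [I5]
      _ = y3 • (C.v α1 + x3 • C.v α3 + (1 : ℤ) • C.v β3 + y1 • C.v e) +
          (2 - x3 * y3) • C.v α3 := by module
      _ = y3 • a := by rw [I2, hxy, sub_self, zero_smul, add_zero]
  exact (C.smul_eq b.ne I6).symm

theorem tri (b : Bd C H a) (k1 : Nb H a h1 h2 h3) (k2 : Nb H a h2 h3 h1)
    (k3 : Nb H a h3 h1 h2) {e : ι} (he : e ∈ C.F) (e1 : h1 (C.v e) = 0) (e2 : h2 (C.v e) = 0)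
    (hc : ¬ Cov C H a h3) : False := by
  obtain ⟨α3, β3, δ3, x3, y3, p, q, hα3, hβ3, hδ3, hx3, hy3, hp, hq⟩ := ty_ex b k3
  have g1 := tri_half b k1 k2 k3 he e1 e2 hc hα3 hβ3 hx3 hy3
  have g2 := tri_half b k2.swap k1.swap k3.swap he e2 e1 hc hβ3.swap hα3.swap hy3 hx3
  have g3 := ty_xy b k3 hα3 hβ3 hx3 hy3
  rw [g1, g2] at g3
  omega

end Pool.Agent.H19.P4
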