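import Pool.Agent.H19.P4.C1
import Pool.Agent.H19.P4.C2
import Pool.Agent.H19.P4.Tri

/-!
Module Rk4.  There is no bad configuration.
-/

set_option autoImplicit false
set_option linter.all false

namespace Pool.Agent.H19.P4

variable {ι Λ : Type} [DecidableEq ι] [AddCommGroup Λ] {C : Cf 4 ι Λ} {H : Finset (Λ →+ ℤ)} {a : Λ}

theorem no_bd (b : Bd C H a) : False := by
  obtain ⟨h1, h2, hA, e, he, e1, e2⟩ := exists_cov b
  obtain ⟨m, k1⟩ := exists_nb b hA
  obtain ⟨h3, k2⟩ := exists_nb b hA.symm
  by_cases hc : Cov C H a h3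
  · exact case1 b k1 k2 he e1 e2 hc
  · obtain ⟨h4, k3⟩ := exists_nb b k2.ho.symm
    by_cases h41 : h4 = h1
    · subst h41
      have h3m : h3 = m := by
        rcases k1.uniq k3.ho.symm with h | h
        · exact absurd h k2.ho.2.2.1.symm
        · exact h
      subst h3m
      exact tri b k1 k2.swap k3.swap he e1 e2 hc
    · exact case2a b k2 k3 h41 he e1 e2 hc

end Pool.Agent.H19.P4
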