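import Pool.Agent.H19.P4.Lp2
import Pool.Agent.H19.P4.Dep

/-!
Module T4 (row P4T4).  Tools in rank four.  Use Bas, the statements `cp`, `dep5`.
`ind4_ne`: from `Ind4` with coefficients `1, -1` the four elements are pairwise distinct.
`span4`.  `dep5` for `v f1, ..., v f4, x`: `r5 ≠ 0` by `Ind4`; `N := |r5|`, signs.
`cp4a`.  `cp` with `J' = {f1, f2, f3, f4}`; sums over `J'` by `Finset.sum_insert` with `ind4_ne`; `hind` is `Ind4`.  `r, N` from `span4` with `x = w`; `c fi = ri > 0` (functions `fun f => if f = f1 then r1 else if f = f2 then r2 else ...`).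
`cp4b`.  The same with `c f4 = 0`; `span4` for `w`: `N w = ∑ ci v fi`; apply `h`: `N * h w = c4 * h (v f4)`, so `c4 > 0`.
`bs4`.  `C.exp` for `J = {f1, f2, f3, f4}`.
-/

set_option autoImplicit false
set_option linter.all false

namespace Pool.Agent.H19.P4

variable {ρ : ℕ} {ι Λ : Type} [DecidableEq ι] [AddCommGroup Λ]

theorem ind4_ne {C : Cf 4 ι Λ} {f1 f2 f3 f4 : ι} (hi : Ind4 C f1 f2 f3 f4) :
    f1 ≠ f2 ∧ f1 ≠ f3 ∧ f1 ≠ f4 ∧ f2 ≠ f3 ∧ f2 ≠ f4 ∧ f3 ≠ f4 := by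
  refine ⟨fun h => ?_, fun h => ?_, fun h => ?_, fun h => ?_, fun h => ?_, fun h => ?_⟩
  · have := (hi 1 (-1) 0 0 (by rw [h]; simp)).1
    omega
  · have := (hi 1 0 (-1) 0 (by rw [h]; simp)).1
    omega
  · have := (hi 1 0 0 (-1) (by rw [h]; simp)).1
    omega
  · have := (hi 0 1 (-1) 0 (by rw [h]; simp)).2.1
    omega
  · have := (hi 0 1 0 (-1) (by rw [h]; simp)).2.1
    omega
  · have := (hi 0 0 1 (-1) (by rw [h]; simp)).2.2.1
    omega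

theorem T4_sum {C : Cf 4 ι Λ} {f1 f2 f3 f4 : ι} (hi : Ind4 C f1 f2 f3 f4) {M : Type}
    [AddCommMonoid M] (g : ι → M) :
    ∑ j ∈ ({f1, f2, f3, f4} : Finset ι), g j = g f1 + g f2 + g f3 + g f4 := by
  obtain ⟨h12, h13, h14, h23, h24, h34⟩ := ind4_ne hi
  rw [Finset.sum_insert (by simp [h12, h13, h14]), Finset.sum_insert (by simp [h23, h24]),
    Finset.sum_insert (by simp [h34]), Finset.sum_singleton, ← add_assoc, ← add_assoc]

theorem T4_fun {C : Cf 4 ι Λ} {f1 f2 f3 f4 : ι} (hi : Ind4 C f1 f2 f3 f4) (r1 r2 r3 r4 : ℤ) :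
    ∃ r : ι → ℤ, r f1 = r1 ∧ r f2 = r2 ∧ r f3 = r3 ∧ r f4 = r4 := by
  obtain ⟨h12, h13, h14, h23, h24, h34⟩ := ind4_ne hi
  refine ⟨fun f => if f = f1 then r1 else if f = f2 then r2 else if f = f3 then r3 else r4,
    ?_, ?_, ?_, ?_⟩
  · simp
  · simp [h12.symm]
  · simp [h13.symm, h23.symm]
  · simp [h14.symm, h24.symm, h34.symm]

theorem span4 (C : Cf 4 ι Λ) {f1 f2 f3 f4 : ι} (hi : Ind4 C f1 f2 f3 f4) (x : Λ) :
    ∃ N c1 c2 c3 c4 : ℤ, 0 < N ∧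
      N • x = c1 • C.v f1 + c2 • C.v f2 + c3 • C.v f3 + c4 • C.v f4 := by
  obtain ⟨r1, r2, r3, r4, r5, h, hne⟩ := dep5 C (C.v f1) (C.v f2) (C.v f3) (C.v f4) x
  have h5 : r5 ≠ 0 := by
    intro h5
    rw [h5, zero_smul, add_zero] at h
    obtain ⟨e1, e2, e3, e4⟩ := hi r1 r2 r3 r4 h
    rcases hne with k | k | k | k | k
    · exact k e1
    · exact k e2
    · exact k e3
    · exact k e4
    · exact k h5
  rcases lt_or_gt_of_ne h5 with h6 | h6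
  · refine ⟨-r5, r1, r2, r3, r4, by omega, ?_⟩
    rw [neg_smul]
    exact (eq_neg_of_add_eq_zero_left h).symm
  · refine ⟨r5, -r1, -r2, -r3, -r4, h6, ?_⟩
    rw [eq_neg_of_add_eq_zero_right h]
    simp only [neg_smul, neg_add]

theorem T4_ind {C : Cf 4 ι Λ} {f1 f2 f3 f4 : ι} (hi : Ind4 C f1 f2 f3 f4) (s : ι → ℤ)
    (h : ∑ j ∈ ({f1, f2, f3, f4} : Finset ι), s j • C.v j = 0) :
    ∀ j ∈ ({f1, f2, f3, f4} : Finset ι), s j = 0 := by
  rw [T4_sum hi] at h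
  obtain ⟨e1, e2, e3, e4⟩ := hi _ _ _ _ h
  intro j hj
  rw [Finset.mem_insert, Finset.mem_insert, Finset.mem_insert, Finset.mem_singleton] at hj
  rcases hj with k | k | k | k
  · rw [k]; exact e1
  · rw [k]; exact e2
  · rw [k]; exact e3
  · rw [k]; exact e4

theorem T4_sub {C : Cf 4 ι Λ} {f1 f2 f3 f4 : ι} (h1 : f1 ∈ C.F)
    (h2 : f2 ∈ C.F) (h3 : f3 ∈ C.F) (h4 : f4 ∈ C.F) : ({f1, f2, f3, f4} : Finset ι) ⊆ C.F := by
  intro j hj
  rw [Finset.mem_insert, Finset.mem_insert, Finset.mem_insert, Finset.mem_singleton] at hj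
  rcases hj with k | k | k | k
  · rw [k]; exact h1
  · rw [k]; exact h2
  · rw [k]; exact h3
  · rw [k]; exact h4

theorem cp4a (C : Cf 4 ι Λ) {a : Λ} (ha : C.Nef a) {f1 f2 f3 f4 : ι} (h1 : f1 ∈ C.F)
    (h2 : f2 ∈ C.F) (h3 : f3 ∈ C.F) (h4 : f4 ∈ C.F) (hi : Ind4 C f1 f2 f3 f4)
    {M r1 r2 r3 r4 : ℤ} (hM : 0 < M) (p1 : 0 < r1) (p2 : 0 < r2) (p3 : 0 < r3) (p4 : 0 < r4)
    (h : M • a = r1 • C.v f1 + r2 • C.v f2 + r3 • C.v f3 + r4 • C.v f4) :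
    ({f1, f2, f3, f4} : Finset ι) ∈ C.B := by
  obtain ⟨N, w1, w2, w3, w4, hN, hw⟩ := span4 C hi C.w
  obtain ⟨r, a1, a2, a3, a4⟩ := T4_fun hi w1 w2 w3 w4
  obtain ⟨c, b1, b2, b3, b4⟩ := T4_fun hi r1 r2 r3 r4
  refine cp C ha (T4_sub h1 h2 h3 h4) (T4_ind hi) r c hN hM ?_ ?_ ?_
  · rw [T4_sum hi, a1, a2, a3, a4]
    exact hw
  · rw [T4_sum hi, b1, b2, b3, b4]
    exact h
  · intro j hj
    rw [Finset.mem_insert, Finset.mem_insert, Finset.mem_insert, Finset.mem_singleton] at hj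
    left
    rcases hj with k | k | k | k
    · rw [k, b1]; exact p1
    · rw [k, b2]; exact p2
    · rw [k, b3]; exact p3
    · rw [k, b4]; exact p4

theorem cp4b (C : Cf 4 ι Λ) {a : Λ} (ha : C.Nef a) {f1 f2 f3 f4 : ι} (h1 : f1 ∈ C.F)
    (h2 : f2 ∈ C.F) (h3 : f3 ∈ C.F) (h4 : f4 ∈ C.F) (hi : Ind4 C f1 f2 f3 f4)
    {h : Λ →+ ℤ} (hw : 0 < h C.w) (z1 : h (C.v f1) = 0) (z2 : h (C.v f2) = 0)
    (z3 : h (C.v f3) = 0) (z4 : 0 < h (C.v f4))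
    {M r1 r2 r3 : ℤ} (hM : 0 < M) (p1 : 0 < r1) (p2 : 0 < r2) (p3 : 0 < r3)
    (h : M • a = r1 • C.v f1 + r2 • C.v f2 + r3 • C.v f3) :
    ({f1, f2, f3, f4} : Finset ι) ∈ C.B := by
  rename_i g
  obtain ⟨N, w1, w2, w3, w4, hN, hww⟩ := span4 C hi C.w
  have hg : N * g C.w = w4 * g (C.v f4) := by
    have e := congrArg g hww
    simp only [map_add, map_zsmul, smul_eq_mul] at e
    rw [z1, z2, z3] at e
    linarith
  have hw4 : 0 < w4 := by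
    have e1 : 0 < N * g C.w := mul_pos hN hw
    rw [hg] at e1
    by_contra hcon
    push Not at hcon
    have e2 := mul_nonpos_of_nonpos_of_nonneg hcon z4.le
    omega
  obtain ⟨r, a1, a2, a3, a4⟩ := T4_fun hi w1 w2 w3 w4
  obtain ⟨c, b1, b2, b3, b4⟩ := T4_fun hi r1 r2 r3 0
  refine cp C ha (T4_sub h1 h2 h3 h4) (T4_ind hi) r c hN hM ?_ ?_ ?_
  · rw [T4_sum hi, a1, a2, a3, a4]
    exact hww
  · rw [T4_sum hi, b1, b2, b3, b4, zero_smul, add_zero]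
    exact h
  · intro j hj
    rw [Finset.mem_insert, Finset.mem_insert, Finset.mem_insert, Finset.mem_singleton] at hj
    rcases hj with k | k | k | k
    · left; rw [k, b1]; exact p1
    · left; rw [k, b2]; exact p2
    · left; rw [k, b3]; exact p3
    · right; rw [k, b4, a4]; exact ⟨rfl, hw4⟩

theorem bs4 (C : Cf 4 ι Λ) {f1 f2 f3 f4 : ι} (hi : Ind4 C f1 f2 f3 f4)
    (hB : ({f1, f2, f3, f4} : Finset ι) ∈ C.B) (x : Λ) :
    ∃ c1 c2 c3 c4 : ℤ, x = c1 • C.v f1 + c2 • C.v f2 + c3 • C.v f3 + c4 • C.v f4 := by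
  have h := C.exp _ hB x
  rw [T4_sum hi] at h
  exact ⟨_, _, _, _, h.symm⟩

end Pool.Agent.H19.P4
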