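import Pool.Agent.H19.P4.Pg
import Pool.Agent.H19.P4.T4

/-!
Module Ty (row P4TY).  Types of vectors on a facet.  Use Bas, `Fct.le_one`, `pos4`, `dep_ker4`, `cp4b`.  (`b : Bd C H a`, `k : Nb H a h n o`; `k.hn : Aj H a h n`, membership `k.hn.1 : h ∈ IS H a`, `k.hn.2.1 : n ∈ IS H a`, `k.ho.2.1 : o ∈ IS H a`; `mem_IS`.)
`ker3`.  `h = c J k0` (`b.fct.sub`).  `x1` from `k.hn`: `h x1 = n x1 = 0`, `o x1 > 0` (`o ≠ h, n`); `x2` from `k.ho`: `h x2 = o x2 = 0`, `n x2 > 0`.  `dep_ker4` for `a, x, x1, x2`: `r1 a + r2 x + r3 x1 + r4 x2 = 0`, not all zero.  Apply `n`: `r4 = 0`; apply `o`: `r3 = 0`.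
  `r2 ≠ 0` (else `r1 a = 0`, `r1 = 0` by `C.tf`).  Write `r1 = g u`, `r2 = g u'` with `g = gcd > 0`, `u, u'` coprime; `C.tf`: `u a + u' x = 0`.  Bezout `s u + t u' = 1`: `a = s u a + t u' a = - s u' x + t u' a = u' (t a - s x)`: `u' = 1` or `-1` by `b.prim`.  So `x = ∓ u a`.
`ty_N`.  `n (v f), o (v f) ≤ 1` by `Fct.le_one`.  If both are `≤ 0`: every `g ∈ IS H a` has `g (v f) ≤ 0` (`g = h`: `0`; `g = n, o`; other `g`: `k.comb`), contradiction to `b.stuck f`.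
`ty_xy`.  Otherwise `x y ≤ 1`, so `x = y = 1`: `v α + v β` is killed by `h, n, o`; `ker3`: `= s a`; `α ≠ β` (`n` differs); `b.nop` with `l = m = 1`.
`ty_ex`.  `h = c J k0`, `K = J.erase k0 = {l1, l2, l3}` (card 3: `Finset.card_eq_three`), `a = c1 v l1 + c2 v l2 + c3 v l3`, `ci ≥ 0`.  All `ci > 0`: if `c3 = 0` (say): `a = c1 v l1 + c2 v l2`; both positive: `b.nop`; if also `c2 = 0`: `a = c1 v l1`, `c1 ≠ 0`, `b.stuck l1` gives `g a ≠ 0`, contradiction
  (both zero: `a = 0`).  By `ty_N` each `v li` has type `(p, q)` with `p, q ≤ 1` and `p = 1` or `q = 1`.  `c1 p1 + c2 p2 + c3 p3 = 0`: some `p < 0`, unless all `pi = 0`; but then `n` vanishes on `K`, so on `ker h` (`C.exp`), contradiction to `x2` above (`h x2 = 0`, `n x2 > 0`).  That element is `β`: type `(-x, 1)`.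
  In the same way some `q < 0`: `α`: type `(1, -y)`.  The third element `δ` has type `(p, q)`: if `p < 0` then `q = 1`, `δ` is of type `(-x', 1)` and `c_α = c_β x + c_δ x'`, `c_α y = c_β + c_δ`, so `c_α y ≤ c_α`..., precisely `c_β + c_δ = y c_α = y (x c_β + x' c_δ) ≥ 2 c_β + 2 c_δ` (`ty_xy` for both), contradiction.
  In the same way `q < 0` is impossible.  So `p, q ≥ 0`.
`ty_rel`.  The left side is killed by `h, n, o`, so `= s a` by `ker3`; `s > 0` by `pos4` (`x q + p > 0` because `p = 1` or `q = 1` by `ty_N` at `δ`, `x ≥ 1`; similarly `y p + q > 0`; `x y - 1 > 0`).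
`ty_ind`.  `Ind4 C α β δ f`: apply `h`: `c4 = 0` (`h (v f) > 0`); apply `n, o`: `c1 - x c2 + p c3 = 0`, `- y c1 + c2 + q c3 = 0`, so `(c1, c2, c3)` times `(x y - 1)` is `c3` times `(x q + p, y p + q, x y - 1)` : `(x y - 1) • relation = c3 • (s a)`, so `c3 s a = 0`, `c3 = 0`; then `c1 = x c2`, `c2 = y c1`, `(x y - 1) c1 = 0`.
`ty_B`.  `cp4b` with `h`, `ty_rel`, `ty_ind`.
-/

set_option autoImplicit false
set_option linter.all false

namespace Pool.Agent.H19.P4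

variable {ι Λ : Type} [DecidableEq ι] [AddCommGroup Λ] {C : Cf 4 ι Λ} {H : Finset (Λ →+ ℤ)} {a : Λ}

variable {h n o : Λ →+ ℤ}

theorem Ty1_sm (g : Λ →+ ℤ) (r : ℤ) (x : Λ) : g (r • x) = r * g x := by
  rw [map_zsmul, smul_eq_mul]

theorem Ty1_a {g : Λ →+ ℤ} (hg : g ∈ IS H a) : g a = 0 := (mem_IS.1 hg).2

theorem ker3 (b : Bd C H a) (k : Nb H a h n o) {x : Λ} (hx : h x = 0) (nx : n x = 0)
    (ox : o x = 0) : ∃ s : ℤ, x = s • a := by
  have hh : h ∈ IS H a := k.hn.1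
  have hn : n ∈ IS H a := k.hn.2.1
  have ho : o ∈ IS H a := k.ho.2.1
  obtain ⟨J, hJ, k0, hk0, hJk⟩ := b.fct.sub h (mem_IS.1 hh).1
  obtain ⟨x1, e1, e2, e3⟩ := k.hn.2.2.2
  obtain ⟨x2, e4, e5, e6⟩ := k.ho.2.2.2
  have ox1 : 0 < o x1 := e3 o ho k.ho.2.2.1.symm k.ne.symm
  have nx2 : 0 < n x2 := e6 n hn k.hn.2.2.1.symm k.ne
  have ha : h a = 0 := Ty1_a hh
  have na : n a = 0 := Ty1_a hn
  have oa : o a = 0 := Ty1_a ho
  obtain ⟨r1, r2, r3, r4, hr, hne⟩ := dep_ker4 C hJ hk0 (x1 := a) (x2 := x) (x3 := x1) (x4 := x2)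
    (by rw [← hJk]; exact ha) (by rw [← hJk]; exact hx) (by rw [← hJk]; exact e1)
    (by rw [← hJk]; exact e4)
  have h4 : r4 = 0 := by
    have := congrArg n hr
    simp only [map_add, Ty1_sm, map_zero, na, nx, e2, mul_zero, zero_add] at this
    rcases mul_eq_zero.1 this with h | h
    · exact h
    · omega
  have h3 : r3 = 0 := by
    have := congrArg o hr
    simp only [map_add, Ty1_sm, map_zero, oa, ox, e5, mul_zero, zero_add, add_zero] at this
    rcases mul_eq_zero.1 this with h | h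
    · exact h
    · omega
  subst h4 h3
  have hr' : r1 • a + r2 • x = 0 := by simpa using hr
  have h2 : r2 ≠ 0 := by
    rintro rfl
    have h5 : r1 ≠ 0 := by simpa using hne
    have h6 : r1 • a = 0 := by simpa using hr'
    exact b.ne (C.tf h5 h6)
  have hg : 0 < Int.gcd r1 r2 := Int.gcd_pos_of_ne_zero_right _ h2
  obtain ⟨u, u', hu, h5, h6⟩ := Int.exists_gcd_one hg
  have hg' : ((Int.gcd r1 r2 : ℕ) : ℤ) ≠ 0 := by exact_mod_cast hg.ne'
  have h7 : u • a + u' • x = 0 := by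
    apply C.tf hg'
    rw [smul_add, smul_smul, smul_smul, mul_comm _ u, mul_comm _ u', ← h5, ← h6]
    exact hr'
  obtain ⟨s, t, hst⟩ := Int.isCoprime_iff_gcd_eq_one.2 hu
  have h8 : a = u' • (t • a - s • x) := by
    have h9 : u' • x = -(u • a) := by
      rw [add_comm] at h7
      exact eq_neg_of_add_eq_zero_left h7
    calc a = (1 : ℤ) • a := (one_smul _ _).symm
      _ = (s * u + t * u') • a := by rw [hst]
      _ = s • (u • a) + (u' * t) • a := by rw [add_smul, mul_smul, mul_comm t u']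
      _ = (u' * t) • a - s • (u' • x) := by rw [h9, smul_neg]; abel
      _ = u' • (t • a - s • x) := by
          rw [smul_sub, smul_smul, smul_smul, smul_smul, mul_comm s u']
  rcases b.prim u' _ h8 with h9 | h9
  · refine ⟨-u, ?_⟩
    rw [h9, one_smul] at h7
    rw [neg_smul]
    rw [add_comm] at h7
    exact eq_neg_of_add_eq_zero_left h7
  · refine ⟨u, ?_⟩
    rw [h9, neg_smul, one_smul] at h7
    exact (sub_eq_zero.1 (by rw [sub_eq_add_neg]; exact h7)).symm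

theorem ty_N (b : Bd C H a) (k : Nb H a h n o) {f : ι} (hf : f ∈ C.F) (h0 : h (C.v f) = 0) :
    n (C.v f) ≤ 1 ∧ o (C.v f) ≤ 1 ∧ (n (C.v f) = 1 ∨ o (C.v f) = 1) := by
  have hn1 := b.fct.le_one (mem_IS.1 k.hn.2.1).1 hf
  have ho1 := b.fct.le_one (mem_IS.1 k.ho.2.1).1 hf
  refine ⟨hn1, ho1, ?_⟩
  by_contra hcon
  push Not at hcon
  have hn0 : n (C.v f) ≤ 0 := by
    have := hcon.1
    omega
  have ho0 : o (C.v f) ≤ 0 := by
    have := hcon.2
    omega
  obtain ⟨g, hg, hgp⟩ := b.stuck f hf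
  by_cases g1 : g = h
  · rw [g1, h0] at hgp
    exact lt_irrefl _ hgp
  by_cases g2 : g = n
  · rw [g2] at hgp
    omega
  by_cases g3 : g = o
  · rw [g3] at hgp
    omega
  obtain ⟨m, m1, m2, p, p1, p2, hm⟩ := k.comb g hg g1 g2 g3
  have h1 := hm _ h0
  have h2 : 0 < m * g (C.v f) := mul_pos p hgp
  have h3 : m1 * n (C.v f) ≤ 0 := mul_nonpos_of_nonneg_of_nonpos p1.le hn0
  have h4 : m2 * o (C.v f) ≤ 0 := mul_nonpos_of_nonneg_of_nonpos p2.le ho0
  omega

theorem ty_xy (b : Bd C H a) (k : Nb H a h n o) {α β : ι} {x y : ℤ} (hα : Tp C h n o α 1 (-y))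
    (hβ : Tp C h n o β (-x) 1) (hx : 0 < x) (hy : 0 < y) : 2 ≤ x * y := by
  by_contra hcon
  have hx1 : x = 1 := by nlinarith
  have hy1 : y = 1 := by nlinarith
  subst hx1 hy1
  have e1 : h (C.v α + C.v β) = 0 := by rw [map_add, hα.h0, hβ.h0, add_zero]
  have e2 : n (C.v α + C.v β) = 0 := by rw [map_add, hα.hn, hβ.hn]; norm_num
  have e3 : o (C.v α + C.v β) = 0 := by rw [map_add, hα.ho, hβ.ho]; norm_num
  obtain ⟨s, hs⟩ := ker3 b k e1 e2 e3
  have hne : α ≠ β := by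
    rintro rfl
    have := hα.hn.symm.trans hβ.hn
    omega
  refine b.nop α hα.mem β hβ.mem hne 1 1 s one_pos one_pos ?_
  rw [one_smul, one_smul]
  exact hs

end Pool.Agent.H19.P4
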