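import Pool.Agent.H19.P4.Ty1

/-!
Module Ty (row P4TY).  Types of vectors on a facet.  Use Bas, `Fct.le_one`, `pos4`, `dep_ker4`, `cp4b`.  (`b : Bd C H a`, `k : Nb H a h n o`; `k.hn : Aj H a h n`, membership `k.hn.1 : h ∈ IS H a`, `k.hn.2.1 : n ∈ IS H a`, `k.ho.2.1 : o ∈ IS H a`; `mem_IS`.)
`ker3`.  `h = c J k0` (`b.fct.sub`).  `x1` from `k.hn`: `h x1 = n x1 = 0`, `o x1 > 0` (`o ≠ h, n`); `x2` from `k.ho`: `h x2 = o x2 = 0`, `n x2 > 0`.  `dep_ker4` for `a, x, x1, x2`: `r1 a + r2 x + r3 x1 + r4 x2 = 0`, not all zero.  Apply `n`: `r4 = 0`; apply `o`: `r3 = 0`.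
  `r2 ≠ 0` (else `r1 a = 0`, `r1 = 0` by `C.tf`).  Write `r1 = g u`, `r2 = g u'` with `g = gcd > 0`, `u, u'` coprime; `C.tf`: `u a + u' x = 0`.  Bezout `s u + t u' = 1`: `a = s u a + t u' a = - s u' x + t u' a = u' (t a - s x)`: `u' = 1` or `-1` by `b.prim`.  So `x = ∓ u a`.
`ty_N`.  `n (v f), o (v f) ≤ 1` by `Fct.le_one`.  If both are `≤ 0`: every `g ∈ IS H a` has `g (v f) ≤ 0` (`g = h`: `0`; `g = n, o`; other `g`: `k.comb`), contradiction to `b.stuck f`.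
`ty_xy`.  Otherwise `x y ≤ 1`, so `x = y = 1`: `v α + v β` is killed by `h, n, o`; `ker3`: `= s a`; `α ≠ β` (`n` differs); `b.nop` with `l = m = 1`.
`ty_ex`.  `h = c J k0`, `K = J.erase k0 = {l1, l2, l3}` (card 3: `Finset.card_eq_three`), `a = c1 v l1 + c2 v l2 + c3 v l3`, `ci ≥ 0`.  All `ci > 0`: if `c3 = 0` (say): `a = c1 v l1 + c2 v l2`; both positive: `b.nop`; if also `c2 = 0`: `a = c1 v l1`, `c1 ≠ 0`, `b.stuck l1` gives `g a ≠ 0`, contradiction
  (both zero: `a = 0`).  By `ty_N` each `v li` has type `(p, q)` with `p, q ≤ 1` and `p = 1` or `q = 1`.  `c1 p1 + c2 p2 + c3 p3 = 0`: some `p < 0`, unless all `pi = 0`; but then `n` vanishes on `K`, so on `ker h` (`C.exp`), contradiction to `x2` above (`h x2 = 0`, `n x2 > 0`).  That element is `β`: type `(-x, 1)`.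
  In the same way some `q < 0`: `α`: type `(1, -y)`.  The third element `δ` has type `(p, q)`: if `p < 0` then `q = 1`, `δ` is of type `(-x', 1)` and `c_α = c_β x + c_δ x'`, `c_α y = c_β + c_δ`, so `c_α y ≤ c_α`..., precisely `c_β + c_δ = y c_α = y (x c_β + x' c_δ) ≥ 2 c_β + 2 c_δ` (`ty_xy` for both), contradiction.
  In the same way `q < 0` is impossible.  So `p, q ≥ 0`.
`ty_rel`.  The left side is killed by `h, n, o`, so `= s a` by `ker3`; `s > 0` by `pos4` (`x q + p > 0` because `p = 1` or `q = 1` by `ty_N` at `δ`, `x ≥ 1`; similarly `y p + q > 0`; `x y - 1 > 0`).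
`ty_ind`.  `Ind4 C α β δ f`: apply `h`: `c4 = 0` (`h (v f) > 0`); apply `n, o`: `c1 - x c2 + p c3 = 0`, `- y c1 + c2 + q c3 = 0`, so `(c1, c2, c3)` times `(x y - 1)` is `c3` times `(x q + p, y p + q, x y - 1)` : `(x y - 1) • relation = c3 • (s a)`, so `c3 s a = 0`, `c3 = 0`; then `c1 = x c2`, `c2 = y c1`, `(x y - 1) c1 = 0`.
`ty_B`.  `cp4b` with `h`, `ty_rel`, `ty_ind`.
-/

set_option autoImplicit false
set_option linter.all false

namespace Pool.Agent.H19.P4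

variable {ι Λ : Type} [DecidableEq ι] [AddCommGroup Λ] {C : Cf 4 ι Λ} {H : Finset (Λ →+ ℤ)} {a : Λ}

variable {h n o : Λ →+ ℤ}

theorem Ty2_sum {M : Type} [AddCommMonoid M] {J : Finset ι} {k0 : ι} (hk0 : k0 ∈ J) (f : ι → M)
    (h0 : f k0 = 0) : ∑ l ∈ J, f l = ∑ l ∈ J.erase k0, f l := by
  rw [← Finset.add_sum_erase J f hk0, h0, zero_add]

theorem Ty2_pos (b : Bd C H a) {J : Finset ι} (hJ : J ∈ C.B) {k0 : ι} (hk0 : k0 ∈ J)
    (ha : C.c J k0 a = 0) {l : ι} (hl : l ∈ J.erase k0) : 0 < C.c J l a := by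
  have hJF := C.sub J hJ
  have hlJ : l ∈ J := Finset.mem_of_mem_erase hl
  have hnn : ∀ k ∈ J, 0 ≤ C.c J k a := fun k hk => b.nef J hJ k hk
  rcases (hnn l hlJ).eq_or_lt with h0 | h0
  swap
  · exact h0
  exfalso
  have hcard : ((J.erase k0).erase l).card = 2 := by
    rw [Finset.card_erase_of_mem hl, Finset.card_erase_of_mem hk0, C.card J hJ]
  obtain ⟨l1, l2, hne, he⟩ := Finset.card_eq_two.1 hcard
  have h1 : l1 ∈ J := by
    have : l1 ∈ (J.erase k0).erase l := by rw [he]; simp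
    exact Finset.mem_of_mem_erase (Finset.mem_of_mem_erase this)
  have h2 : l2 ∈ J := by
    have : l2 ∈ (J.erase k0).erase l := by rw [he]; simp
    exact Finset.mem_of_mem_erase (Finset.mem_of_mem_erase this)
  have hexp : C.c J l1 a • C.v l1 + C.c J l2 a • C.v l2 = a := by
    have e := C.exp J hJ a
    rw [Ty2_sum hk0 (fun k => C.c J k a • C.v k) (by simp [ha]),
      Ty2_sum hl (fun k => C.c J k a • C.v k) (by simp [← h0]), he, Finset.sum_pair hne] at e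
    exact e
  have key : ∀ g ∈ C.F, ∀ m : ℤ, a = m • C.v g → 0 ≤ m → False := by
    intro g hg m hm hm0
    rcases hm0.eq_or_lt with h3 | h3
    · rw [← h3, zero_smul] at hm
      exact b.ne hm
    · obtain ⟨φ, hφ, hφ1⟩ := b.stuck g hg
      have h4 : φ a = 0 := (mem_IS.1 hφ).2
      rw [hm, map_zsmul, smul_eq_mul] at h4
      have := mul_pos h3 hφ1
      omega
  rcases (hnn l1 h1).eq_or_lt with h3 | h3
  · rw [← h3, zero_smul, zero_add] at hexp
    exact key l2 (hJF h2) _ hexp.symm (hnn l2 h2)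
  · rcases (hnn l2 h2).eq_or_lt with h4 | h4
    · rw [← h4, zero_smul, add_zero] at hexp
      exact key l1 (hJF h1) _ hexp.symm (hnn l1 h1)
    · refine b.nop l1 (hJF h1) l2 (hJF h2) hne _ _ 1 h3 h4 ?_
      rw [one_smul]
      exact hexp

theorem Ty2_neg (b : Bd C H a) (k : Nb H a h n o) {J : Finset ι} (hJ : J ∈ C.B) {k0 : ι}
    (hk0 : k0 ∈ J) (hh : h = C.c J k0) : ∃ l ∈ J.erase k0, n (C.v l) < 0 := by
  have ha : C.c J k0 a = 0 := by
    rw [← hh]
    exact (mem_IS.1 k.hn.1).2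
  have hna : n a = 0 := (mem_IS.1 k.hn.2.1).2
  by_contra hcon
  push Not at hcon
  have hsum : ∑ l ∈ J.erase k0, C.c J l a * n (C.v l) = 0 := by
    have e := congrArg n (C.exp J hJ a)
    rw [map_sum, Ty2_sum hk0 _ (by rw [ha, zero_smul, map_zero]), hna] at e
    rw [← e]
    exact Finset.sum_congr rfl fun l _ => by rw [map_zsmul, smul_eq_mul]
  have hz : ∀ l ∈ J.erase k0, n (C.v l) = 0 := by
    intro l hl
    have h1 := (Finset.sum_eq_zero_iff_of_nonneg (fun l hl =>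
      mul_nonneg (Ty2_pos b hJ hk0 ha hl).le (hcon l hl))).1 hsum l hl
    exact (mul_eq_zero.1 h1).resolve_left (Ty2_pos b hJ hk0 ha hl).ne'
  obtain ⟨_, _, _, x, hx, _, hpos⟩ := k.ho
  have hn := hpos n k.hn.2.1 k.hn.2.2.1.symm k.ne
  have e := congrArg n (C.exp J hJ x)
  rw [map_sum, Ty2_sum hk0 _ (by rw [← hh, hx, zero_smul, map_zero])] at e
  rw [Finset.sum_eq_zero fun l hl => by rw [map_zsmul, hz l hl, smul_zero]] at e
  omega

theorem ty_ex (b : Bd C H a) (k : Nb H a h n o) : ∃ (α β δ : ι) (x y p q : ℤ),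
    Tp C h n o α 1 (-y) ∧ Tp C h n o β (-x) 1 ∧ Tp C h n o δ p q ∧ 0 < x ∧ 0 < y ∧ 0 ≤ p ∧
      0 ≤ q := by
  obtain ⟨J, hJ, k0, hk0, hh⟩ := b.fct.sub h (mem_IS.1 k.hn.1).1
  have ha : C.c J k0 a = 0 := by
    rw [← hh]
    exact (mem_IS.1 k.hn.1).2
  have hna : n a = 0 := (mem_IS.1 k.hn.2.1).2
  have hoa : o a = 0 := (mem_IS.1 k.ho.2.1).2
  have hF : ∀ l ∈ J.erase k0, l ∈ C.F := fun l hl => C.sub J hJ (Finset.mem_of_mem_erase hl)
  have hh0 : ∀ l ∈ J.erase k0, h (C.v l) = 0 := by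
    intro l hl
    rw [hh]
    exact C.other hJ hk0 (Finset.mem_of_mem_erase hl) (Finset.ne_of_mem_erase hl).symm
  obtain ⟨β, hβ, hβn⟩ := Ty2_neg b k hJ hk0 hh
  obtain ⟨α, hα, hαo⟩ := Ty2_neg b k.swap hJ hk0 hh
  have Nβ := ty_N b k (hF β hβ) (hh0 β hβ)
  have Nα := ty_N b k (hF α hα) (hh0 α hα)
  have hβo : o (C.v β) = 1 := by omega
  have hαn : n (C.v α) = 1 := by omega
  have hne : α ≠ β := by
    intro h1
    rw [h1] at hαo
    omega
  have hβ' : β ∈ (J.erase k0).erase α := Finset.mem_erase.2 ⟨hne.symm, hβ⟩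
  have hcard : (((J.erase k0).erase α).erase β).card = 1 := by
    rw [Finset.card_erase_of_mem hβ', Finset.card_erase_of_mem hα, Finset.card_erase_of_mem hk0,
      C.card J hJ]
  obtain ⟨δ, hδ⟩ := Finset.card_eq_one.1 hcard
  have hδK : δ ∈ J.erase k0 := by
    have : δ ∈ ((J.erase k0).erase α).erase β := by rw [hδ]; simp
    exact Finset.mem_of_mem_erase (Finset.mem_of_mem_erase this)
  have hsum : ∀ g : Λ →+ ℤ, g a = 0 → C.c J α a * g (C.v α) + (C.c J β a * g (C.v β) +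
      C.c J δ a * g (C.v δ)) = 0 := by
    intro g hg
    have e := congrArg g (C.exp J hJ a)
    rw [map_sum, Ty2_sum hk0 _ (by rw [ha, zero_smul, map_zero]), hg,
      ← Finset.add_sum_erase _ _ hα, ← Finset.add_sum_erase _ _ hβ', hδ,
      Finset.sum_singleton] at e
    simpa only [map_zsmul, smul_eq_mul] using e
  have e1 := hsum n hna
  have e2 := hsum o hoa
  have pα := Ty2_pos b hJ hk0 ha hα
  have pβ := Ty2_pos b hJ hk0 ha hβ
  have pδ := Ty2_pos b hJ hk0 ha hδK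
  have Nδ := ty_N b k (hF δ hδK) (hh0 δ hδK)
  have Tα : Tp C h n o α 1 (-(-o (C.v α))) := ⟨hF α hα, hh0 α hα, hαn, by ring⟩
  have Tβ : Tp C h n o β (-(-n (C.v β))) 1 := ⟨hF β hβ, hh0 β hβ, by ring, hβo⟩
  have xy := ty_xy b k Tα Tβ (by omega) (by omega)
  rw [hαn, mul_one] at e1
  rw [hβo, mul_one] at e2
  refine ⟨α, β, δ, -n (C.v β), -o (C.v α), n (C.v δ), o (C.v δ), Tα, Tβ,
    ⟨hF δ hδK, hh0 δ hδK, rfl, rfl⟩, by omega, by omega, ?_, ?_⟩
  · by_contra hcon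
    push Not at hcon
    have hq : o (C.v δ) = 1 := by omega
    have Tδ : Tp C h n o δ (-(-n (C.v δ))) 1 := ⟨hF δ hδK, hh0 δ hδK, by ring, hq⟩
    have xy' := ty_xy b k Tα Tδ (by omega) (by omega)
    rw [hq, mul_one] at e2
    have e3 : C.c J β a + C.c J δ a = C.c J β a * (-n (C.v β) * -o (C.v α)) +
        C.c J δ a * (-n (C.v δ) * -o (C.v α)) := by
      linear_combination e2 - o (C.v α) * e1
    nlinarith [mul_le_mul_of_nonneg_left xy pβ.le, mul_le_mul_of_nonneg_left xy' pδ.le]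
  · by_contra hcon
    push Not at hcon
    have hq : n (C.v δ) = 1 := by omega
    have Tδ : Tp C h n o δ 1 (-(-o (C.v δ))) := ⟨hF δ hδK, hh0 δ hδK, hq, by ring⟩
    have xy' := ty_xy b k Tδ Tβ (by omega) (by omega)
    rw [hq, mul_one] at e1
    have e3 : C.c J α a + C.c J δ a = C.c J α a * (-n (C.v β) * -o (C.v α)) +
        C.c J δ a * (-n (C.v β) * -o (C.v δ)) := by
      linear_combination e1 - n (C.v β) * e2
    nlinarith [mul_le_mul_of_nonneg_left xy pα.le, mul_le_mul_of_nonneg_left xy' pδ.le]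

end Pool.Agent.H19.P4
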